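import Pool.Agent.Lib_MP_904310_fr.Main

/-!
# Commutative kernels: local finiteness of the subgroup of almost splitting elements
-/

set_option autoImplicit false

namespace Pool.Agent.MP_904310f.Ab

open Subgroup Filter

open Pool.Agent.MP_904310f (Fpf Krn LFs engel_finite)

variable {G : Type*} [Group G]

theorem tendsto_mul_right (h : G) : Tendsto (fun y : G => y * h) cofinite cofinite :=
  (mul_left_injective h).tendsto_cofinite

/-- `f` lies in a commutative kernel of `a` -/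
def K0 (a f : G) : Prop :=
  ∃ L : Subgroup G, Fpf a L ∧ (∀ x ∈ L, ∀ y ∈ L, Commute x y) ∧ f ∈ L

theorem swap {k k' l l' : G} (h0 : Commute k k') (h1 : Commute (k * l) (k' * l'))
    (h2 : Commute (k * (l * l)) (k' * (l' * l'))) (h3 : Commute l l') :
    Commute (l * l'⁻¹) (k⁻¹ * l' * k) := by
  set P := k'⁻¹ * l * k' with hP
  set R := k⁻¹ * l' * k with hR
  have e1 : P * l' = R * l := by
    have := h1.eq
    have a1 : k * l * (k' * l') = (k * k') * (P * l') := by rw [hP]; group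
    have a2 : k' * l' * (k * l) = (k' * k) * (R * l) := by rw [hR]; group
    rw [a1, a2, h0.eq] at this
    exact mul_left_cancel this
  have e2 : P * P * (l' * l') = R * R * (l * l) := by
    have := h2.eq
    have a1 : k * (l * l) * (k' * (l' * l')) = (k * k') * (P * P * (l' * l')) := by
      rw [hP]; group
    have a2 : k' * (l' * l') * (k * (l * l)) = (k' * k) * (R * R * (l * l)) := by
      rw [hR]; group
    rw [a1, a2, h0.eq] at this
    exact mul_left_cancel this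
  have e3 : P = R * l * l'⁻¹ := by rw [← e1]; group
  have h3' : l'⁻¹ * l = l * l'⁻¹ := (h3.symm.inv_left).eq
  have e4 : l * l'⁻¹ * R * (l' * l) = R * (l * l) := by
    have a1 : P * P * (l' * l') = R * (l * l'⁻¹ * R * (l * l')) := by rw [e3]; group
    rw [a1] at e2
    have a3 : R * R * (l * l) = R * (R * (l * l)) := by group
    rw [a3] at e2
    rw [← h3.eq]
    exact mul_left_cancel e2
  have e5 : l * l'⁻¹ * R * l' = R * l := by
    have a1 : l * l'⁻¹ * R * (l' * l) = (l * l'⁻¹ * R * l') * l := by group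
    have a2 : R * (l * l) = (R * l) * l := by group
    rw [a1, a2] at e4
    exact mul_right_cancel e4
  have e6 : l * l'⁻¹ * R = R * (l * l'⁻¹) := by
    have : l * l'⁻¹ * R = (l * l'⁻¹ * R * l') * l'⁻¹ := by group
    rw [this, e5]; group
  exact e6

theorem Fpf.inv_left {u : G} {L : Subgroup G} (h : Fpf u L) : Fpf u⁻¹ L := by
  refine ⟨h.fin, ?_, ?_⟩
  · intro l hl; rw [inv_inv]; exact h.inv' l hl
  · intro l hl hc
    exact h.fpf l hl (by simpa using hc.inv_left)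

theorem Fpf.powc {u : G} {L : Subgroup G} (h : Fpf u L) (j : ℕ) {l : G} (hl : l ∈ L) :
    (u ^ j)⁻¹ * l * u ^ j ∈ L := by
  induction j with
  | zero => simpa using hl
  | succ j ih =>
    have e : (u ^ (j + 1))⁻¹ * l * u ^ (j + 1) = u⁻¹ * ((u ^ j)⁻¹ * l * u ^ j) * u := by
      rw [pow_succ]; group
    rw [e]; exact h.inv _ ih

theorem Fpf.powc' {u : G} {L : Subgroup G} (h : Fpf u L) (j : ℕ) {l : G} (hl : l ∈ L) :
    u ^ j * l * (u ^ j)⁻¹ ∈ L := by
  induction j with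
  | zero => simpa using hl
  | succ j ih =>
    have e : u ^ (j + 1) * l * (u ^ (j + 1))⁻¹ = u * (u ^ j * l * (u ^ j)⁻¹) * u⁻¹ := by
      rw [pow_succ']; group
    rw [e]; exact h.inv' _ ih

theorem Fpf.pw {u : G} {L : Subgroup G} (h : Fpf u L) {p : ℕ} (hu : u ^ p = 1) {l : G}
    (hl : l ∈ L) : (u * l) ^ p = 1 := by
  obtain ⟨m, _, hm⟩ := h.conj hl
  rw [← hm]
  have : (m⁻¹ * u * m) ^ p = m⁻¹ * u ^ p * m := by
    have := conj_pow (i := p) (a := m⁻¹) (b := u)
    simpa using this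
  rw [this, hu]; simp

variable {p : ℕ} {a : G}

theorem exists_F {F : Subgroup G} (hinf : (F : Set G).Infinite) {P : G → Prop}
    (h : ∀ᶠ f in cofinite, f ∈ F → P f) : ∃ f ∈ F, P f := by
  have h1 : ∃ᶠ y in cofinite, y ∈ (F : Set G) := by
    rw [frequently_cofinite_iff_infinite]
    exact hinf
  obtain ⟨y, h2, h3⟩ := (h1.and_eventually h).exists
  exact ⟨y, h2, h3 h2⟩

theorem evA {F : Subgroup G} (hN : F.Normal) (hk0 : ∀ᶠ k in cofinite, k ∈ F → K0 a k) {l : G}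
    (hl : l ∈ F) (hlK : K0 a l) :
    ∀ᶠ k in cofinite, k ∈ F →
      ∀ j : ℕ, Commute l (k⁻¹ * ((a ^ j)⁻¹ * l * a ^ j) * k) := by
  obtain ⟨L, hL, hcom, hlL⟩ := hlK
  -- restrict to `L ⊓ F`
  have hI : Fpf a (L ⊓ F) := by
    refine ⟨hL.fin.subset inf_le_left, fun z hz => ⟨hL.inv z hz.1, ?_⟩,
      fun z hz => hL.fpf z hz.1⟩
    have := hN.conj_mem _ hz.2 a⁻¹
    simpa using this
  have hall : ∀ᶠ k in cofinite, ∀ z ∈ ((L ⊓ F : Subgroup G) : Set G), k ∈ F →
      K0 a k ∧ K0 a (k * z) ∧ K0 a (k * (z * z)) := by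
    rw [Filter.eventually_all_finite hI.fin]
    intro z hz
    filter_upwards [hk0, (tendsto_mul_right z).eventually hk0,
      (tendsto_mul_right (z * z)).eventually hk0] with k h1 h2 h3 hk
    exact ⟨h1 hk, h2 ((F).mul_mem hk hz.2),
      h3 ((F).mul_mem hk ((F).mul_mem hz.2 hz.2))⟩
  filter_upwards [hall] with k hk hkF j
  -- the basic commutation
  have comK : ∀ f : G, K0 a f → ∀ i : ℕ, Commute f ((a ^ i)⁻¹ * f * a ^ i) := by
    rintro f ⟨M, hM, hMc, hf⟩ i
    exact hMc f hf _ (Fpf.powc hM i hf)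
  have basic : ∀ z ∈ L ⊓ F, ∀ i : ℕ,
      Commute (z * ((a ^ i)⁻¹ * z * a ^ i)⁻¹) (k⁻¹ * ((a ^ i)⁻¹ * z * a ^ i) * k) := by
    intro z hz i
    obtain ⟨h1, h2, h3⟩ := hk z hz hkF
    have c1 := comK k h1 i
    have c2 := comK _ h2 i
    have c3 := comK _ h3 i
    have c4 := hcom z hz.1 _ (Fpf.powc hL i hz.1)
    have e2 : (a ^ i)⁻¹ * (k * z) * a ^ i =
        ((a ^ i)⁻¹ * k * a ^ i) * ((a ^ i)⁻¹ * z * a ^ i) := by group
    have e3 : (a ^ i)⁻¹ * (k * (z * z)) * a ^ i =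
        ((a ^ i)⁻¹ * k * a ^ i) *
          (((a ^ i)⁻¹ * z * a ^ i) * ((a ^ i)⁻¹ * z * a ^ i)) := by group
    rw [e2] at c2
    rw [e3] at c3
    exact swap c1 c2 c3 c4
  set t := (a ^ j)⁻¹ * l * a ^ j with ht
  have htI : t ∈ L ⊓ F := Fpf.powc hI j ⟨hlL, hl⟩
  set r := k⁻¹ * t * k with hr
  -- `M` is the centraliser of `r`
  set M := centralizer ({r} : Set G) with hM
  have memM : ∀ z, z ∈ M ↔ Commute z r := by
    intro z
    rw [hM, mem_centralizer_singleton_iff]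
    rfl
  have step : ∀ i : ℕ, a ^ i * t * (a ^ i)⁻¹ * t⁻¹ ∈ M := by
    intro i
    have hz : a ^ i * t * (a ^ i)⁻¹ ∈ L ⊓ F := Fpf.powc' hI i htI
    have := basic _ hz i
    have e : (a ^ i)⁻¹ * (a ^ i * t * (a ^ i)⁻¹) * a ^ i = t := by group
    rw [e] at this
    exact (memM _).2 this
  set A := closure (Set.range fun i : ℕ => a ^ i * t * (a ^ i)⁻¹) with hA
  have hAL : A ≤ L ⊓ F := by
    rw [hA, closure_le]
    rintro _ ⟨i, rfl⟩
    exact Fpf.powc' hI i htI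
  have hAinv : ∀ z ∈ A, a * z * a⁻¹ ∈ A := by
    intro z hz
    refine closure_induction (p := fun z _ => a * z * a⁻¹ ∈ A) ?_ ?_ ?_ ?_ hz
    · rintro _ ⟨i, rfl⟩
      apply Subgroup.subset_closure
      refine ⟨i + 1, ?_⟩
      simp only
      rw [pow_succ']; group
    · simp
    · intro x y _ _ hx hy
      have e : a * (x * y) * a⁻¹ = (a * x * a⁻¹) * (a * y * a⁻¹) := by group
      rw [e]; exact A.mul_mem hx hy
    · intro x _ hx
      have e : a * x⁻¹ * a⁻¹ = (a * x * a⁻¹)⁻¹ := by group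
      rw [e]; exact A.inv_mem hx
  have hAf : Fpf a⁻¹ A := by
    refine ⟨hI.fin.subset hAL, ?_, ?_⟩
    · intro z hz; rw [inv_inv]; exact hAinv z hz
    · intro z hz hc
      exact (Fpf.inv_left hI).fpf z (hAL hz) hc
  have hAM : ∀ z ∈ A, a * z * a⁻¹ * z⁻¹ ∈ M := by
    intro z hz
    refine closure_induction (p := fun z _ => z ∈ A ∧ a * z * a⁻¹ * z⁻¹ ∈ M) ?_ ?_ ?_ ?_ hz |>.2
    · rintro _ ⟨i, rfl⟩
      refine ⟨Subgroup.subset_closure ⟨i, rfl⟩, ?_⟩
      have h1 := step i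
      have h2 := step (i + 1)
      have e : a * (a ^ i * t * (a ^ i)⁻¹) * a⁻¹ * (a ^ i * t * (a ^ i)⁻¹)⁻¹ =
          (a ^ (i + 1) * t * (a ^ (i + 1))⁻¹ * t⁻¹) * (a ^ i * t * (a ^ i)⁻¹ * t⁻¹)⁻¹ := by
        rw [pow_succ']; group
      simp only
      rw [e]
      exact M.mul_mem h2 (M.inv_mem h1)
    · refine ⟨A.one_mem, ?_⟩
      simp
    · rintro x y _ _ ⟨hx1, hx2⟩ ⟨hy1, hy2⟩
      refine ⟨A.mul_mem hx1 hy1, ?_⟩
      have hc : Commute (a * y * a⁻¹ * y⁻¹) x⁻¹ :=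
        hcom _ (L.mul_mem (hAL (hAinv y hy1)).1 (L.inv_mem (hAL hy1).1)) _
          (L.inv_mem (hAL hx1).1)
      have e : a * (x * y) * a⁻¹ * (x * y)⁻¹ =
          (a * x * a⁻¹) * ((a * y * a⁻¹ * y⁻¹) * x⁻¹) := by group
      rw [e, hc.eq]
      have e' : (a * x * a⁻¹) * (x⁻¹ * (a * y * a⁻¹ * y⁻¹)) =
          (a * x * a⁻¹ * x⁻¹) * (a * y * a⁻¹ * y⁻¹) := by group
      rw [e']
      exact M.mul_mem hx2 hy2
    · rintro x _ ⟨hx1, hx2⟩
      refine ⟨A.inv_mem hx1, ?_⟩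
      have hc : Commute (a * x⁻¹ * a⁻¹) x :=
        hcom _ (by
          have := (hAL (hAinv _ (A.inv_mem hx1))).1
          exact this) _ (hAL hx1).1
      have e : a * x⁻¹ * a⁻¹ * x⁻¹⁻¹ = x * (a * x⁻¹ * a⁻¹) := by rw [inv_inv, hc.eq]
      rw [e]
      have e' : x * (a * x⁻¹ * a⁻¹) = (a * x * a⁻¹ * x⁻¹)⁻¹ := by group
      rw [e']
      exact M.inv_mem hx2
  have htA : t ∈ A := Subgroup.subset_closure ⟨0, by simp⟩
  obtain ⟨m, hm, hm1⟩ := hAf.conj htA
  have htM : t ∈ M := by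
    have h1 := hAM m⁻¹ (A.inv_mem hm)
    have e : a * m⁻¹ * a⁻¹ * m⁻¹⁻¹ = t := by
      have e2 : a * m⁻¹ * a⁻¹ * m⁻¹⁻¹ = a * (m⁻¹ * a⁻¹ * m) := by group
      rw [e2, hm1]; group
    rwa [e] at h1
  have hlM : l ∈ M := by
    have h1 := step j
    have e : a ^ j * t * (a ^ j)⁻¹ * t⁻¹ = l * t⁻¹ := by rw [ht]; group
    rw [e] at h1
    have := M.mul_mem h1 htM
    simpa using this
  exact (memM l).1 hlM

/-- elements of commutative kernels commute with their conjugates -/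
theorem engelA (hp : p.Prime) (hap : a ^ p = 1) {F : Subgroup G} (hN : F.Normal)
    (hinf : (F : Set G).Infinite) (hk0 : ∀ᶠ k in cofinite, k ∈ F → K0 a k) {l : G}
    (hl : l ∈ F) (hlK : K0 a l) {h : G} (hh : h ∈ F) : Commute l (h⁻¹ * l * h) := by
  have hpow : ∀ᶠ k in cofinite, k ∈ F → (a * k) ^ p = 1 := by
    filter_upwards [hk0] with k h1 hk
    obtain ⟨M, hM, _, hf⟩ := h1 hk
    exact Fpf.pw hM hap hf
  have hA := evA hN hk0 hl hlK
  rw [eventually_cofinite] at hA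
  -- powers
  have hFj : ∀ (k : G), k ∈ F → ∀ j : ℕ, (a ^ j)⁻¹ * (a * k) ^ j ∈ F := by
    intro k hk j
    have hk' : (k : G ⧸ F) = 1 := (QuotientGroup.eq_one_iff k).2 hk
    rw [← QuotientGroup.eq_one_iff (N := F)]
    simp [hk']
  have hj : ∀ j ∈ {j : ℕ | 1 ≤ j ∧ j < p}, ∀ᶠ k in cofinite, k ∈ F → (a * k) ^ p = 1 →
      Commute l (((a ^ j)⁻¹ * (a * k) ^ j * h⁻¹)⁻¹ * ((a ^ j)⁻¹ * l * a ^ j) *
        ((a ^ j)⁻¹ * (a * k) ^ j * h⁻¹)) := by
    rintro j ⟨hj1, hj2⟩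
    have hcop : Nat.Coprime j p := by
      rw [Nat.coprime_comm]
      exact (Nat.Prime.coprime_iff_not_dvd hp).2 (fun hd =>
        absurd (Nat.le_of_dvd hj1 hd) (by omega))
    obtain ⟨m, hm⟩ := Nat.exists_mul_mod_eq_one_of_coprime hcop hp.one_lt
    have hroot : ∀ s : G, s ^ p = 1 → (s ^ j) ^ m = s := by
      intro s hs
      rw [← pow_mul]
      have e : j * m = p * (j * m / p) + 1 := by
        have := Nat.div_add_mod (j * m) p
        omega
      rw [e, pow_succ, pow_mul, hs, one_pow, one_mul]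
    rw [eventually_cofinite]
    refine Set.Finite.of_finite_image (f := fun k => (a ^ j)⁻¹ * (a * k) ^ j * h⁻¹)
      (hA.subset ?_) ?_
    · rintro _ ⟨k, hk, rfl⟩
      simp only [Set.mem_ofPred_eq, Classical.not_imp] at hk ⊢
      refine ⟨(F).mul_mem (hFj k hk.1 j) ((F).inv_mem hh), ?_⟩
      intro hcon
      exact hk.2.2 (hcon j)
    · intro k hk k' hk' hkk
      simp only [Set.mem_ofPred_eq, Classical.not_imp] at hk hk'
      simp only at hkk
      have h1 : (a * k) ^ j = (a * k') ^ j := by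
        have := mul_right_cancel hkk
        exact mul_left_cancel this
      have h2 : a * k = a * k' := by
        rw [← hroot _ hk.2.1, ← hroot _ hk'.2.1, h1]
      exact mul_left_cancel h2
  have hfinj : {j : ℕ | 1 ≤ j ∧ j < p}.Finite :=
    (Set.finite_lt_nat p).subset (fun j hj => hj.2)
  have hj' := (Filter.eventually_all_finite hfinj).2 hj
  have hall : ∀ᶠ k in cofinite, k ∈ F → ((a * k) ^ p = 1 ∧ (a * (k * l)) ^ p = 1 ∧
      ∀ j ∈ {j : ℕ | 1 ≤ j ∧ j < p},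
      Commute l (((a ^ j)⁻¹ * (a * k) ^ j * h⁻¹)⁻¹ * ((a ^ j)⁻¹ * l * a ^ j) *
        ((a ^ j)⁻¹ * (a * k) ^ j * h⁻¹))) := by
    filter_upwards [hpow, (tendsto_mul_right l).eventually hpow, hj'] with k h1 h2 h3 hk
    exact ⟨h1 hk, h2 ((F).mul_mem hk hl), fun j hjm => h3 j hjm hk (h1 hk)⟩
  obtain ⟨k, hk, b1, b2, b3⟩ := exists_F hinf hall
  set s := a * k with hs
  rw [← mul_assoc, ← hs] at b2
  have cj1 : ∀ j : ℕ, 1 ≤ j → j < p → Commute (h⁻¹ * l * h) ((s ^ j)⁻¹ * l * s ^ j) := by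
    intro j hj1 hj2
    have h1 := b3 j ⟨hj1, hj2⟩
    have e1 : ((a ^ j)⁻¹ * s ^ j * h⁻¹)⁻¹ * ((a ^ j)⁻¹ * l * a ^ j) *
        ((a ^ j)⁻¹ * s ^ j * h⁻¹) = h * ((s ^ j)⁻¹ * l * s ^ j) * h⁻¹ := by group
    rw [e1] at h1
    change h⁻¹ * l * h * ((s ^ j)⁻¹ * l * s ^ j) = (s ^ j)⁻¹ * l * s ^ j * (h⁻¹ * l * h)
    have e2 : h⁻¹ * l * h * ((s ^ j)⁻¹ * l * s ^ j) =
        h⁻¹ * (l * (h * ((s ^ j)⁻¹ * l * s ^ j) * h⁻¹)) * h := by group
    have e3 : (s ^ j)⁻¹ * l * s ^ j * (h⁻¹ * l * h) =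
        h⁻¹ * ((h * ((s ^ j)⁻¹ * l * s ^ j) * h⁻¹) * l) * h := by group
    rw [e2, e3, h1.eq]
  -- product formula
  let T : ℕ → G := fun n => Nat.rec 1 (fun n x => (s ^ (n + 1))⁻¹ * l * s ^ (n + 1) * x) n
  have T0 : T 0 = 1 := rfl
  have TS : ∀ n, T (n + 1) = (s ^ (n + 1))⁻¹ * l * s ^ (n + 1) * T n := fun n => rfl
  have prodf : ∀ n : ℕ, (s * l) ^ (n + 1) = s ^ (n + 1) * (T n * l) := by
    intro n
    induction n with
    | zero => simp [T0]
    | succ n ih =>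
      rw [pow_succ' (s * l), ih, TS]
      rw [pow_succ' s (n + 1)]
      group
  have comT : ∀ n : ℕ, n < p → Commute (h⁻¹ * l * h) (T n) := by
    intro n
    induction n with
    | zero => intro _; rw [T0]; exact Commute.one_right _
    | succ n ih =>
      intro hn
      rw [TS]
      exact (cj1 (n + 1) (by omega) hn).mul_right (ih (by omega))
  obtain ⟨q, hq⟩ : ∃ q, p = q + 1 := ⟨p - 1, by have := hp.pos; omega⟩
  have h1 := prodf q
  rw [← hq, b2, b1, one_mul] at h1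
  have h2 : l = (T q)⁻¹ := eq_inv_of_mul_eq_one_right h1.symm
  have h3 := (comT q (by omega)).inv_right
  rw [← h2] at h3
  exact h3.symm

theorem LFs_F (hp : p.Prime) (hap : a ^ p = 1) {F : Subgroup G} (hN : F.Normal)
    (hinf : (F : Set G).Infinite) (hk0 : ∀ᶠ k in cofinite, k ∈ F → K0 a k) : LFs F := by
  have prod : ∀ g ∈ F, ∃ k ∈ F, ∃ l ∈ F, K0 a k ∧ K0 a l ∧ g = k * l := by
    intro g hg
    have t2 : Tendsto (fun k : G => k⁻¹ * g) cofinite cofinite := by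
      apply Function.Injective.tendsto_cofinite
      intro x y hxy
      simpa using hxy
    have hall : ∀ᶠ k in cofinite, k ∈ F → (K0 a k ∧ K0 a (k⁻¹ * g)) := by
      filter_upwards [hk0, t2.eventually hk0] with k b1 b2 hk
      exact ⟨b1 hk, b2 ((F).mul_mem ((F).inv_mem hk) hg)⟩
    obtain ⟨k, hk, h1, h2⟩ := exists_F hinf hall
    exact ⟨k, hk, k⁻¹ * g, (F).mul_mem ((F).inv_mem hk) hg, h1, h2, by simp⟩
  have ford : ∀ f, K0 a f → IsOfFinOrder f := by
    rintro z ⟨M, hM, _, hz⟩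
    have : Finite M := hM.fin.to_subtype
    have h2 := isOfFinOrder_of_finite (⟨z, hz⟩ : M)
    exact M.subtype.isOfFinOrder h2
  intro s hs hsF
  have h1 : ∃ T : Set G, T.Finite ∧ T ⊆ (F : Set G) ∧ (∀ x ∈ T, K0 a x) ∧
      s ⊆ ((closure T : Subgroup G) : Set G) := by
    induction s, hs using Set.Finite.induction_on with
    | empty => exact ⟨∅, Set.finite_empty, Set.empty_subset _, by simp, Set.empty_subset _⟩
    | @insert g s _ _ ih =>
      obtain ⟨T, h1, h2, h3, h4⟩ := ih ((Set.subset_insert _ _).trans hsF)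
      obtain ⟨k, hk, l, hl, hkt, hlt, hg⟩ := prod g (hsF (Set.mem_insert g s))
      refine ⟨insert k (insert l T), (h1.insert l).insert k, ?_, ?_, ?_⟩
      · exact Set.insert_subset hk (Set.insert_subset hl h2)
      · intro x hx
        rcases hx with rfl | rfl | hx
        · exact hkt
        · exact hlt
        · exact h3 x hx
      · refine Set.insert_subset ?_ ?_
        · rw [hg]
          exact Subgroup.mul_mem _ (Subgroup.subset_closure (by simp)) (Subgroup.subset_closure (by simp))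
        · refine h4.trans ?_
          exact Subgroup.closure_mono ((Set.subset_insert l T).trans (Set.subset_insert k _))
  obtain ⟨T, h1, h2, h3, h4⟩ := h1
  have hTF : closure T ≤ F := (closure_le _).2 h2
  have hfin : Finite (closure T) := by
    have h5 : ((Subtype.val : closure T → G) ⁻¹' T).Finite :=
      h1.preimage Subtype.val_injective.injOn
    obtain ⟨n, f, _, hf⟩ := h5.fin_param
    have h6 : ∀ i, ((f i : closure T) : G) ∈ T := by
      intro i
      have : f i ∈ (Subtype.val : closure T → G) ⁻¹' T := by rw [← hf]; exact ⟨i, rfl⟩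
      exact this
    refine engel_finite n (closure T) f ?_ ?_ ?_
    · rw [hf]
      exact Subgroup.closure_closure_coe_preimage
    · intro i
      obtain ⟨m, hm, h⟩ := isOfFinOrder_iff_pow_eq_one.1 (ford _ (h3 _ (h6 i)))
      exact isOfFinOrder_iff_pow_eq_one.2 ⟨m, hm, Subtype.ext (by simpa using h)⟩
    · intro i h
      have h7 := engelA hp hap hN hinf hk0 (h2 (h6 i)) (h3 _ (h6 i)) (hTF h.2)
      exact Subtype.ext (by simpa using h7.eq)
  have h8 : closure s ≤ closure T := (closure_le _).2 h4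
  exact (Set.toFinite ((closure T : Subgroup G) : Set G)).subset h8

end Pool.Agent.MP_904310f.Ab
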