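import Mathlib

/-!
# Elements of order three: kernels, the sign of a pair, the subgroup of almost stabilisers
-/

set_option autoImplicit false

namespace Pool.Agent.MP_904310f

open Subgroup Filter

/-- `L` is a finite subgroup, normalised by `u`, in which `u` fixes only `1` -/
structure Fpf {G : Type*} [Group G] (u : G) (L : Subgroup G) : Prop where
  fin : (L : Set G).Finite
  inv : ∀ l ∈ L, u⁻¹ * l * u ∈ L
  fpf : ∀ l ∈ L, Commute u l → l = 1

/-- `L` is moreover commutative -/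
structure Krn {G : Type*} [Group G] (u : G) (L : Subgroup G) : Prop extends Fpf u L where
  com : ∀ x ∈ L, ∀ y ∈ L, Commute x y

section fpf

variable {G : Type*} [Group G] {u : G} {L : Subgroup G}

theorem inv_inv_eq {s : G} (h : s ^ 3 = 1) : s⁻¹ * s⁻¹ = s := by
  have h1 : s * s * s = 1 := by rw [← h]; simp [pow_succ, mul_assoc]
  have h2 : s⁻¹ * s⁻¹ * (s * s * s) = s := by group
  rw [h1, mul_one] at h2
  exact h2

theorem mul_self_eq {s : G} (h : s ^ 3 = 1) : s * s = s⁻¹ := by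
  have h1 : s * s * s = 1 := by rw [← h]; simp [pow_succ, mul_assoc]
  exact eq_inv_of_mul_eq_one_left h1

theorem Fpf.inv' (h : Fpf u L) : ∀ l ∈ L, u * l * u⁻¹ ∈ L := by
  have : Finite L := h.fin.to_subtype
  let f : L → L := fun l => ⟨u⁻¹ * l * u, h.inv l l.2⟩
  have hf : Function.Injective f := by
    intro x y hxy
    have := congrArg Subtype.val hxy
    simp only [f] at this
    ext
    simpa using this
  intro l hl
  obtain ⟨m, hm⟩ := (Finite.injective_iff_surjective.1 hf) ⟨l, hl⟩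
  have := congrArg Subtype.val hm
  simp only [f] at this
  have h2 : u * l * u⁻¹ = m := by rw [← this]; group
  rw [h2]; exact m.2

/-- every element of `u L` is conjugate to `u` by an element of `L` -/
theorem Fpf.conj (h : Fpf u L) {l : G} (hl : l ∈ L) : ∃ m ∈ L, m⁻¹ * u * m = u * l := by
  have : Finite L := h.fin.to_subtype
  let f : L → L := fun m => ⟨u⁻¹ * (m : G)⁻¹ * u * m,
    L.mul_mem (h.inv _ (L.inv_mem m.2)) m.2⟩
  have hf : Function.Injective f := by
    intro x y hxy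
    have h1 := congrArg Subtype.val hxy
    simp only [f] at h1
    have h2 : (x : G)⁻¹ * u * x = (y : G)⁻¹ * u * y := by
      have h3 := congrArg (fun t => u * t) h1
      simpa [mul_assoc] using h3
    have h4 : Commute u ((x : G) * (y : G)⁻¹) := by
      have h5 := congrArg (fun t => (x : G) * t * (y : G)⁻¹) h2
      simp only [mul_assoc, mul_inv_cancel, mul_one, mul_inv_cancel_left] at h5
      change u * (x * (y : G)⁻¹) = x * (y : G)⁻¹ * u
      rw [h5]
      group
    have h6 := h.fpf _ (L.mul_mem x.2 (L.inv_mem y.2)) h4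
    ext
    exact mul_inv_eq_one.1 h6
  obtain ⟨m, hm⟩ := (Finite.injective_iff_surjective.1 hf) ⟨l, hl⟩
  have h1 := congrArg Subtype.val hm
  simp only [f] at h1
  refine ⟨m, m.2, ?_⟩
  rw [← h1]; group

theorem Fpf.cube (h : Fpf u L) (hu : u ^ 3 = 1) {l : G} (hl : l ∈ L) : (u * l) ^ 3 = 1 := by
  obtain ⟨m, _, hm⟩ := h.conj hl
  rw [← hm]
  have : (m⁻¹ * u * m) ^ 3 = m⁻¹ * u ^ 3 * m := by
    simp [pow_succ, mul_assoc]
  rw [this, hu]; simp

/-- the basic computation of B. H. Neumann -/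
theorem comm3 {s l : G} (hs : s ^ 3 = 1) (h1 : (s * l) ^ 3 = 1) (h2 : (s * (l * l)) ^ 3 = 1) :
    Commute l (s⁻¹ * l * s) ∧ Commute l (s * l * s⁻¹) ∧
      (s * l * s⁻¹) * (s⁻¹ * l * s) * l = 1 := by
  have hss := inv_inv_eq hs
  have key : ∀ x : G, (s * x) ^ 3 = 1 → (s * x * s⁻¹) * (s⁻¹ * x * s) * x = 1 := by
    intro x hx
    have : (s * x * s⁻¹) * (s⁻¹ * x * s) * x = s * x * (s⁻¹ * s⁻¹) * x * s * x := by group
    rw [this, hss, ← hx]
    simp [pow_succ, mul_assoc]
  have k1 := key l h1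
  have k2 := key (l * l) h2
  set q := s⁻¹ * l * s with hq
  set p := s * l * s⁻¹ with hp
  have e1 : s * (l * l) * s⁻¹ = p * p := by rw [hp]; group
  have e2 : s⁻¹ * (l * l) * s = q * q := by rw [hq]; group
  rw [e1, e2] at k2
  have hpe : p = (q * l)⁻¹ := by
    rw [mul_assoc] at k1
    exact eq_inv_of_mul_eq_one_left k1
  have hql : q * l = l * q := by
    rw [hpe] at k2
    have h3 : q * q * (l * l) = (q * l) * (q * l) := by
      have h4 : (q * l)⁻¹ * (q * l)⁻¹ * (q * q * (l * l)) = 1 := by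
        rw [← k2]; group
      have h5 := congrArg (fun t => (q * l) * (q * l) * t) h4
      simp only [mul_one] at h5
      rw [← h5]; group
    have h6 := congrArg (fun t => q⁻¹ * t * l⁻¹) h3
    have h7 : q⁻¹ * (q * q * (l * l)) * l⁻¹ = q * l := by group
    have h8 : q⁻¹ * ((q * l) * (q * l)) * l⁻¹ = l * q := by group
    rw [h7, h8] at h6
    exact h6
  have c1 : Commute l q := hql.symm
  refine ⟨c1, ?_, k1⟩
  rw [hpe]
  exact (c1.mul_right (Commute.refl l)).inv_right

theorem Fpf.comm3 (h : Fpf u L) (hu : u ^ 3 = 1) {l : G} (hl : l ∈ L) :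
    Commute l (u⁻¹ * l * u) ∧ Commute l (u * l * u⁻¹) ∧
      (u * l * u⁻¹) * (u⁻¹ * l * u) * l = 1 :=
  Pool.Agent.MP_904310f.comm3 hu (h.cube hu hl) (h.cube hu (L.mul_mem hl hl))

/-- a kernel has no elements of order three -/
theorem Fpf.no3 (h : Fpf u L) (hu : u ^ 3 = 1) {l : G} (hl : l ∈ L) (h3 : l ^ 3 = 1) : l = 1 := by
  obtain ⟨c1, c2, c3⟩ := h.comm3 hu hl
  set q := u⁻¹ * l * u with hq
  have hss := inv_inv_eq hu
  have hq3 : q ^ 3 = 1 := by
    have : q ^ 3 = u⁻¹ * l ^ 3 * u := by rw [hq]; simp [pow_succ, mul_assoc]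
    rw [this, h3]; simp
  have hp : u⁻¹ * q * u = u * l * u⁻¹ := by
    have h1 : u⁻¹ * q * u = (u⁻¹ * u⁻¹) * l * (u⁻¹ * u⁻¹)⁻¹ := by
      rw [hq]; simp only [mul_inv_rev, inv_inv, mul_assoc]
    rw [h1, hss]
  have hpe : u * l * u⁻¹ = (q * l)⁻¹ := by
    rw [mul_assoc] at c3
    exact eq_inv_of_mul_eq_one_left c3
  have hv : u⁻¹ * (q * l⁻¹) * u = q * l⁻¹ := by
    have h1 : u⁻¹ * (q * l⁻¹) * u = (u⁻¹ * q * u) * (u⁻¹ * l * u)⁻¹ := by group
    rw [h1, hp, hpe, ← hq]
    have h2 : (q * l)⁻¹ * q⁻¹ = q * l⁻¹ * (q ^ 3)⁻¹ := by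
      have h3 : (q * l)⁻¹ = q⁻¹ * l⁻¹ := by rw [c1.symm.eq, mul_inv_rev]
      have h4 : l⁻¹ * q⁻¹ = q⁻¹ * l⁻¹ := (c1.inv_inv).eq
      have h5 : q * l⁻¹ * (q ^ 3)⁻¹ = q * (l⁻¹ * (q ^ 3)⁻¹) := by group
      have h6 : l⁻¹ * (q ^ 3)⁻¹ = (q ^ 3)⁻¹ * l⁻¹ := ((c1.pow_right 3).inv_inv).eq
      rw [h3, mul_assoc, h4, h5, h6]
      group
    rw [h2, hq3]; simp
  have hc : Commute u (q * l⁻¹) := by
    have h1 := congrArg (fun t => u * t) hv
    change u * (q * l⁻¹) = q * l⁻¹ * u
    have h2 : u * (u⁻¹ * (q * l⁻¹) * u) = q * l⁻¹ * u := by group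
    rw [← h2, h1]
  have h5 := h.fpf _ (L.mul_mem (h.inv l hl) (L.inv_mem hl)) hc
  have h6 : q = l := mul_inv_eq_one.1 h5
  have hc2 : Commute u l := by
    change u * l = l * u
    have h7 : u * q = l * u := by rw [hq]; group
    rw [← h7, h6]
  exact h.fpf l hl hc2

/-- every element of a kernel lies in a commutative kernel -/
theorem Fpf.toKrn (h : Fpf u L) (hu : u ^ 3 = 1) {l : G} (hl : l ∈ L) :
    ∃ A : Subgroup G, Krn u A ∧ l ∈ A := by
  obtain ⟨c1, c2, c3⟩ := h.comm3 hu hl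
  have hss := inv_inv_eq hu
  set q := u⁻¹ * l * u with hq
  have hqL : q ∈ L := h.inv l hl
  have hp : u⁻¹ * q * u = u * l * u⁻¹ := by
    have h1 : u⁻¹ * q * u = (u⁻¹ * u⁻¹) * l * (u⁻¹ * u⁻¹)⁻¹ := by
      rw [hq]; simp only [mul_inv_rev, inv_inv, mul_assoc]
    rw [h1, hss]
  have hpe : u * l * u⁻¹ = (q * l)⁻¹ := by
    rw [mul_assoc] at c3
    exact eq_inv_of_mul_eq_one_left c3
  set A := closure ({l, q} : Set G) with hA
  have hlA : l ∈ A := subset_closure (by simp)
  have hqA : q ∈ A := subset_closure (by simp)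
  have hAL : A ≤ L := by
    rw [hA, closure_le]
    intro x hx
    rcases hx with rfl | hx
    · exact hl
    · rw [Set.mem_singleton_iff.1 hx]; exact hqL
  refine ⟨A, ⟨⟨h.fin.subset hAL, ?_, fun x hx => h.fpf x (hAL hx)⟩, ?_⟩, hlA⟩
  · intro x hx
    refine closure_induction (p := fun x _ => u⁻¹ * x * u ∈ A) ?_ ?_ ?_ ?_ hx
    · intro x hx
      rcases hx with rfl | hx
      · exact hqA
      · rw [Set.mem_singleton_iff.1 hx, hp, hpe]
        exact A.inv_mem (A.mul_mem hqA hlA)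
    · simp
    · intro x y _ _ hx hy
      have : u⁻¹ * (x * y) * u = (u⁻¹ * x * u) * (u⁻¹ * y * u) := by group
      rw [this]; exact A.mul_mem hx hy
    · intro x _ hx
      have : u⁻¹ * x⁻¹ * u = (u⁻¹ * x * u)⁻¹ := by group
      rw [this]; exact A.inv_mem hx
  · intro x hx y hy
    refine closure_induction (p := fun x _ => Commute x y) ?_ ?_ ?_ ?_ hx
    · intro x hx
      refine closure_induction (p := fun y _ => Commute x y) ?_ ?_ ?_ ?_ hy
      · intro y hy
        rcases hx with rfl | hx <;> rcases hy with rfl | hy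
        · exact Commute.refl _
        · rw [Set.mem_singleton_iff.1 hy]; exact c1
        · rw [Set.mem_singleton_iff.1 hx]; exact c1.symm
        · rw [Set.mem_singleton_iff.1 hx, Set.mem_singleton_iff.1 hy]
      · exact Commute.one_right _
      · intro a b _ _ ha hb; exact ha.mul_right hb
      · intro a _ ha; exact ha.inv_right
    · exact Commute.one_left _
    · intro a b _ _ ha hb; exact ha.mul_left hb
    · intro a _ ha; exact ha.inv_left

/-- the norm relation in a kernel -/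
theorem Fpf.norm (h : Fpf u L) (hu : u ^ 3 = 1) {l : G} (hl : l ∈ L) :
    (u * l * u⁻¹) * (u⁻¹ * l * u) * l = 1 := (h.comm3 hu hl).2.2

end fpf

end Pool.Agent.MP_904310f
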