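import Mathlib

/-!
# A colouring of a finite module closed under lines is constant
-/

set_option autoImplicit false

namespace Pool.Agent.MP_904310f.Lab

variable {R A J : Type*} [CommRing R] [AddCommGroup A] [Module R A]

theorem line_point (x x' z c d : R) (hc : c * (x' - x) = 1) (hd : d * (1 - z) = 1) (P P' : A) :
    ∃ Z : A, (1 - x) • P = (1 - z) • ((d * c * (1 - x) * (x' - z)) • P +
        (1 - d * c * (1 - x) * (x' - z)) • P') + (z - x) • Z ∧
      (1 - x') • P' = (1 - z) • ((d * c * (1 - x) * (x' - z)) • P +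
        (1 - d * c * (1 - x) * (x' - z)) • P') + (z - x') • Z := by
  set g := d * c * (1 - x) * (x' - z) with hg
  have h1 : (1 - z) * g = c * (1 - x) * (x' - z) := by
    rw [hg]; linear_combination (c * (1 - x) * (x' - z)) * hd
  refine ⟨(c * (1 - x)) • P - (c * (1 - x')) • P', ?_, ?_⟩
  · have e1 : (1 - z) * g + (z - x) * (c * (1 - x)) = 1 - x := by
      rw [h1]; linear_combination (1 - x) * hc
    have e2 : (1 - z) * (1 - g) - (z - x) * (c * (1 - x')) = 0 := by
      have : (1 - z) * (1 - g) = (1 - z) - (1 - z) * g := by ring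
      rw [this, h1]
      linear_combination (-(1 - z)) * hc
    symm
    calc (1 - z) • (g • P + (1 - g) • P') + (z - x) • ((c * (1 - x)) • P - (c * (1 - x')) • P')
        = ((1 - z) * g + (z - x) * (c * (1 - x))) • P +
          ((1 - z) * (1 - g) - (z - x) * (c * (1 - x'))) • P' := by module
      _ = (1 - x) • P := by rw [e1, e2]; simp
  · have e1 : (1 - z) * g + (z - x') * (c * (1 - x)) = 0 := by
      rw [h1]; ring
    have e2 : (1 - z) * (1 - g) - (z - x') * (c * (1 - x')) = 1 - x' := by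
      have : (1 - z) * (1 - g) = (1 - z) - (1 - z) * g := by ring
      rw [this, h1]
      linear_combination (-(1 - z) + (1 - x')) * hc
    symm
    calc (1 - z) • (g • P + (1 - g) • P') + (z - x') • ((c * (1 - x)) • P - (c * (1 - x')) • P')
        = ((1 - z) * g + (z - x') * (c * (1 - x))) • P +
          ((1 - z) * (1 - g) - (z - x') * (c * (1 - x'))) • P' := by module
      _ = (1 - x') • P' := by rw [e1, e2]; simp

/-- the standing hypotheses on a colouring -/
structure Sys (e : J → R) (s : A → J) : Prop where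
  sub : ∀ i i', i ≠ i' → IsUnit (e i - e i')
  one_sub : ∀ i, IsUnit (1 - e i)
  add : ∀ i i', i ≠ i' → IsUnit (e i + e i')
  one_add : ∀ i, IsUnit (1 + e i)
  L1 : ∀ (P P' Q Z : A) (j : J), s P ≠ s P' → j ≠ s P → j ≠ s P' →
    (1 - e (s P)) • P = (1 - e j) • Q + (e j - e (s P)) • Z →
    (1 - e (s P')) • P' = (1 - e j) • Q + (e j - e (s P')) • Z → s Q = j
  L2 : ∀ (P P' Q Z : A) (j : J), s P ≠ s P' → j ≠ s P → j ≠ s P' →
    (1 - e (s P) ^ 2) • P = (1 - e j ^ 2) • Q + (e j ^ 2 - e (s P) ^ 2) • Z →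
    (1 - e (s P') ^ 2) • P' = (1 - e j ^ 2) • Q + (e j ^ 2 - e (s P') ^ 2) • Z → s Q = j

theorem two_calc (x x' z c d c' d' : R) (hc : c * (x' - x) = 1) (hd : d * (1 - z) = 1)
    (hc' : c' * (x' + x) = 1) (hd' : d' * (1 + z) = 1) :
    ∃ r : R, (d * d') * (c * c') * (1 - x ^ 2) * (x' ^ 2 - z ^ 2) =
      (d * c * (1 - x) * (x' - z)) ^ 2 + 2 * r := by
  have e1 : d' = d - 2 * (d * d' * z) := by linear_combination (-d') * hd + d * hd'
  have e2 : c' = c - 2 * (c * c' * x) := by linear_combination (-c') * hc + c * hc'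
  generalize hD : d * d' * z = D at e1
  generalize hC : c * c' * x = C at e2
  refine ⟨d * c * (1 - x) * (x' - z) * (-(D * (c - 2 * C) * (1 + x) * (x' + z)) -
    d * C * (1 + x) * (x' + z) + d * c * x * (x' + z) + d * c * (1 - x) * z), ?_⟩
  rw [e1, e2]
  ring

theorem Sys.gam {e : J → R} {s : A → J} (h : Sys e s) {i i' j : J} (h1 : i ≠ i') (h2 : j ≠ i)
    (h3 : j ≠ i') : ∃ γ r : R, IsUnit γ ∧ IsUnit (1 - γ) ∧ ∀ P P' : A, s P = i → s P' = i' →
      s (γ • P + (1 - γ) • P') = j ∧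
      s ((γ ^ 2 + 2 * r) • P + (1 - (γ ^ 2 + 2 * r)) • P') = j := by
  obtain ⟨c, hc⟩ := (h.sub i' i h1.symm).exists_left_inv
  obtain ⟨d, hd⟩ := (h.one_sub j).exists_left_inv
  obtain ⟨c', hc'⟩ := (h.add i' i h1.symm).exists_left_inv
  obtain ⟨d', hd'⟩ := (h.one_add j).exists_left_inv
  obtain ⟨r, hr⟩ := two_calc (e i) (e i') (e j) c d c' d' hc hd hc' hd'
  set γ := d * c * (1 - e i) * (e i' - e j) with hγ
  have uc : IsUnit c := IsUnit.of_mul_eq_one _ hc
  have ud : IsUnit d := IsUnit.of_mul_eq_one _ hd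
  refine ⟨γ, r, ?_, ?_, ?_⟩
  · rw [hγ]
    exact ((ud.mul uc).mul (h.one_sub i)).mul (h.sub i' j h3.symm)
  · have : 1 - γ = d * c * (1 - e i') * (e j - e i) := by
      rw [hγ]
      linear_combination (-(c * (e i' - e i))) * hd - hc
    rw [this]
    exact ((ud.mul uc).mul (h.one_sub i')).mul (h.sub j i h2)
  · intro P P' hP hP'
    constructor
    · obtain ⟨Z, a1, a2⟩ := line_point (e i) (e i') (e j) c d hc hd P P'
      subst hP
      subst hP'
      exact h.L1 P P' _ Z j h1 h2 h3 a1 a2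
    · have hc2 : (c * c') * (e i' ^ 2 - e i ^ 2) = 1 := by
        linear_combination (c' * (e i' + e i)) * hc + hc'
      have hd2 : (d * d') * (1 - e j ^ 2) = 1 := by
        linear_combination (d' * (1 + e j)) * hd + hd'
      obtain ⟨Z, a1, a2⟩ := line_point (e i ^ 2) (e i' ^ 2) (e j ^ 2) (c * c') (d * d')
        hc2 hd2 P P'
      rw [hr] at a1 a2
      subst hP
      subst hP'
      exact h.L2 P P' _ Z j h1 h2 h3 a1 a2

/-- the stabiliser of a colour class -/
def St (s : A → J) (j : J) : AddSubgroup A where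
  carrier := {h | ∀ P, s (P + h) = j ↔ s P = j}
  zero_mem' := by intro P; rw [add_zero]
  add_mem' := by
    intro a b ha hb P
    rw [← add_assoc, hb, ha]
  neg_mem' := by
    intro a ha P
    rw [← ha (P + -a)]
    simp

theorem mem_St {s : A → J} {j : J} {h : A} : h ∈ St s j ↔ ∀ P, s (P + h) = j ↔ s P = j := Iff.rfl

/-- the stabiliser plus the doubles -/
def Wt (R : Type*) [CommRing R] [Module R A] (s : A → J) (j : J) : AddSubgroup A where
  carrier := {h | ∃ b ∈ St s j, ∃ c : A, h = b + (2 : R) • c}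
  zero_mem' := ⟨0, (St s j).zero_mem, 0, by simp⟩
  add_mem' := by
    rintro _ _ ⟨b, hb, c, rfl⟩ ⟨b', hb', c', rfl⟩
    exact ⟨b + b', (St s j).add_mem hb hb', c + c', by module⟩
  neg_mem' := by
    rintro _ ⟨b, hb, c, rfl⟩
    exact ⟨-b, (St s j).neg_mem hb, -c, by module⟩

theorem St_le_Wt {s : A → J} {j : J} {h : A} (hh : h ∈ St s j) : h ∈ Wt R s j :=
  ⟨h, hh, 0, by simp⟩

theorem smul_inj {γ : R} (h : IsUnit γ) : Function.Injective (fun P : A => γ • P) := by
  obtain ⟨c, hc⟩ := h.exists_left_inv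
  intro P Q hPQ
  have : c • (γ • P) = c • (γ • Q) := congrArg (fun t => c • t) hPQ
  rwa [smul_smul, smul_smul, hc, one_smul, one_smul] at this

end Pool.Agent.MP_904310f.Lab
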