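import Pool.Agent.Lib_MP_904310_fr.Const

/-!
# A colouring of a finite module closed under lines is constant: conclusion
-/

set_option autoImplicit false

namespace Pool.Agent.MP_904310f.Lab

variable {R A J : Type*} [CommRing R] [AddCommGroup A] [Module R A]

section

variable [Finite A] [Fintype J] {e : J → R} {s : A → J}

theorem exists_third (hJ : 3 ≤ Fintype.card J) (i j : J) : ∃ k : J, k ≠ i ∧ k ≠ j := by
  classical
  by_contra hcon
  push Not at hcon
  have h1 : (Finset.univ : Finset J) ⊆ {i, j} := by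
    intro k _
    by_cases hk : k = i
    · simp [hk]
    · simp [hcon k hk]
  have h2 := Finset.card_le_card h1
  rw [Finset.card_univ] at h2
  have h3 : ({i, j} : Finset J).card ≤ 2 := Finset.card_le_two
  omega

/-- a colour class as a type -/
abbrev Cl (s : A → J) (j : J) : Type _ := {P : A // s P = j}

theorem Sys.nonempty (h : Sys e s) {P0 P1 : A} (hne : s P0 ≠ s P1) (j : J) : ∃ P, s P = j := by
  by_cases h1 : j = s P0
  · exact ⟨P0, h1.symm⟩
  · by_cases h2 : j = s P1
    · exact ⟨P1, h2.symm⟩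
    · obtain ⟨γ, r, _, _, h3⟩ := h.gam hne h1 h2
      exact ⟨_, (h3 P0 P1 rfl rfl).1⟩

theorem Sys.card_le (h : Sys e s) (hJ : 3 ≤ Fintype.card J) {P0 P1 : A} (hne : s P0 ≠ s P1)
    (i j : J) : Nat.card (Cl s i) ≤ Nat.card (Cl s j) := by
  by_cases hij : j = i
  · rw [hij]
  · obtain ⟨i', h1, h2⟩ := exists_third hJ i j
    obtain ⟨P', hP'⟩ := h.nonempty hne i'
    obtain ⟨γ, r, hγ, _, h3⟩ := h.gam h1.symm hij h2.symm
    refine Nat.card_le_card_of_injective
      (fun P : Cl s i => (⟨γ • P.1 + (1 - γ) • P', (h3 P.1 P' P.2 hP').1⟩ : Cl s j)) ?_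
    intro P Q hPQ
    have h4 := congrArg Subtype.val hPQ
    simp only at h4
    have h5 : γ • P.1 = γ • Q.1 := add_right_cancel h4
    exact Subtype.ext (smul_inj hγ h5)

theorem Sys.card_eq (h : Sys e s) (hJ : 3 ≤ Fintype.card J) {P0 P1 : A} (hne : s P0 ≠ s P1)
    (i j : J) : Nat.card (Cl s i) = Nat.card (Cl s j) :=
  le_antisymm (h.card_le hJ hne i j) (h.card_le hJ hne j i)

/-- every point of the third class is obtained -/
theorem Sys.surj (h : Sys e s) (hJ : 3 ≤ Fintype.card J) {P0 P1 : A} (hne : s P0 ≠ s P1)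
    {i i' j : J} {γ : R} (hγ : IsUnit (1 - γ))
    (h3 : ∀ P P' : A, s P = i → s P' = i' → s (γ • P + (1 - γ) • P') = j) {P Q : A}
    (hP : s P = i) (hQ : s Q = j) : ∃ P', s P' = i' ∧ Q = γ • P + (1 - γ) • P' := by
  let f : Cl s i' → Cl s j := fun P' => ⟨γ • P + (1 - γ) • P'.1, h3 P P'.1 hP P'.2⟩
  have hf : Function.Injective f := by
    intro X Y hXY
    have h4 := congrArg Subtype.val hXY
    simp only [f] at h4
    exact Subtype.ext (smul_inj hγ (add_left_cancel h4))
  have hb : Function.Bijective f :=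
    (Nat.bijective_iff_injective_and_card f).2 ⟨hf, h.card_eq hJ hne i' j⟩
  obtain ⟨X, hX⟩ := hb.2 ⟨Q, hQ⟩
  exact ⟨X.1, X.2, (congrArg Subtype.val hX).symm⟩

theorem Sys.diff_mem0 (h : Sys e s) (hJ : 3 ≤ Fintype.card J) {P0 P1 : A} (hne : s P0 ≠ s P1)
    {i i' j : J} {γ : R} (hγ : IsUnit (1 - γ))
    (h3 : ∀ P P' : A, s P = i → s P' = i' → s (γ • P + (1 - γ) • P') = j) {P Q : A}
    (hP : s P = i) (hQ : s Q = i) : γ • (P - Q) ∈ St s j := by
  have key : ∀ X Y T : A, s X = i → s Y = i → s T = j → s (T + γ • (X - Y)) = j := by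
    intro X Y T hX hY hT
    obtain ⟨P', hP', hT'⟩ := h.surj hJ hne hγ h3 hY hT
    have : T + γ • (X - Y) = γ • X + (1 - γ) • P' := by rw [hT']; module
    rw [this]
    exact h3 X P' hX hP'
  rw [mem_St]
  intro T
  constructor
  · intro hT
    have h4 := key Q P _ hQ hP hT
    have : T + γ • (P - Q) + γ • (Q - P) = T := by module
    rwa [this] at h4
  · exact key P Q T hP hQ

/-- differences of points of one class stabilise it -/
theorem Sys.diff_mem (h : Sys e s) (hJ : 3 ≤ Fintype.card J) {P0 P1 : A} (hne : s P0 ≠ s P1)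
    {j : J} {P Q : A} (hP : s P = j) (hQ : s Q = j) : P - Q ∈ St s j := by
  obtain ⟨i, hi, _⟩ := exists_third hJ j j
  obtain ⟨i', h1, h2⟩ := exists_third hJ i j
  obtain ⟨γ, r, hγ, hγ', h3⟩ := h.gam h1.symm hi.symm h2.symm
  obtain ⟨X0, hX0⟩ := h.nonempty hne i
  have c1 : Nat.card (Cl s i) ≤ Nat.card (St s j) := by
    refine Nat.card_le_card_of_injective
      (fun X : Cl s i => (⟨γ • (X.1 - X0), h.diff_mem0 hJ hne hγ' (fun P P' a b => (h3 P P' a b).1)
        X.2 hX0⟩ : St s j)) ?_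
    intro X Y hXY
    have h4 := congrArg Subtype.val hXY
    simp only at h4
    have h5 := smul_inj hγ h4
    exact Subtype.ext (sub_left_injective h5)
  let f : St s j → Cl s j := fun b => ⟨Q + b.1, (b.2 Q).2 hQ⟩
  have hf : Function.Injective f := by
    intro X Y hXY
    have h4 := congrArg Subtype.val hXY
    simp only [f] at h4
    exact Subtype.ext (add_left_cancel h4)
  have c2 : Nat.card (St s j) = Nat.card (Cl s j) := by
    apply le_antisymm (Nat.card_le_card_of_injective f hf)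
    rw [← h.card_eq hJ hne i j]; exact c1
  have hb : Function.Bijective f := (Nat.bijective_iff_injective_and_card f).2 ⟨hf, c2⟩
  obtain ⟨b, hb1⟩ := hb.2 ⟨P, hP⟩
  have h4 := congrArg Subtype.val hb1
  simp only [f] at h4
  rw [← h4, add_sub_cancel_left]
  exact b.2

theorem Sys.card_St (h : Sys e s) (hJ : 3 ≤ Fintype.card J) {P0 P1 : A} (hne : s P0 ≠ s P1)
    (j : J) : Nat.card (St s j) = Nat.card (Cl s j) := by
  obtain ⟨Q, hQ⟩ := h.nonempty hne j
  apply le_antisymm
  · refine Nat.card_le_card_of_injective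
      (fun b : St s j => (⟨Q + b.1, (b.2 Q).2 hQ⟩ : Cl s j)) ?_
    intro X Y hXY
    have h4 := congrArg Subtype.val hXY
    simp only at h4
    exact Subtype.ext (add_left_cancel h4)
  · refine Nat.card_le_card_of_injective
      (fun b : Cl s j => (⟨b.1 - Q, h.diff_mem hJ hne b.2 hQ⟩ : St s j)) ?_
    intro X Y hXY
    have h4 := congrArg Subtype.val hXY
    simp only at h4
    exact Subtype.ext (sub_left_injective h4)

/-- multiplication by a unit between the groups `Wt` -/
theorem Sys.Wt_all (h : Sys e s) (hJ : 3 ≤ Fintype.card J) {P0 P1 : A} (hne : s P0 ≠ s P1)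
    {i i' j : J} (h1 : i ≠ i') (h2 : j ≠ i) (h3 : j ≠ i') :
    (∀ x ∈ Wt R s i, x ∈ Wt R s j) ∧ ∀ P P' : A, s P = i → s P' = i' → P - P' ∈ Wt R s j := by
  -- the coefficients
  have coef : ∀ a b c : J, a ≠ b → c ≠ a → c ≠ b → ∃ γ r : R, IsUnit γ ∧ IsUnit (1 - γ) ∧
      (∀ P P' : A, s P = a → s P' = b → s (γ • P + (1 - γ) • P') = c ∧
      s ((γ ^ 2 + 2 * r) • P + (1 - (γ ^ 2 + 2 * r)) • P') = c) ∧
      (∀ x ∈ Wt R s a, γ • x ∈ Wt R s c ∧ γ ^ 2 • x ∈ Wt R s c) ∧
      (∀ x ∈ Wt R s b, (1 - γ) • x ∈ Wt R s c ∧ (1 - γ) ^ 2 • x ∈ Wt R s c) := by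
    intro a b c hab hca hcb
    obtain ⟨γ, r, hγ, hγ', h3⟩ := h.gam hab hca hcb
    refine ⟨γ, r, hγ, hγ', h3, ?_, ?_⟩
    · rintro _ ⟨y, hy, z, rfl⟩
      obtain ⟨P, hP⟩ := h.nonempty hne a
      obtain ⟨P', hP'⟩ := h.nonempty hne b
      have hPy : s (P + y) = a := (hy P).2 hP
      have m1 := h.diff_mem hJ hne (h3 (P + y) P' hPy hP').1 (h3 P P' hP hP').1
      have m2 := h.diff_mem hJ hne (h3 (P + y) P' hPy hP').2 (h3 P P' hP hP').2
      constructor
      · refine ⟨_, m1, γ • z, ?_⟩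
        module
      · refine ⟨_, m2, γ ^ 2 • z - r • y, ?_⟩
        module
    · rintro _ ⟨y, hy, z, rfl⟩
      obtain ⟨P, hP⟩ := h.nonempty hne a
      obtain ⟨P', hP'⟩ := h.nonempty hne b
      have hPy : s (P' + y) = b := (hy P').2 hP'
      have m1 := h.diff_mem hJ hne (h3 P (P' + y) hP hPy).1 (h3 P P' hP hP').1
      have m2 := h.diff_mem hJ hne (h3 P (P' + y) hP hPy).2 (h3 P P' hP hP').2
      constructor
      · refine ⟨_, m1, (1 - γ) • z, ?_⟩
        module
      · refine ⟨_, m2, (1 - γ) ^ 2 • z - (γ - γ ^ 2 - r) • y, ?_⟩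
        module
  -- cardinalities
  have cle : ∀ a c : J, Nat.card (Wt R s a) ≤ Nat.card (Wt R s c) := by
    intro a c
    by_cases hca : c = a
    · rw [hca]
    · obtain ⟨b, hb1, hb2⟩ := exists_third hJ a c
      obtain ⟨γ, r, hγ, _, _, h4, _⟩ := coef a b c hb1.symm hca hb2.symm
      refine Nat.card_le_card_of_injective
        (fun x : Wt R s a => (⟨γ • x.1, (h4 x.1 x.2).1⟩ : Wt R s c)) ?_
      intro X Y hXY
      have h5 := congrArg Subtype.val hXY
      simp only at h5
      exact Subtype.ext (smul_inj hγ h5)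
  have ceq : ∀ a c : J, Nat.card (Wt R s a) = Nat.card (Wt R s c) := fun a c =>
    le_antisymm (cle a c) (cle c a)
  -- surjectivity and descent
  have desc : ∀ (a c : J) (γ : R), IsUnit γ → (∀ x ∈ Wt R s a, γ • x ∈ Wt R s c) →
      (∀ x ∈ Wt R s a, γ ^ 2 • x ∈ Wt R s c) → ∀ y : A, γ • y ∈ Wt R s c → y ∈ Wt R s c := by
    intro a c γ hγ h4 h5 y hy
    let f : Wt R s a → Wt R s c := fun x => ⟨γ • x.1, h4 x.1 x.2⟩
    have hf : Function.Injective f := by
      intro X Y hXY
      have h6 := congrArg Subtype.val hXY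
      simp only [f] at h6
      exact Subtype.ext (smul_inj hγ h6)
    have hb : Function.Bijective f := (Nat.bijective_iff_injective_and_card f).2 ⟨hf, ceq a c⟩
    have h7 : ∀ x ∈ Wt R s c, γ • x ∈ Wt R s c := by
      intro x hx
      obtain ⟨w, hw⟩ := hb.2 ⟨x, hx⟩
      have h8 : γ • w.1 = x := congrArg Subtype.val hw
      rw [← h8, smul_smul, ← pow_two]
      exact h5 w.1 w.2
    let g : Wt R s c → Wt R s c := fun x => ⟨γ • x.1, h7 x.1 x.2⟩
    have hg : Function.Injective g := by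
      intro X Y hXY
      have h6 := congrArg Subtype.val hXY
      simp only [g] at h6
      exact Subtype.ext (smul_inj hγ h6)
    obtain ⟨w, hw⟩ := (Finite.injective_iff_surjective.1 hg) ⟨γ • y, hy⟩
    have h8 : γ • w.1 = γ • y := congrArg Subtype.val hw
    have h9 := smul_inj hγ h8
    rw [← h9]
    exact w.2
  obtain ⟨γ, r, hγ, hγ', hc, hw1, hw2⟩ := coef i i' j h1 h2 h3
  have d1 := desc i j γ hγ (fun x hx => (hw1 x hx).1) (fun x hx => (hw1 x hx).2)
  have d2 := desc i' j (1 - γ) hγ' (fun x hx => (hw2 x hx).1) (fun x hx => (hw2 x hx).2)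
  refine ⟨fun x hx => d1 x (hw1 x hx).1, ?_⟩
  intro P P' hP hP'
  apply d2
  apply d1
  obtain ⟨c1, c2⟩ := hc P P' hP hP'
  refine ⟨_, (St s j).neg_mem (h.diff_mem hJ hne c2 c1), r • (P - P'), ?_⟩
  module

/-- the colouring is constant -/
theorem Sys.const (h : Sys e s) (hJ : 3 ≤ Fintype.card J) (hev : Even (Fintype.card J))
    (P0 P1 : A) : s P0 = s P1 := by
  classical
  by_contra hne
  have all : ∀ i j : J, ∀ x ∈ Wt R s i, x ∈ Wt R s j := by
    intro i j x hx
    by_cases hij : j = i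
    · rw [hij]; exact hx
    · obtain ⟨i', h1, h2⟩ := exists_third hJ i j
      exact (h.Wt_all hJ hne h1.symm hij h2.symm).1 x hx
  set j := s P0 with hj
  have full : ∀ x : A, x ∈ Wt R s j := by
    intro x
    by_cases hx : ∀ P, s (P + x) = s P
    · refine St_le_Wt (R := R) ?_
      rw [mem_St]
      intro P
      rw [hx P]
    · push Not at hx
      obtain ⟨P, hP⟩ := hx
      obtain ⟨k, hk1, hk2⟩ := exists_third hJ (s (P + x)) (s P)
      have h1 := (h.Wt_all hJ hne hP hk1 hk2).2 (P + x) P rfl rfl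
      rw [add_sub_cancel_left] at h1
      exact all k j x h1
  -- the quotient
  have hfin : Fintype A := Fintype.ofFinite A
  have cardA : Nat.card A = Fintype.card J * Nat.card (St s j) := by
    have e1 : A ≃ (Σ i : J, Cl s i) := (Equiv.sigmaFiberEquiv s).symm
    rw [Nat.card_congr e1, Nat.card_sigma]
    rw [Finset.sum_congr rfl (fun i _ => h.card_eq hJ hne i j)]
    rw [Finset.sum_const, Finset.card_univ, smul_eq_mul, h.card_St hJ hne j]
  have hidx : Nat.card (A ⧸ St s j) = Fintype.card J := by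
    have h1 := (St s j).card_mul_index
    have h2 : (St s j).index = Nat.card (A ⧸ St s j) := rfl
    rw [h2, cardA, mul_comm] at h1
    exact Nat.eq_of_mul_eq_mul_right Nat.card_pos h1
  have hsurj : Function.Surjective (fun b : A ⧸ St s j => b + b) := by
    intro b
    obtain ⟨x, rfl⟩ := QuotientAddGroup.mk_surjective b
    obtain ⟨y, hy, z, hz⟩ := full x
    refine ⟨(z : A ⧸ St s j), ?_⟩
    simp only
    rw [← QuotientAddGroup.mk_add]
    rw [QuotientAddGroup.eq]
    have : -(z + z) + x = y := by rw [hz]; module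
    rw [this]; exact hy
  have : Finite (A ⧸ St s j) := Quotient.finite _
  have hinj := Finite.injective_iff_surjective.2 hsurj
  have h2 : 2 ∣ Nat.card (A ⧸ St s j) := by
    rw [hidx]; exact hev.two_dvd
  obtain ⟨b, hb⟩ := exists_prime_addOrderOf_dvd_card' 2 h2
  have h3 : b + b = 0 := by
    have := addOrderOf_nsmul_eq_zero b
    rw [hb, two_nsmul] at this
    exact this
  have h4 : b = 0 := hinj (by simpa using h3)
  rw [h4, addOrderOf_zero] at hb
  omega

end

end Pool.Agent.MP_904310f.Lab
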