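import Pool.Agent.Lib_MP_904310_fr.Stab

/-!
# The subgroup generated by the kernels: fixed points, norm relations, the 2-Engel law
-/

set_option autoImplicit false

namespace Pool.Agent.MP_904310f

open Subgroup Filter

variable {G : Type*} [Group G]

section

variable {a : G}

theorem exists_gen (hX : (cls a).Infinite) {P : G → Prop}
    (h : ∀ᶠ y in cofinite, y ∈ cls a → P y) : ∃ y ∈ cls a, P y := by
  have h1 : ∃ᶠ y in cofinite, y ∈ cls a := by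
    rw [frequently_cofinite_iff_infinite]
    exact hX
  obtain ⟨y, h2, h3⟩ := (h1.and_eventually h).exists
  exact ⟨y, h2, h3 h2⟩

theorem not_mem_Fk (c : Ctx a) (hX : (cls a).Infinite) {x : G} (hx : x ∈ cls a) : x ∉ Fk a := by
  intro h
  have h1 := mem_Dst.1 (Fk_le c h)
  have h2 : ∀ᶠ y in cofinite, y ∈ cls a →
      y * x ∈ cls a ∧ y * x⁻¹ ∈ cls a ∧ Good x y := by
    filter_upwards [h1.1, h1.2, c.ev hx] with y a1 a2 a3 hy
    exact ⟨a1 hy, a2 hy, a3 hy⟩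
  obtain ⟨y, hy, b1, b2, b3⟩ := exists_gen hX h2
  rcases sgn c hx b3 with ⟨_, h', _⟩ | ⟨h', _, _⟩
  · exact h' b2
  · exact h' b1

theorem Good.mod {x y : G} (hx : x ∈ cls a) (h : Good x y) : x⁻¹ * y ∈ Fk a ∨ x * y ∈ Fk a := by
  obtain ⟨L, hL, h | h⟩ := h
  · exact Or.inl (hL.le_Fk hx h)
  · exact Or.inr (hL.le_Fk hx h)

/-- any two elements of the class agree up to sign modulo `Fk a` -/
theorem mod_eq (c : Ctx a) (hX : (cls a).Infinite) {x y : G} (hx : x ∈ cls a) (hy : y ∈ cls a) :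
    x⁻¹ * y ∈ Fk a ∨ x * y ∈ Fk a := by
  have h2 : ∀ᶠ r in cofinite, r ∈ cls a → Good x r ∧ Good y r := by
    filter_upwards [c.ev hx, c.ev hy] with r a1 a2 hr
    exact ⟨a1 hr, a2 hr⟩
  obtain ⟨r, hr, b1, b2⟩ := exists_gen hX h2
  have b1 := b1.mod hx
  have b2 := b2.mod hy
  simp only [← QuotientGroup.eq_one_iff (N := Fk a), QuotientGroup.mk_mul,
    QuotientGroup.mk_inv] at b1 b2 ⊢
  generalize (x : G ⧸ Fk a) = X at *
  generalize (y : G ⧸ Fk a) = Y at *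
  generalize (r : G ⧸ Fk a) = R at *
  have e1 : R = X ∨ R = X⁻¹ := by
    rcases b1 with h | h
    · exact Or.inl (inv_mul_eq_one.1 h).symm
    · exact Or.inr (eq_inv_of_mul_eq_one_right h)
  have e2 : Y = R ∨ Y = R⁻¹ := by
    rcases b2 with h | h
    · exact Or.inl (inv_mul_eq_one.1 h)
    · exact Or.inr (eq_inv_of_mul_eq_one_left h)
  rcases e1 with rfl | rfl <;> rcases e2 with rfl | rfl <;> simp

theorem coset_ne (c : Ctx a) (hX : (cls a).Infinite) {x y : G} (hx : x ∈ cls a)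
    (h1 : x⁻¹ * y ∈ Fk a) (h2 : x * y ∈ Fk a) : False := by
  apply not_mem_Fk c hX (cls_inv hx)
  have h3 : x⁻¹ = x * x := (mul_self_eq (c.cube_mem hx)).symm
  have h4 : x * x = (x * y) * (x⁻¹ * y)⁻¹ := by group
  rw [h3, h4]
  exact (Fk a).mul_mem h2 ((Fk a).inv_mem h1)

/-- in the coset `x Fk` good pairs have sign plus -/
theorem Good.plus (c : Ctx a) (hX : (cls a).Infinite) {x y : G} (hx : x ∈ cls a)
    (h : Good x y) (hy : x⁻¹ * y ∈ Fk a) : ∃ L : Subgroup G, Krn x L ∧ x⁻¹ * y ∈ L := by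
  obtain ⟨L, hL, h | h⟩ := h
  · exact ⟨L, hL, h⟩
  · exact (coset_ne c hX hx hy (hL.le_Fk hx h)).elim

theorem infinite_coset (c : Ctx a) (hX : (cls a).Infinite) {x : G} (hx : x ∈ cls a) :
    {y | y ∈ cls a ∧ x⁻¹ * y ∈ Fk a}.Infinite := by
  intro hfin
  apply hX
  have h1 : cls a ⊆ {y | y ∈ cls a ∧ x⁻¹ * y ∈ Fk a} ∪
      (fun y => y⁻¹) '' {y | y ∈ cls a ∧ x⁻¹ * y ∈ Fk a} := by
    intro y hy
    rcases mod_eq c hX hx hy with h | h
    · exact Or.inl ⟨hy, h⟩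
    · right
      refine ⟨y⁻¹, ⟨cls_inv hy, ?_⟩, inv_inv y⟩
      have h2 := (Fk a).inv_mem h
      have h3 := (Fk_normal a).conj_mem _ h2 x⁻¹
      have e : x⁻¹ * (x * y)⁻¹ * x⁻¹⁻¹ = x⁻¹ * y⁻¹ := by group
      rwa [e] at h3
  exact (hfin.union (hfin.image _)).subset h1

theorem infinite_Fk (c : Ctx a) (hX : (cls a).Infinite) : ((Fk a : Subgroup G) : Set G).Infinite := by
  intro hfin
  apply infinite_coset c hX (self_mem a)
  refine (hfin.image (fun f => a * f)).subset ?_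
  intro y hy
  exact ⟨a⁻¹ * y, hy.2, by simp⟩

/-- elements of the class act without fixed points on `Fk` -/
theorem fpf_Fk (c : Ctx a) (hX : (cls a).Infinite) {x : G} (hx : x ∈ cls a) {e : G}
    (he : e ∈ Fk a) (hc : Commute x e) : e = 1 := by
  -- left multiplication by `e⁻¹`
  have hD := mem_Dst.1 (Fk_le c he)
  have hleft : ∀ᶠ y in cofinite, y ∈ cls a → e⁻¹ * y ∈ cls a := by
    filter_upwards [(tendsto_conj e).eventually hD.2] with y h1 hy
    have h2 := h1 (cls_conj hy e)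
    have h3 : e⁻¹ * y * e * e⁻¹ = e⁻¹ * y := by group
    rwa [h3] at h2
  have htl : Tendsto (fun y : G => e⁻¹ * y) cofinite cofinite :=
    (mul_right_injective e⁻¹).tendsto_cofinite
  have hall : ∀ᶠ y in cofinite, y ∈ cls a →
      (e⁻¹ * y ∈ cls a ∧ Good x y ∧ Good x (e⁻¹ * y)) := by
    filter_upwards [hleft, c.ev hx, htl.eventually (c.ev hx)] with y h1 h2 h3 hy
    exact ⟨h1 hy, h2 hy, h3 (h1 hy)⟩
  have hfr : ∃ᶠ y in cofinite, y ∈ {y | y ∈ cls a ∧ x⁻¹ * y ∈ Fk a} := by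
    rw [frequently_cofinite_iff_infinite]
    exact infinite_coset c hX hx
  obtain ⟨y, ⟨hy, hyF⟩, h1⟩ := (hfr.and_eventually hall).exists
  obtain ⟨h1, h2, h3⟩ := h1 hy
  have hxe : x⁻¹ * (e⁻¹ * y) = e⁻¹ * (x⁻¹ * y) := by
    have : x⁻¹ * e⁻¹ = e⁻¹ * x⁻¹ := (hc.inv_inv).eq
    rw [← mul_assoc, this, mul_assoc]
  have hyF' : x⁻¹ * (e⁻¹ * y) ∈ Fk a := by
    rw [hxe]; exact (Fk a).mul_mem ((Fk a).inv_mem he) hyF
  obtain ⟨L, hL, hl⟩ := h2.plus c hX hx hyF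
  obtain ⟨L', hL', hl'⟩ := h3.plus c hX hx hyF'
  rw [hxe] at hl'
  set l := x⁻¹ * y with hldef
  -- the common conjugate
  have hd : x⁻¹ * (l⁻¹ * x * l) ∈ L := by
    have : x⁻¹ * (l⁻¹ * x * l) = (x⁻¹ * l⁻¹ * x) * l := by group
    rw [this]; exact L.mul_mem (hL.inv _ (L.inv_mem hl)) hl
  have hd' : x⁻¹ * (l⁻¹ * x * l) ∈ L' := by
    have h5 : x⁻¹ * (l⁻¹ * x * l) = (x⁻¹ * (e⁻¹ * l)⁻¹ * x) * (e⁻¹ * l) := by
      have h6 : (x⁻¹ * (e⁻¹ * l)⁻¹ * x) * (e⁻¹ * l) = x⁻¹ * l⁻¹ * (e * x * e⁻¹) * l := by group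
      have h7 : e * x * e⁻¹ = x := by rw [← hc.eq]; group
      rw [h6, h7]; group
    rw [h5]; exact L'.mul_mem (hL'.inv _ (L'.inv_mem hl')) hl'
  have hI : Fpf x (L ⊓ L') := ⟨hL.fin.subset inf_le_left,
    fun z hz => ⟨hL.inv z hz.1, hL'.inv z hz.2⟩, fun z hz => hL.fpf z hz.1⟩
  obtain ⟨m, hm, hm1⟩ := hI.conj ⟨hd, hd'⟩
  have hm2 : m⁻¹ * x * m = l⁻¹ * x * l := by rw [hm1]; group
  have c1 : Commute x (l * m⁻¹) := by
    have h8 := congrArg (fun t => l * t * m⁻¹) hm2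
    change x * (l * m⁻¹) = l * m⁻¹ * x
    have h9 : l * (m⁻¹ * x * m) * m⁻¹ = l * m⁻¹ * x := by group
    have h10 : l * (l⁻¹ * x * l) * m⁻¹ = x * (l * m⁻¹) := by group
    rw [← h9, ← h10]
    exact h8.symm
  have e1 : l * m⁻¹ = 1 := hL.fpf _ (L.mul_mem hl (L.inv_mem hm.1)) c1
  have c2 : Commute x (e⁻¹ * l * m⁻¹) := by
    rw [mul_assoc]; exact hc.inv_right.mul_right c1
  have e2 : e⁻¹ * l * m⁻¹ = 1 := hL'.fpf _ (L'.mul_mem hl' (L'.inv_mem hm.2)) c2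
  rw [mul_assoc, e1, mul_one] at e2
  exact inv_eq_one.1 e2

/-- almost all elements of `Fk` lie in kernels of `x` -/
theorem ev_Krn (c : Ctx a) (hX : (cls a).Infinite) {x : G} (hx : x ∈ cls a) :
    ∀ᶠ f in cofinite, f ∈ Fk a → ∃ L : Subgroup G, Krn x L ∧ f ∈ L := by
  have hfin : {f | f ∈ Fk a ∧ ¬ Good x (f⁻¹ * x * f)}.Finite := by
    have h1 := (c.good x hx)
    refine Set.Finite.of_finite_image (f := fun f => f⁻¹ * x * f) (h1.subset ?_) ?_
    · rintro _ ⟨f, hf, rfl⟩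
      exact ⟨cls_conj hx f, hf.2⟩
    · intro f hf g hg hfg
      simp only at hfg
      have hc : Commute x (f * g⁻¹) := by
        have h8 := congrArg (fun t => f * t * g⁻¹) hfg
        change x * (f * g⁻¹) = f * g⁻¹ * x
        have h9 : f * (f⁻¹ * x * f) * g⁻¹ = x * (f * g⁻¹) := by group
        have h10 : f * (g⁻¹ * x * g) * g⁻¹ = f * g⁻¹ * x := by group
        rw [← h9, ← h10]
        exact h8
      have h11 := fpf_Fk c hX hx ((Fk a).mul_mem hf.1 ((Fk a).inv_mem hg.1)) hc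
      exact mul_inv_eq_one.1 h11
  rw [eventually_cofinite]
  refine hfin.subset ?_
  intro f hf
  simp only [Set.mem_ofPred_eq, Classical.not_imp, not_exists, not_and] at hf ⊢
  refine ⟨hf.1, fun hg => ?_⟩
  have hxF : x⁻¹ * (f⁻¹ * x * f) ∈ Fk a := by
    have h1 := (Fk_normal a).conj_mem _ ((Fk a).inv_mem hf.1) x⁻¹
    have e : x⁻¹ * (f⁻¹ * x * f) = (x⁻¹ * f⁻¹ * x⁻¹⁻¹) * f := by group
    rw [e]; exact (Fk a).mul_mem h1 hf.1
  obtain ⟨L, hL, hl⟩ := hg.plus c hX hx hxF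
  obtain ⟨m, hm, hm1⟩ := hL.conj hl
  have hm2 : m⁻¹ * x * m = f⁻¹ * x * f := by rw [hm1]; group
  have c1 : Commute x (f * m⁻¹) := by
    have h8 := congrArg (fun t => f * t * m⁻¹) hm2
    change x * (f * m⁻¹) = f * m⁻¹ * x
    have h9 : f * (m⁻¹ * x * m) * m⁻¹ = f * m⁻¹ * x := by group
    have h10 : f * (f⁻¹ * x * f) * m⁻¹ = x * (f * m⁻¹) := by group
    rw [← h9, ← h10]
    exact h8.symm
  have e1 := fpf_Fk c hX hx
    ((Fk a).mul_mem hf.1 ((Fk a).inv_mem (hL.le_Fk hx hm))) c1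
  have e2 : f = m := mul_inv_eq_one.1 e1
  exact hf.2 L hL (e2 ▸ hm)

theorem exists_Fk (c : Ctx a) (hX : (cls a).Infinite) {P : G → Prop}
    (h : ∀ᶠ f in cofinite, f ∈ Fk a → P f) : ∃ f ∈ Fk a, P f := by
  have h1 : ∃ᶠ y in cofinite, y ∈ (Fk a : Set G) := by
    rw [frequently_cofinite_iff_infinite]
    exact infinite_Fk c hX
  obtain ⟨y, h2, h3⟩ := (h1.and_eventually h).exists
  exact ⟨y, h2, h3 h2⟩

/-- generic `s = x k`: the relations of `comm3` -/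
theorem ev_comm (c : Ctx a) (hX : (cls a).Infinite) {x : G} (hx : x ∈ cls a) {l : G}
    (hl : l ∈ Fk a) : ∀ᶠ k in cofinite, k ∈ Fk a →
      Commute l ((x * k)⁻¹ * l * (x * k)) ∧ Commute l ((x * k) * l * (x * k)⁻¹) ∧
      ((x * k) * l * (x * k)⁻¹) * ((x * k)⁻¹ * l * (x * k)) * l = 1 := by
  have h0 : ∀ᶠ f in cofinite, f ∈ Fk a → (x * f) ^ 3 = 1 := by
    filter_upwards [ev_Krn c hX hx] with f h hf
    obtain ⟨L, hL, hfL⟩ := h hf
    exact hL.cube (c.cube_mem hx) hfL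
  filter_upwards [h0, (tendsto_mul_right l).eventually h0,
    (tendsto_mul_right (l * l)).eventually h0] with k h1 h2 h3 hk
  have k1 := h1 hk
  have k2 := h2 ((Fk a).mul_mem hk hl)
  have k3 := h3 ((Fk a).mul_mem hk ((Fk a).mul_mem hl hl))
  rw [← mul_assoc] at k2 k3
  exact comm3 k1 k2 k3

/-- `Fk` is a 2-Engel group -/
theorem engel (c : Ctx a) (hX : (cls a).Infinite) {l h : G} (hl : l ∈ Fk a) (hh : h ∈ Fk a) :
    Commute l (h⁻¹ * l * h) := by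
  have hx := self_mem a
  have hxh : a⁻¹ * h * a ∈ Fk a := by
    have := (Fk_normal a).conj_mem _ hh a⁻¹
    simpa using this
  have h1 := ev_comm c hX hx hl
  have t1 : Tendsto (fun k : G => k * h⁻¹) cofinite cofinite := tendsto_mul_right h⁻¹
  have t2 : Tendsto (fun k : G => (a⁻¹ * h * a) * k) cofinite cofinite :=
    (mul_right_injective _).tendsto_cofinite
  have hall : ∀ᶠ k in cofinite, k ∈ Fk a →
      (((a * k) * l * (a * k)⁻¹) * ((a * k)⁻¹ * l * (a * k)) * l = 1 ∧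
      Commute l ((a * (k * h⁻¹))⁻¹ * l * (a * (k * h⁻¹))) ∧
      Commute l ((a * ((a⁻¹ * h * a) * k)) * l * (a * ((a⁻¹ * h * a) * k))⁻¹)) := by
    filter_upwards [h1, t1.eventually h1, t2.eventually h1] with k b1 b2 b3 hk
    exact ⟨(b1 hk).2.2, (b2 ((Fk a).mul_mem hk ((Fk a).inv_mem hh))).1,
      (b3 ((Fk a).mul_mem hxh hk)).2.1⟩
  obtain ⟨k, hk, b1, b2, b3⟩ := exists_Fk c hX hall
  set s := a * k with hs
  -- `h⁻¹ l h` commutes with `s⁻¹ l s`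
  have conj_comm : ∀ p q : G, Commute p q → Commute (h⁻¹ * p * h) (h⁻¹ * q * h) := by
    intro p q hpq
    change h⁻¹ * p * h * (h⁻¹ * q * h) = h⁻¹ * q * h * (h⁻¹ * p * h)
    have e1 : h⁻¹ * p * h * (h⁻¹ * q * h) = h⁻¹ * (p * q) * h := by group
    have e2 : h⁻¹ * q * h * (h⁻¹ * p * h) = h⁻¹ * (q * p) * h := by group
    rw [e1, e2, hpq.eq]
  have c1 : Commute (h⁻¹ * l * h) (s⁻¹ * l * s) := by
    have := conj_comm _ _ b2
    have e : h⁻¹ * ((a * (k * h⁻¹))⁻¹ * l * (a * (k * h⁻¹))) * h = s⁻¹ * l * s := by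
      rw [hs]; group
    rwa [e] at this
  have c2 : Commute (h⁻¹ * l * h) (s * l * s⁻¹) := by
    have := conj_comm _ _ b3
    have e : h⁻¹ * ((a * ((a⁻¹ * h * a) * k)) * l * (a * ((a⁻¹ * h * a) * k))⁻¹) * h
        = s * l * s⁻¹ := by
      rw [hs]; group
    rwa [e] at this
  have hle : l = ((s * l * s⁻¹) * (s⁻¹ * l * s))⁻¹ := eq_inv_of_mul_eq_one_right b1
  have c3 : Commute (h⁻¹ * l * h) (((s * l * s⁻¹) * (s⁻¹ * l * s))⁻¹) :=
    (c2.mul_right c1).inv_right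
  rw [← hle] at c3
  exact c3.symm

/-- every element of `Fk` is a product of two elements of finite order of `Fk` -/
theorem prod_tor (c : Ctx a) (hX : (cls a).Infinite) {g : G} (hg : g ∈ Fk a) :
    ∃ k ∈ Fk a, ∃ l ∈ Fk a, IsOfFinOrder k ∧ IsOfFinOrder l ∧ g = k * l := by
  have h1 := ev_Krn c hX (self_mem a)
  have t2 : Tendsto (fun k : G => k⁻¹ * g) cofinite cofinite := by
    apply Function.Injective.tendsto_cofinite
    intro x y hxy
    simpa using hxy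
  have hall : ∀ᶠ k in cofinite, k ∈ Fk a → ((∃ L : Subgroup G, Krn a L ∧ k ∈ L) ∧
      (∃ L : Subgroup G, Krn a L ∧ k⁻¹ * g ∈ L)) := by
    filter_upwards [h1, t2.eventually h1] with k b1 b2 hk
    exact ⟨b1 hk, b2 ((Fk a).mul_mem ((Fk a).inv_mem hk) hg)⟩
  obtain ⟨k, hk, ⟨L, hL, hkL⟩, ⟨L', hL', hkL'⟩⟩ := exists_Fk c hX hall
  have ford : ∀ (M : Subgroup G), (M : Set G).Finite → ∀ z ∈ M, IsOfFinOrder z := by
    intro M hM z hz
    have : Finite M := hM.to_subtype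
    have h2 := isOfFinOrder_of_finite (⟨z, hz⟩ : M)
    exact M.subtype.isOfFinOrder h2
  exact ⟨k, hk, k⁻¹ * g, (Fk a).mul_mem ((Fk a).inv_mem hk) hg, ford L hL.fin k hkL,
    ford L' hL'.fin _ hkL', by simp⟩

end

end Pool.Agent.MP_904310f
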