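import Pool.Agent.Lib_MP_904310_fr.Engel

/-!
# Local finiteness of 2-Engel groups generated by torsion elements, and of the whole group
-/

set_option autoImplicit false

namespace Pool.Agent.MP_904310f

open Subgroup Filter

/-- a group generated by finitely many elements of finite order, each of which commutes with all
its conjugates, is finite -/
theorem engel_finite (n : ℕ) : ∀ (H : Type*) [Group H] (t : Fin n → H),
    closure (Set.range t) = ⊤ → (∀ i, IsOfFinOrder (t i)) →
    (∀ i, ∀ h : H, Commute (t i) (h⁻¹ * t i * h)) → Finite H := by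
  induction n with
  | zero =>
    intro H _ t ht _ _
    have h1 : (⊤ : Subgroup H) = ⊥ := by
      rw [← ht, Set.range_eq_empty, Subgroup.closure_empty]
    have : Subsingleton H := by
      rw [← Subgroup.subsingleton_iff]
      exact subsingleton_iff_bot_eq_top.1 h1.symm
    exact Finite.of_subsingleton
  | succ n ih =>
    intro H _ t ht htor hE
    set z := t (Fin.last n) with hz
    set A := normalClosure ({z} : Set H) with hA
    have hAn : A.Normal := normalClosure_normal
    -- the quotient
    have hq : Finite (H ⧸ A) := by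
      refine ih (H ⧸ A) (fun i => QuotientGroup.mk' A (t i.castSucc)) ?_ ?_ ?_
      · rw [eq_top_iff]
        intro x _
        obtain ⟨y, rfl⟩ := QuotientGroup.mk'_surjective A x
        have hy : y ∈ closure (Set.range t) := by rw [ht]; trivial
        refine closure_induction (p := fun y _ => QuotientGroup.mk' A y ∈
          closure (Set.range fun i => QuotientGroup.mk' A (t (Fin.castSucc i)))) ?_ ?_ ?_ ?_ hy
        · rintro _ ⟨i, rfl⟩
          refine Fin.lastCases ?_ ?_ i
          · have : QuotientGroup.mk' A (t (Fin.last n)) = 1 := by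
              rw [← hz]
              exact (QuotientGroup.eq_one_iff z).2 (subset_normalClosure (Set.mem_singleton z))
            rw [this]; exact Subgroup.one_mem _
          · intro j; exact subset_closure ⟨j, rfl⟩
        · rw [map_one]; exact Subgroup.one_mem _
        · intro x y _ _ hx hy; rw [map_mul]; exact Subgroup.mul_mem _ hx hy
        · intro x _ hx; rw [map_inv]; exact Subgroup.inv_mem _ hx
      · intro i; exact (QuotientGroup.mk' A).isOfFinOrder (htor _)
      · intro i h
        obtain ⟨h, rfl⟩ := QuotientGroup.mk'_surjective A h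
        have := (hE i.castSucc h).map (QuotientGroup.mk' A)
        simpa using this
    -- `A` is commutative and torsion
    have hcomm : ∀ x ∈ A, ∀ y ∈ A, Commute x y := by
      have base : ∀ g h : H, Commute (g * z * g⁻¹) (h * z * h⁻¹) := by
        intro g h
        -- conjugate by `h`
        have h2 : Commute ((h : H) * z * h⁻¹) (h * ((h⁻¹ * g)⁻¹⁻¹ * z * (h⁻¹ * g)⁻¹) * h⁻¹) := by
          have h3 := hE (Fin.last n) (h⁻¹ * g)⁻¹
          rw [← hz] at h3
          change h * z * h⁻¹ * (h * ((h⁻¹ * g)⁻¹⁻¹ * z * (h⁻¹ * g)⁻¹) * h⁻¹) =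
            (h * ((h⁻¹ * g)⁻¹⁻¹ * z * (h⁻¹ * g)⁻¹) * h⁻¹) * (h * z * h⁻¹)
          have e1 : h * z * h⁻¹ * (h * ((h⁻¹ * g)⁻¹⁻¹ * z * (h⁻¹ * g)⁻¹) * h⁻¹) =
            h * (z * ((h⁻¹ * g)⁻¹⁻¹ * z * (h⁻¹ * g)⁻¹)) * h⁻¹ := by group
          have e2 : (h * ((h⁻¹ * g)⁻¹⁻¹ * z * (h⁻¹ * g)⁻¹) * h⁻¹) * (h * z * h⁻¹) =
            h * (((h⁻¹ * g)⁻¹⁻¹ * z * (h⁻¹ * g)⁻¹) * z) * h⁻¹ := by group
          rw [e1, e2, h3.eq]
        have e : h * ((h⁻¹ * g)⁻¹⁻¹ * z * (h⁻¹ * g)⁻¹) * h⁻¹ = g * z * g⁻¹ := by group
        rw [e] at h2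
        exact h2.symm
      intro x hx y hy
      refine closure_induction (p := fun x _ => Commute x y) ?_ ?_ ?_ ?_ hx
      · intro x hx
        refine closure_induction (p := fun y _ => Commute x y) ?_ ?_ ?_ ?_ hy
        · intro y hy
          rw [Group.mem_conjugatesOfSet_iff] at hx hy
          obtain ⟨z1, hz1, hx⟩ := hx
          obtain ⟨z2, hz2, hy⟩ := hy
          rw [Set.mem_singleton_iff.1 hz1, isConj_iff] at hx
          rw [Set.mem_singleton_iff.1 hz2, isConj_iff] at hy
          obtain ⟨g, rfl⟩ := hx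
          obtain ⟨h, rfl⟩ := hy
          exact base g h
        · exact Commute.one_right _
        · intro a b _ _ ha hb; exact ha.mul_right hb
        · intro a _ ha; exact ha.inv_right
      · exact Commute.one_left _
      · intro a b _ _ ha hb; exact ha.mul_left hb
      · intro a _ ha; exact ha.inv_left
    have htA : ∀ x ∈ A, IsOfFinOrder x := by
      intro x hx
      refine closure_induction (p := fun x _ => IsOfFinOrder x ∧ x ∈ A) ?_ ?_ ?_ ?_ hx |>.1
      · intro x hx
        refine ⟨?_, subset_closure hx⟩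
        rw [Group.mem_conjugatesOfSet_iff] at hx
        obtain ⟨z1, hz1, hx⟩ := hx
        rw [Set.mem_singleton_iff.1 hz1, isConj_iff] at hx
        obtain ⟨g, rfl⟩ := hx
        exact (MulAut.conj g).toMonoidHom.isOfFinOrder (htor _)
      · exact ⟨IsOfFinOrder.one, A.one_mem⟩
      · intro x y _ _ hx hy
        exact ⟨(hcomm x hx.2 y hy.2).isOfFinOrder_mul hx.1 hy.1, A.mul_mem hx.2 hy.2⟩
      · intro x _ hx
        exact ⟨hx.1.inv, A.inv_mem hx.2⟩
    have hfg : Group.FG H := by
      rw [Group.fg_iff]
      exact ⟨Set.range t, ht, Set.finite_range t⟩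
    have hfi : A.FiniteIndex := by
      have : Finite (H ⧸ A) := hq
      exact Subgroup.finiteIndex_of_finite_quotient
    have hfgA : Group.FG A := Subgroup.fg_of_index_ne_zero A
    let _ : CommGroup A := { (inferInstance : Group A) with
      mul_comm := fun x y => Subtype.ext (hcomm x x.2 y y.2).eq }
    have htors : ∀ x : A, IsOfFinOrder x := by
      intro x
      obtain ⟨n, hn, h⟩ := isOfFinOrder_iff_pow_eq_one.1 (htA x x.2)
      exact isOfFinOrder_iff_pow_eq_one.2 ⟨n, hn, Subtype.ext (by simpa using h)⟩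
    have hfA : Finite A := CommGroup.finite_of_fg_isMulTorsion A htors
    have : Finite (H ⧸ A) := hq
    exact Finite.of_subgroup_quotient A

end Pool.Agent.MP_904310f
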