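import Pool.Agent.Lib_MP_904310_fr.Basic

/-!
# The module structure on a commutative kernel
-/

set_option autoImplicit false

namespace Pool.Agent.MP_904310f.Lab

open Pool.Agent.MP_904310f (Fpf Krn)

universe v

theorem exists_inv_mod {p i : ℕ} (hp : p.Prime) (hi : ¬ p ∣ i) :
    ∃ m : ℕ, ∃ k : ℕ, i * m = p * k + 1 := by
  have hcop : Nat.Coprime i p := by
    rw [Nat.coprime_comm]
    exact (Nat.Prime.coprime_iff_not_dvd hp).2 hi
  obtain ⟨m, hm⟩ := Nat.exists_mul_mod_eq_one_of_coprime hcop hp.one_lt
  refine ⟨m, i * m / p, ?_⟩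
  have := Nat.div_add_mod (i * m) p
  omega

theorem pow_root {G : Type v} [Monoid G] {p i m k : ℕ} {u : G} (hu : u ^ p = 1)
    (h : i * m = p * k + 1) : (u ^ i) ^ m = u := by
  rw [← pow_mul, h, pow_succ, pow_mul, hu, one_pow, one_mul]

theorem kernel_ring {G : Type v} [Group G] {p : ℕ} (hp : p.Prime) {u : G}
    (hu : u ^ p = 1) {L : Subgroup G} (hL : Krn u L) :
    ∃ (R : Type v) (_ : CommRing R) (A : Type v) (_ : AddCommGroup A) (_ : Module R A)
      (_ : Finite A) (φ : A → G) (θ : R), Function.Injective φ ∧ (∀ P, φ P ∈ L) ∧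
      (∀ g ∈ L, ∃ P, φ P = g) ∧ (∀ P Q, φ (P + Q) = φ P * φ Q) ∧
      (∀ P, φ (θ • P) = u * φ P * u⁻¹) ∧ θ ^ p = 1 ∧ ∀ i, ¬ p ∣ i → IsUnit (1 - θ ^ i) := by
  letI : CommGroup L := { (inferInstance : Group L) with
    mul_comm := fun x y => Subtype.ext (hL.com x x.2 y y.2).eq }
  have hfL : Finite L := hL.fin.to_subtype
  let θm : L →* L :=
    { toFun := fun l => ⟨u * l * u⁻¹, hL.inv' l l.2⟩
      map_one' := by ext; simp
      map_mul' := by intro x y; ext; simp }
  let θ0 : AddMonoid.End (Additive L) := MonoidHom.toAdditive θm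
  letI : CommRing (Subring.closure ({θ0} : Set (AddMonoid.End (Additive L)))) :=
    Subring.closureCommRingOfComm (by
      intro x hx y hy
      rw [Set.mem_singleton_iff.1 hx, Set.mem_singleton_iff.1 hy])
  have hfA : Finite (Additive L) := hfL
  have hfE : Finite (AddMonoid.End (Additive L)) :=
    DFunLike.finite (AddMonoid.End (Additive L))
  have hfR : Finite (Subring.closure ({θ0} : Set (AddMonoid.End (Additive L)))) :=
    Subtype.finite
  let φ : Additive L → G := fun P => ((Additive.toMul P : L) : G)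
  let θ : Subring.closure ({θ0} : Set (AddMonoid.End (Additive L))) :=
    ⟨θ0, Subring.subset_closure rfl⟩
  have hφ : Function.Injective φ := by
    intro P Q h
    exact Additive.toMul.injective (Subtype.ext h)
  have hθ : ∀ P, φ (θ • P) = u * φ P * u⁻¹ := fun P => rfl
  have hθi : ∀ (i : ℕ) (P : Additive L), φ (θ ^ i • P) = u ^ i * φ P * (u ^ i)⁻¹ := by
    intro i
    induction i with
    | zero => intro P; simp
    | succ i ih =>
      intro P
      rw [pow_succ, mul_smul, ih, hθ, pow_succ]
      group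
  have hadd : ∀ P Q, φ (P + Q) = φ P * φ Q := fun P Q => rfl
  refine ⟨_, inferInstance, Additive L, inferInstance, inferInstance, hfA, φ, θ, hφ,
    fun P => (Additive.toMul P).2, fun g hg => ⟨Additive.ofMul ⟨g, hg⟩, rfl⟩, hadd, hθ, ?_, ?_⟩
  · apply Subtype.ext
    ext P
    have h1 := hθi p P
    rw [hu] at h1
    simp only [one_mul, inv_one, mul_one] at h1
    exact congrArg Subtype.val (congrArg Additive.toMul (hφ h1))
  · intro i hi
    rw [isUnit_iff_mem_nonZeroDivisors_of_finite, mem_nonZeroDivisors_iff_right]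
    intro r hr
    have inj : Function.Injective (fun P : Additive L => (1 - θ ^ i) • P) := by
      intro P Q h
      have h0 : (1 - θ ^ i) • (P - Q) = 0 := by
        rw [smul_sub]; exact sub_eq_zero.2 h
      rw [sub_smul, one_smul, sub_eq_zero] at h0
      have h2 : φ (P - Q) = u ^ i * φ (P - Q) * (u ^ i)⁻¹ := by
        rw [← hθi, ← h0]
      have h3 : Commute (u ^ i) (φ (P - Q)) := by
        change u ^ i * φ (P - Q) = φ (P - Q) * u ^ i
        nth_rewrite 2 [h2]
        group
      obtain ⟨m, k, hmk⟩ := exists_inv_mod hp hi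
      have h4 : Commute u (φ (P - Q)) := by
        have := h3.pow_left m
        rwa [pow_root hu hmk] at this
      have h5 := hL.fpf _ (Additive.toMul (P - Q)).2 h4
      have h6 : P - Q = 0 := hφ h5
      exact sub_eq_zero.1 h6
    have surj := Finite.injective_iff_surjective.1 inj
    apply Subtype.ext
    ext P
    obtain ⟨Q, hQ⟩ := surj P
    have h7 : r • P = 0 := by
      rw [← hQ]
      simp only
      rw [← mul_smul, hr, zero_smul]
    exact congrArg Subtype.val (congrArg Additive.toMul h7)

end Pool.Agent.MP_904310f.Lab
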