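import Pool.Agent.Lib_MP_904310_fr.Const2
import Pool.Agent.Lib_MP_904310_fr.KRing

/-!
# Labels of pairs of conjugates of powers of an element of prime order at least five
-/

set_option autoImplicit false

namespace Pool.Agent.MP_904310f.Lab

open Subgroup Filter

open Pool.Agent.MP_904310f (Fpf Krn)

universe v

variable {G : Type v} [Group G]

/-- the conjugates of the nontrivial powers of `a` -/
def cl (p : ℕ) (a : G) : Set G := {y | ∃ (g : G) (j : ℕ), (j : ZMod p) ≠ 0 ∧ y = g⁻¹ * a ^ j * g}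

/-- `y` lies in a power of `u` times a commutative kernel of `u` -/
def Gd (u y : G) : Prop := ∃ L : Subgroup G, Krn u L ∧ ∃ i : ℕ, (u ^ i)⁻¹ * y ∈ L

/-- `g` lies in a kernel -/
def NK (p : ℕ) (a g : G) : Prop := ∃ u ∈ cl p a, ∃ L : Subgroup G, Krn u L ∧ g ∈ L

/-- the standing hypotheses -/
structure Ct (p : ℕ) (a : G) : Prop where
  prime : p.Prime
  five : 5 ≤ p
  pow : a ^ p = 1
  ne : a ≠ 1
  good : ∀ u ∈ cl p a, {y | y ∈ cl p a ∧ ¬ Gd u y}.Finite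

variable {p : ℕ} {a : G}

theorem conj_pow' (g x : G) (n : ℕ) : (g⁻¹ * x * g) ^ n = g⁻¹ * x ^ n * g := by
  have := conj_pow (i := n) (a := g⁻¹) (b := x)
  simpa using this

theorem conj_pow'' (g x : G) (n : ℕ) : (g * x * g⁻¹) ^ n = g * x ^ n * g⁻¹ :=
  conj_pow

theorem cl_conj {y : G} (h : y ∈ cl p a) (g : G) : g⁻¹ * y * g ∈ cl p a := by
  obtain ⟨k, j, hj, rfl⟩ := h
  exact ⟨k * g, j, hj, by group⟩

theorem cl_conj' {y : G} (h : y ∈ cl p a) (g : G) : g * y * g⁻¹ ∈ cl p a := by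
  have := cl_conj h g⁻¹
  simpa using this

theorem Ct.self_mem (c : Ct p a) : a ∈ cl p a := by
  have := Fact.mk c.prime
  exact ⟨1, 1, by simp, by simp⟩

theorem Ct.cl_pow (c : Ct p a) {y : G} (h : y ∈ cl p a) {k : ℕ} (hk : (k : ZMod p) ≠ 0) :
    y ^ k ∈ cl p a := by
  have := Fact.mk c.prime
  obtain ⟨g, j, hj, rfl⟩ := h
  refine ⟨g, j * k, ?_, ?_⟩
  · push_cast; exact mul_ne_zero hj hk
  · rw [conj_pow', ← pow_mul]

theorem Ct.pow_mem (c : Ct p a) {y : G} (h : y ∈ cl p a) : y ^ p = 1 := by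
  obtain ⟨g, j, hj, rfl⟩ := h
  rw [conj_pow', ← pow_mul, mul_comm, pow_mul, c.pow]; simp

theorem pow_congr {u : G} (hu : u ^ p = 1) {m n : ℕ} (h : (m : ZMod p) = n) : u ^ m = u ^ n := by
  rw [ZMod.natCast_eq_natCast_iff] at h
  rw [pow_eq_pow_mod m hu, pow_eq_pow_mod n hu, h]

theorem root {p : ℕ} (hp : p.Prime) {i : ℕ} (hi : (i : ZMod p) ≠ 0) :
    ∃ m : ℕ, (m : ZMod p) ≠ 0 ∧ (i : ZMod p) * m = 1 ∧
      ∀ {H : Type v} [Group H] (u : H), u ^ p = 1 → (u ^ i) ^ m = u := by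
  have := Fact.mk hp
  refine ⟨((i : ZMod p)⁻¹).val, ?_, ?_, ?_⟩
  · rw [ZMod.natCast_zmod_val]; exact inv_ne_zero hi
  · rw [ZMod.natCast_zmod_val]; exact mul_inv_cancel₀ hi
  · intro H _ u hu
    rw [← pow_mul]
    have h1 : ((i * ((i : ZMod p)⁻¹).val : ℕ) : ZMod p) = (1 : ℕ) := by
      push_cast
      rw [ZMod.natCast_zmod_val]; exact mul_inv_cancel₀ hi
    rw [pow_congr hu h1, pow_one]

theorem Ct.ne_one (c : Ct p a) {y : G} (h : y ∈ cl p a) : y ≠ 1 := by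
  rintro rfl
  obtain ⟨g, j, hj, h1⟩ := h
  obtain ⟨m, _, _, hm⟩ := root.{v} c.prime hj
  apply c.ne
  have h2 : a ^ j = 1 := by
    have := congrArg (fun t => g * t * g⁻¹) h1
    simpa [mul_assoc] using this.symm
  rw [← hm a c.pow, h2, one_pow]

theorem Krn.powc {u : G} {L : Subgroup G} (h : Krn u L) (j : ℕ) {l : G} (hl : l ∈ L) :
    (u ^ j)⁻¹ * l * u ^ j ∈ L := by
  induction j with
  | zero => simpa using hl
  | succ j ih =>
    have e : (u ^ (j + 1))⁻¹ * l * u ^ (j + 1) = u⁻¹ * ((u ^ j)⁻¹ * l * u ^ j) * u := by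
      rw [pow_succ]; group
    rw [e]; exact h.inv _ ih

theorem Krn.pow (hp : p.Prime) {u : G} (hu : u ^ p = 1) {L : Subgroup G} (h : Krn u L) {i : ℕ}
    (hi : (i : ZMod p) ≠ 0) : Krn (u ^ i) L := by
  refine ⟨⟨h.fin, fun l hl => Krn.powc h i hl, ?_⟩, h.com⟩
  intro l hl hc
  apply h.fpf l hl
  obtain ⟨m, _, _, hm⟩ := root.{v} hp hi
  have := hc.pow_left m
  rwa [hm u hu] at this

theorem Krn.conj (hp : p.Prime) {u : G} (hu : u ^ p = 1) {L : Subgroup G} (h : Krn u L) {i : ℕ}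
    (hi : (i : ZMod p) ≠ 0) {l : G} (hl : l ∈ L) : ∃ m ∈ L, m⁻¹ * u ^ i * m = u ^ i * l :=
  (Krn.pow hp hu h hi).toFpf.conj hl

theorem Krn.mul_mem_cl (c : Ct p a) {u : G} {L : Subgroup G} (h : Krn u L) (hu : u ∈ cl p a)
    {i : ℕ} (hi : (i : ZMod p) ≠ 0) {l : G} (hl : l ∈ L) : u ^ i * l ∈ cl p a := by
  obtain ⟨m, _, hm⟩ := Krn.conj c.prime (c.pow_mem hu) h hi hl
  rw [← hm]; exact cl_conj (c.cl_pow hu hi) m

/-- kernels have no elements of order `p` -/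
theorem Krn.noP (hp : p.Prime) (hp2 : p ≠ 2) {u : G} (hu : u ^ p = 1) {L : Subgroup G}
    (h : Krn u L) {l : G} (hl : l ∈ L) (hlp : l ^ p = 1) : l = 1 := by
  obtain ⟨R, _, A, _, _, _, φ, θ, h1, h2, h3, h4, h5, h6, h7⟩ := kernel_ring hp hu h
  obtain ⟨P, hP⟩ := h3 l hl
  have hodd : Odd p := hp.odd_of_ne_two hp2
  obtain ⟨r, hr⟩ := exists_add_pow_prime_eq hp θ (-1)
  rw [h6, hodd.neg_one_pow] at hr
  have h0 : φ 0 = 1 := by
    have := h4 0 0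
    rw [add_zero] at this
    exact mul_left_cancel (a := φ 0) (by rw [mul_one]; exact this.symm)
  have hn : ∀ n : ℕ, φ (n • P) = l ^ n := by
    intro n
    induction n with
    | zero => rw [zero_smul, h0, pow_zero]
    | succ n ih => rw [succ_nsmul, h4, ih, hP, pow_succ]
  have hpP : (p : R) • P = 0 := by
    rw [Nat.cast_smul_eq_nsmul]
    apply h1
    rw [hn, hlp, h0]
  have h8 : (θ + -1) ^ p • P = 0 := by
    have : (θ + -1) ^ p = (-(θ * r)) * (p : R) := by rw [hr]; ring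
    rw [this, mul_smul, hpP, smul_zero]
  have hu1 : IsUnit (1 - θ ^ 1) := h7 1 (fun hd => by
    have := Nat.le_of_dvd one_pos hd
    have := hp.two_le
    omega)
  have hu2 : IsUnit ((θ + -1) ^ p) := by
    have : θ + -1 = -(1 - θ ^ 1) := by ring
    rw [this]
    exact hu1.neg.pow p
  have h9 : P = 0 := by
    apply smul_inj hu2
    simp only
    rw [h8, smul_zero]
  rw [← hP, h9, h0]

theorem Ct.ne_two (c : Ct p a) : p ≠ 2 := by
  have := c.five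
  omega

theorem Krn.not_mem_cl (c : Ct p a) {u : G} {L : Subgroup G} (h : Krn u L) (hu : u ∈ cl p a)
    {l : G} (hl : l ∈ L) : l ∉ cl p a := fun hla =>
  c.ne_one hla (Krn.noP c.prime c.ne_two (c.pow_mem hu) h hl (c.pow_mem hla))

/-- the label of a good pair -/
theorem crit (c : Ct p a) {u y : G} (hu : u ∈ cl p a) (hy : y ∈ cl p a) (h : Gd u y) :
    ∃ t : (ZMod p)ˣ, ∀ k : ℕ, (k : ZMod p) ≠ 0 → ∀ m : ℕ,
      (y ^ k * u ^ m ∈ cl p a ↔ (m : ZMod p) ≠ k * t) := by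
  have := Fact.mk c.prime
  obtain ⟨L, hL, i, hi⟩ := h
  have hup := c.pow_mem hu
  have hpi : (i : ZMod p) ≠ 0 := by
    intro h0
    have h1 : u ^ i = 1 := by
      have : (i : ZMod p) = ((0 : ℕ) : ZMod p) := by rw [h0]; simp
      rw [pow_congr hup this, pow_zero]
    rw [h1, inv_one, one_mul] at hi
    exact Krn.not_mem_cl c hL hu hi hy
  have hyk : ∀ k : ℕ, ∃ l ∈ L, y ^ k = u ^ (i * k) * l := by
    intro k
    obtain ⟨m, hm, hm1⟩ := Krn.conj c.prime hup hL hpi hi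
    have h1 : m⁻¹ * u ^ i * m = y := by rw [hm1]; group
    refine ⟨(u ^ (i * k))⁻¹ * m⁻¹ * u ^ (i * k) * m,
      L.mul_mem (Krn.powc hL _ (L.inv_mem hm)) hm, ?_⟩
    rw [← h1, conj_pow', ← pow_mul]
    group
  refine ⟨Units.mk0 (-(i : ZMod p)) (neg_ne_zero.2 hpi), ?_⟩
  intro k hk m
  obtain ⟨l, hl, hyl⟩ := hyk k
  have e : y ^ k * u ^ m = u ^ (i * k + m) * ((u ^ m)⁻¹ * l * u ^ m) := by
    rw [hyl, pow_add]; group
  have hl' := Krn.powc hL m hl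
  have e2 : ((i * k + m : ℕ) : ZMod p) = m - k * (-(i : ZMod p)) := by push_cast; ring
  rw [Units.val_mk0, e]
  constructor
  · intro h1 h2
    have h3 : ((i * k + m : ℕ) : ZMod p) = ((0 : ℕ) : ZMod p) := by
      rw [e2, h2, sub_self]; simp
    rw [pow_congr hup h3, pow_zero, one_mul] at h1
    exact Krn.not_mem_cl c hL hu hl' h1
  · intro h1
    refine Krn.mul_mem_cl c hL hu ?_ hl'
    rw [e2]
    exact sub_ne_zero.2 h1

/-- first genericity condition -/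
def Gen1 (p : ℕ) (a u : G) (L : Subgroup G) (y : G) : Prop :=
  ∀ Q ∈ L, ∀ j : ℕ, y * (Q * u ^ j * Q⁻¹) ∈ cl p a → ∀ Z ∈ L,
    Gd (Z * u * Z⁻¹) (y * (Q * u ^ j * Q⁻¹))

section ring

variable {R A : Type v} [CommRing R] [AddCommGroup A] [Module R A] {φ : A → G} {θ : R} {u : G}

theorem ring_pow (h5 : ∀ P, φ (θ • P) = u * φ P * u⁻¹) (i : ℕ) (P : A) :
    φ (θ ^ i • P) = u ^ i * φ P * (u ^ i)⁻¹ := by
  induction i generalizing P with
  | zero => simp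
  | succ i ih =>
    rw [pow_succ, mul_smul, ih, h5, pow_succ]
    group

theorem ring_cp (h4 : ∀ P Q, φ (P + Q) = φ P * φ Q) (h5 : ∀ P, φ (θ • P) = u * φ P * u⁻¹)
    (i : ℕ) (P : A) : φ P * u ^ i * (φ P)⁻¹ = φ ((1 - θ ^ i) • P) * u ^ i := by
  have h : φ ((1 - θ ^ i) • P) * φ (θ ^ i • P) = φ P := by
    rw [← h4]
    congr 1
    module
  rw [ring_pow h5] at h
  have h2 : φ ((1 - θ ^ i) • P) = φ P * (u ^ i * φ P * (u ^ i)⁻¹)⁻¹ := by
    rw [eq_mul_inv_iff_mul_eq]; exact h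
  rw [h2]
  group

theorem group_eq (h4 : ∀ P Q, φ (P + Q) = φ P * φ Q) (h5 : ∀ P, φ (θ • P) = u * φ P * u⁻¹)
    (hθ : θ ^ p = 1) (hu : u ^ p = 1) {P Q Z : A} {ni nj m1 : ℕ}
    (h : ((nj + m1 : ℕ) : ZMod p) = ni)
    (he : (1 - θ ^ ni) • P = (1 - θ ^ nj) • Q + (θ ^ nj - θ ^ ni) • Z) :
    φ P * u ^ ni * (φ P)⁻¹ = (φ Q * u ^ nj * (φ Q)⁻¹) * (φ Z * u ^ m1 * (φ Z)⁻¹) := by
  have hθ2 : θ ^ (nj + m1) = θ ^ ni := by
    rw [ZMod.natCast_eq_natCast_iff] at h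
    rw [pow_eq_pow_mod _ hθ, pow_eq_pow_mod ni hθ, h]
  have hu2 : u ^ (nj + m1) = u ^ ni := pow_congr hu h
  rw [ring_cp h4 h5, ring_cp h4 h5, ring_cp h4 h5, he, h4]
  have e1 : φ ((θ ^ nj - θ ^ ni) • Z) = u ^ nj * φ ((1 - θ ^ m1) • Z) * (u ^ nj)⁻¹ := by
    rw [← ring_pow h5, smul_smul, mul_sub, mul_one, ← pow_add, hθ2]
  rw [e1, ← hu2, pow_add]
  group

end ring

theorem exists_third_unit (c : Ct p a) [Fact p.Prime] : 3 ≤ Fintype.card (ZMod p)ˣ := by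
  rw [ZMod.card_units]
  have := c.five
  omega

end Pool.Agent.MP_904310f.Lab
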