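import Pool.Agent.Lib_MP_904310_fr.Label

/-!
# Labels are constant; kernels almost stabilise the class
-/

set_option autoImplicit false

namespace Pool.Agent.MP_904310f.Lab

open Subgroup Filter

open Pool.Agent.MP_904310f (Fpf Krn)

universe v

variable {G : Type v} [Group G] {p : ℕ} {a : G}

theorem sys_units {R : Type v} [CommRing R] {θ : R} [Fact p.Prime] (hp2 : p ≠ 2)
    (h6 : θ ^ p = 1) (h7 : ∀ i, ¬ p ∣ i → IsUnit (1 - θ ^ i)) :
    (∀ i i' : (ZMod p)ˣ, i ≠ i' → IsUnit (θ ^ (i : ZMod p).val - θ ^ (i' : ZMod p).val)) ∧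
    (∀ i : (ZMod p)ˣ, IsUnit (1 - θ ^ (i : ZMod p).val)) ∧
    (∀ i i' : (ZMod p)ˣ, i ≠ i' → IsUnit (θ ^ (i : ZMod p).val + θ ^ (i' : ZMod p).val)) ∧
    (∀ i : (ZMod p)ˣ, IsUnit (1 + θ ^ (i : ZMod p).val)) := by
  have hp : p.Prime := Fact.out
  have hθu : IsUnit θ := by
    refine IsUnit.of_mul_eq_one (θ ^ (p - 1)) ?_
    rw [← pow_succ', Nat.sub_add_cancel hp.one_le, h6]
  have k1 : ∀ m : ℕ, (m : ZMod p) ≠ 0 → IsUnit (1 - θ ^ m) := by
    intro m hm
    apply h7
    rwa [← ZMod.natCast_eq_zero_iff]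
  have two : (2 : ZMod p) ≠ 0 := by
    have : ((2 : ℕ) : ZMod p) ≠ 0 := by
      rw [Ne, ZMod.natCast_eq_zero_iff]
      intro hd
      have := (Nat.prime_dvd_prime_iff_eq hp Nat.prime_two).1 hd
      exact hp2 this
    exact_mod_cast this
  have k2 : ∀ m : ℕ, (m : ZMod p) ≠ 0 → IsUnit (1 + θ ^ m) := by
    intro m hm
    have h1 : IsUnit (1 - θ ^ (2 * m)) := k1 _ (by push_cast; exact mul_ne_zero two hm)
    have h2 : 1 - θ ^ (2 * m) = (1 - θ ^ m) * (1 + θ ^ m) := by ring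
    rw [h2] at h1
    exact isUnit_of_mul_isUnit_right h1
  have hval : ∀ i : (ZMod p)ˣ, (((i : ZMod p).val : ℕ) : ZMod p) = i := fun i =>
    ZMod.natCast_zmod_val _
  have hpow : ∀ i i' : (ZMod p)ˣ, θ ^ (i : ZMod p).val =
      θ ^ (i' : ZMod p).val * θ ^ ((i : ZMod p) - i').val := by
    intro i i'
    rw [← pow_add]
    have h1 : (((i : ZMod p).val : ℕ) : ZMod p) =
        (((i' : ZMod p).val + ((i : ZMod p) - i').val : ℕ) : ZMod p) := by
      push_cast
      rw [hval, hval, ZMod.natCast_zmod_val]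
      ring
    rw [ZMod.natCast_eq_natCast_iff] at h1
    rw [pow_eq_pow_mod _ h6, pow_eq_pow_mod (_ + _) h6, h1]
  have hne : ∀ i i' : (ZMod p)ˣ, i ≠ i' → ((((i : ZMod p) - i').val : ℕ) : ZMod p) ≠ 0 := by
    intro i i' h
    rw [ZMod.natCast_zmod_val]
    exact sub_ne_zero.2 (fun h1 => h (Units.ext h1))
  refine ⟨?_, ?_, ?_, ?_⟩
  · intro i i' h
    rw [hpow i i']
    have : θ ^ (i' : ZMod p).val * θ ^ ((i : ZMod p) - i').val - θ ^ (i' : ZMod p).val =
        -(θ ^ (i' : ZMod p).val * (1 - θ ^ ((i : ZMod p) - i').val)) := by ring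
    rw [this]
    exact ((hθu.pow _).mul (k1 _ (hne i i' h))).neg
  · intro i
    exact k1 _ (by rw [hval]; exact i.ne_zero)
  · intro i i' h
    rw [hpow i i']
    have : θ ^ (i' : ZMod p).val * θ ^ ((i : ZMod p) - i').val + θ ^ (i' : ZMod p).val =
        θ ^ (i' : ZMod p).val * (1 + θ ^ ((i : ZMod p) - i').val) := by ring
    rw [this]
    exact (hθu.pow _).mul (k2 _ (hne i i' h))
  · intro i
    exact k2 _ (by rw [hval]; exact i.ne_zero)

theorem const_label (c : Ct p a) [Fact p.Prime] {u : G} (hu : u ∈ cl p a) {L : Subgroup G}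
    (hL : Krn u L) {y : G} (hy : y ∈ cl p a) (g1 : Gen1 p a u L y)
    (g2 : Gen1 p a u L (y ^ 2)) :
    ∃ t0 : (ZMod p)ˣ, ∀ P ∈ L, ∀ m : ℕ,
      (y * (P * u ^ m * P⁻¹) ∈ cl p a ↔ (m : ZMod p) ≠ t0) := by
  obtain ⟨R, _, A, _, _, _, φ, θ, h1, h2, h3, h4, h5, h6, h7⟩ :=
    kernel_ring c.prime (c.pow_mem hu) hL
  have hup := c.pow_mem hu
  have hval : ∀ i : (ZMod p)ˣ, (((i : ZMod p).val : ℕ) : ZMod p) = i := fun i =>
    ZMod.natCast_zmod_val _
  -- labels
  have lab : ∀ P : A, ∃ t : (ZMod p)ˣ, ∀ k : ℕ, (k : ZMod p) ≠ 0 → ∀ m : ℕ,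
      (y ^ k * (φ P * u * (φ P)⁻¹) ^ m ∈ cl p a ↔ (m : ZMod p) ≠ k * t) := by
    intro P
    have hg : Gd (φ P * u * (φ P)⁻¹) y := by
      have := g1 1 L.one_mem 0 (by simpa using hy) (φ P) (h2 P)
      simpa using this
    exact crit c (cl_conj' hu _) hy hg
  choose s hs using lab
  have two : ((2 : ℕ) : ZMod p) ≠ 0 := by
    rw [Ne, ZMod.natCast_eq_zero_iff]
    intro hd
    have := (Nat.prime_dvd_prime_iff_eq c.prime Nat.prime_two).1 hd
    exact c.ne_two this
  have line : ∀ k : ℕ, (k : ZMod p) ≠ 0 → Gen1 p a u L (y ^ k) →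
      ∀ (P P' Q Z : A) (j : (ZMod p)ˣ), s P ≠ s P' → j ≠ s P → j ≠ s P' →
      (1 - θ ^ ((s P : ZMod p).val * k)) • P = (1 - θ ^ ((j : ZMod p).val * k)) • Q +
        (θ ^ ((j : ZMod p).val * k) - θ ^ ((s P : ZMod p).val * k)) • Z →
      (1 - θ ^ ((s P' : ZMod p).val * k)) • P' = (1 - θ ^ ((j : ZMod p).val * k)) • Q +
        (θ ^ ((j : ZMod p).val * k) - θ ^ ((s P' : ZMod p).val * k)) • Z → s Q = j := by
    intro k hk gk P P' Q Z j n1 n2 n3 e1 e2
    by_contra hne
    have hyk : y ^ k * (φ Q * u ^ ((j : ZMod p).val * k) * (φ Q)⁻¹) ∈ cl p a := by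
      have h8 := (hs Q k hk ((j : ZMod p).val * k)).2 (by
        push_cast
        rw [hval, mul_comm]
        intro h9
        exact hne (Units.ext (mul_left_cancel₀ hk h9)).symm)
      rw [conj_pow''] at h8
      exact h8
    have hGd := gk (φ Q) (h2 Q) _ hyk (φ Z) (h2 Z)
    obtain ⟨t, ht⟩ := crit c (cl_conj' hu (φ Z)) hyk hGd
    have main : ∀ X : A, (1 - θ ^ ((s X : ZMod p).val * k)) • X =
        (1 - θ ^ ((j : ZMod p).val * k)) • Q +
        (θ ^ ((j : ZMod p).val * k) - θ ^ ((s X : ZMod p).val * k)) • Z →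
        (t : ZMod p) = k * s X - k * j := by
      intro X hX
      set m1 := (k * (s X : ZMod p) - k * j).val with hm1
      have hm1' : (m1 : ZMod p) = k * s X - k * j := ZMod.natCast_zmod_val _
      have h8 := group_eq (p := p) (m1 := m1) h4 h5 h6 hup (by
        push_cast
        rw [hval, hval, hm1']
        ring) hX
      have h9 := hs X k hk ((s X : ZMod p).val * k)
      rw [conj_pow'', h8] at h9
      have h10 : ¬ (((s X : ZMod p).val * k : ℕ) : ZMod p) ≠ k * s X := by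
        push_cast
        rw [hval, mul_comm]
        simp
      rw [← not_iff_not] at h9
      have h11 := h9.2 h10
      have h12 := ht 1 (by simp) m1
      rw [pow_one, conj_pow''] at h12
      rw [← mul_assoc] at h11
      have h13 : ¬ ((m1 : ZMod p) ≠ (1 : ℕ) * t) := fun h => h11 (h12.2 h)
      push Not at h13
      rw [hm1'] at h13
      rw [h13]; simp
    have m1 := main P e1
    have m2 := main P' e2
    rw [m1] at m2
    have m3 : (k : ZMod p) * s P = k * s P' := by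
      have := sub_left_injective m2
      exact this
    exact n1 (Units.ext (mul_left_cancel₀ hk m3))
  obtain ⟨u1, u2, u3, u4⟩ := sys_units (p := p) c.ne_two h6 h7
  have S : Sys (fun i : (ZMod p)ˣ => θ ^ (i : ZMod p).val) s := by
    refine ⟨u1, u2, u3, u4, ?_, ?_⟩
    · intro P P' Q Z j n1 n2 n3 e1 e2
      have := line 1 (by simp) (by rw [pow_one]; exact g1) P P' Q Z j n1 n2 n3
      simp only [mul_one] at this
      exact this e1 e2
    · intro P P' Q Z j n1 n2 n3 e1 e2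
      have := line 2 two g2 P P' Q Z j n1 n2 n3
      simp only [pow_mul] at this
      exact this e1 e2
  have hJ : 3 ≤ Fintype.card (ZMod p)ˣ := exists_third_unit c
  have hev : Even (Fintype.card (ZMod p)ˣ) := by
    rw [ZMod.card_units]
    exact c.prime.even_sub_one c.ne_two
  refine ⟨s 0, ?_⟩
  intro g hg m
  obtain ⟨P, rfl⟩ := h3 g hg
  have h8 := hs P 1 (by simp) m
  rw [pow_one, conj_pow'', S.const hJ hev P 0] at h8
  simpa using h8

theorem tendsto_mul_right (h : G) : Tendsto (fun y : G => y * h) cofinite cofinite :=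
  (mul_left_injective h).tendsto_cofinite

theorem tendsto_conj (h : G) : Tendsto (fun y : G => h⁻¹ * y * h) cofinite cofinite := by
  apply Function.Injective.tendsto_cofinite
  intro x y hxy
  simpa using hxy

theorem Ct.ev (c : Ct p a) {u : G} (hu : u ∈ cl p a) :
    ∀ᶠ y in cofinite, y ∈ cl p a → Gd u y := by
  have h := c.good u hu
  rw [eventually_cofinite]
  refine h.subset ?_
  intro y hy
  simp only [Set.mem_ofPred_eq, Classical.not_imp] at hy
  exact hy

/-- the conjugates of powers of `u` by elements of `L` -/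
def Ws (u : G) (L : Subgroup G) : Set G := {w | ∃ Q ∈ L, ∃ j : ℕ, w = Q * u ^ j * Q⁻¹}

theorem Ws_finite (hp : p.Prime) {u : G} (hu : u ^ p = 1) {L : Subgroup G}
    (hL : (L : Set G).Finite) : (Ws u L).Finite := by
  have h1 : ((fun x : G × ℕ => x.1 * u ^ x.2 * x.1⁻¹) '' ((L : Set G) ×ˢ {j | j < p})).Finite :=
    (hL.prod (Set.finite_lt_nat p)).image _
  refine h1.subset ?_
  rintro _ ⟨Q, hQ, j, rfl⟩
  refine ⟨(Q, j % p), ⟨hQ, Nat.mod_lt _ hp.pos⟩, ?_⟩
  simp only
  rw [← pow_eq_pow_mod j hu]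

theorem ev_gen1 (c : Ct p a) {u : G} (hu : u ∈ cl p a) {L : Subgroup G} (hL : Krn u L) :
    ∀ᶠ y in cofinite, Gen1 p a u L y := by
  have h1 : ∀ᶠ y in cofinite, ∀ w ∈ Ws u L, ∀ Z ∈ (L : Set G), y * w ∈ cl p a →
      Gd (Z * u * Z⁻¹) (y * w) := by
    rw [Filter.eventually_all_finite (Ws_finite c.prime (c.pow_mem hu) hL.fin)]
    intro w _
    rw [Filter.eventually_all_finite hL.fin]
    intro Z _
    exact (tendsto_mul_right w).eventually (c.ev (cl_conj' hu Z))
  filter_upwards [h1] with y hy Q hQ j hj Z hZ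
  exact hy _ ⟨Q, hQ, j, rfl⟩ Z hZ hj

theorem ev_gen (c : Ct p a) {u : G} (hu : u ∈ cl p a) {L : Subgroup G} (hL : Krn u L) :
    ∀ᶠ y in cofinite, y ∈ cl p a → Gen1 p a u L y ∧ Gen1 p a u L (y ^ 2) := by
  have hF := Fact.mk c.prime
  have h1 := ev_gen1 c hu hL
  have two : ((2 : ℕ) : ZMod p) ≠ 0 := by
    rw [Ne, ZMod.natCast_eq_zero_iff]
    intro hd
    have := (Nat.prime_dvd_prime_iff_eq c.prime Nat.prime_two).1 hd
    exact c.ne_two this
  obtain ⟨m, _, _, hm⟩ := root.{v} c.prime two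
  have h2 : ∀ᶠ y in cofinite, y ∈ cl p a → Gen1 p a u L (y ^ 2) := by
    rw [eventually_cofinite] at h1 ⊢
    refine Set.Finite.of_finite_image (f := fun y => y ^ 2) (h1.subset ?_) ?_
    · rintro _ ⟨y, hy, rfl⟩
      simp only [Set.mem_ofPred_eq, Classical.not_imp] at hy ⊢
      exact hy.2
    · intro y hy z hz hyz
      simp only [Set.mem_ofPred_eq, Classical.not_imp] at hy hz
      simp only at hyz
      rw [← hm y (c.pow_mem hy.1), ← hm z (c.pow_mem hz.1), hyz]
  filter_upwards [h1, h2] with y a1 a2 hy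
  exact ⟨a1, a2 hy⟩

/-- kernels almost stabilise the class -/
theorem kernel_cl (c : Ct p a) {u : G} (hu : u ∈ cl p a) {L : Subgroup G} (hL : Krn u L) {l : G}
    (hl : l ∈ L) : ∀ᶠ y in cofinite, y ∈ cl p a → y * l ∈ cl p a := by
  have hF := Fact.mk c.prime
  have hup := c.pow_mem hu
  have hval : ∀ i : ZMod p, ((i.val : ℕ) : ZMod p) = i := fun i => ZMod.natCast_zmod_val _
  have h1 : ∀ᶠ y in cofinite, ∀ w ∈ Ws u L, y * w ∈ cl p a →
      Gen1 p a u L (y * w) ∧ Gen1 p a u L ((y * w) ^ 2) := by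
    rw [Filter.eventually_all_finite (Ws_finite c.prime hup hL.fin)]
    intro w _
    exact (tendsto_mul_right w).eventually (ev_gen c hu hL)
  filter_upwards [h1] with y h hy
  have hw1 : (1 : G) ∈ Ws u L := ⟨1, L.one_mem, 0, by simp⟩
  have h2 := h 1 hw1 (by simpa using hy)
  rw [mul_one] at h2
  obtain ⟨t0, ht0⟩ := const_label c hu hL hy h2.1 h2.2
  obtain ⟨j, hj, _⟩ := exists_third (exists_third_unit c) t0 t0
  set w := u ^ (j : ZMod p).val with hw
  have hwW : w ∈ Ws u L := ⟨1, L.one_mem, (j : ZMod p).val, by simp [hw]⟩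
  have hyw : y * w ∈ cl p a := by
    have := (ht0 1 L.one_mem (j : ZMod p).val).2 (by
      rw [hval]
      exact fun h => hj (Units.ext h))
    simpa [hw] using this
  have h3 := h w hwW hyw
  obtain ⟨t1, ht1⟩ := const_label c hu hL hyw h3.1 h3.2
  have et : (t1 : ZMod p) = t0 - j := by
    by_contra hne
    have h4 := (ht1 1 L.one_mem ((t0 : ZMod p) - j).val).2 (by rw [hval]; exact Ne.symm hne)
    have e : y * w * (1 * u ^ ((t0 : ZMod p) - j).val * 1⁻¹) =
        y * (1 * u ^ (t0 : ZMod p).val * 1⁻¹) := by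
      have e1 : u ^ (t0 : ZMod p).val = w * u ^ ((t0 : ZMod p) - j).val := by
        rw [hw, ← pow_add]
        apply pow_congr hup
        push_cast
        rw [hval, hval, hval]
        ring
      rw [e1]; group
    rw [e] at h4
    exact (ht0 1 L.one_mem (t0 : ZMod p).val).1 h4 (hval _)
  -- the element `w⁻¹ l`
  have hneg : (((-(j : ZMod p)).val : ℕ) : ZMod p) ≠ 0 := by
    rw [hval]; exact neg_ne_zero.2 j.ne_zero
  obtain ⟨m, hm, hm1⟩ := Krn.conj c.prime hup hL hneg hl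
  have hwi : u ^ (-(j : ZMod p)).val = w⁻¹ := by
    rw [eq_comm, inv_eq_iff_mul_eq_one, hw, ← pow_add]
    have : (((j : ZMod p).val + (-(j : ZMod p)).val : ℕ) : ZMod p) = ((0 : ℕ) : ZMod p) := by
      push_cast
      rw [hval, hval]
      ring
    rw [pow_congr hup this, pow_zero]
  have h5 := (ht1 m⁻¹ (L.inv_mem hm) (-(j : ZMod p)).val).2 (by
    rw [hval, et]
    intro h6
    have : (t0 : ZMod p) = 0 := by linear_combination -h6
    exact t0.ne_zero this)
  have e : y * w * (m⁻¹ * u ^ (-(j : ZMod p)).val * m⁻¹⁻¹) = y * l := by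
    rw [inv_inv, hm1, hwi]; group
  rwa [e] at h5

end Pool.Agent.MP_904310f.Lab
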