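import Pool.Agent.Lib_MP_904310_fr.Finite

/-!
# Local finiteness from an element of order three whose generic pairs are Frobenius groups
-/

set_option autoImplicit false

namespace Pool.Agent.MP_904310f

open Subgroup Filter

variable {G : Type*} [Group G]

/-- every finite subset of `N` generates a finite subgroup -/
def LFs (N : Subgroup G) : Prop :=
  ∀ s : Set G, s.Finite → s ⊆ (N : Set G) → ((closure s : Subgroup G) : Set G).Finite

/-- extension of a locally finite group by a finite group -/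
theorem LFs.of_relIndex {N K : Subgroup G} (hN : LFs N) (hNK : N.relIndex K ≠ 0) : LFs K := by
  intro s hs hsK
  set H : Subgroup G := closure s with hH
  have hHK : H ≤ K := (closure_le K).2 hsK
  have hfg : Group.FG H := (Group.fg_iff_subgroup_fg H).2 ((Subgroup.fg_iff H).2 ⟨s, rfl, hs⟩)
  have hidx : N.relIndex H ≠ 0 := fun h => hNK (Subgroup.relIndex_eq_zero_of_le_right hHK h)
  have hfi : (N.subgroupOf H).FiniteIndex := ⟨hidx⟩
  have hfg2 : Group.FG (N.subgroupOf H) := Subgroup.fg_of_index_ne_zero _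
  obtain ⟨t, ht, htf⟩ := (Subgroup.fg_iff _).1
    ((Group.fg_iff_subgroup_fg (N.subgroupOf H)).1 hfg2)
  have hmap : (N.subgroupOf H).map H.subtype = closure (H.subtype '' t) := by
    rw [← ht, MonoidHom.map_closure]
  have hfin : (((N.subgroupOf H).map H.subtype : Subgroup G) : Set G).Finite := by
    rw [hmap]
    refine hN _ (htf.image _) ?_
    rintro _ ⟨x, hx, rfl⟩
    have : x ∈ N.subgroupOf H := by rw [← ht]; exact subset_closure hx
    exact this
  have hfin2 : Finite (N.subgroupOf H) := by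
    have : (Subtype.val ⁻¹' (((N.subgroupOf H).map H.subtype : Subgroup G) : Set G) :
        Set H).Finite := hfin.preimage Subtype.val_injective.injOn
    have h2 : ((N.subgroupOf H : Subgroup H) : Set H).Finite := by
      refine this.subset ?_
      intro x hx
      exact ⟨x, hx, rfl⟩
    exact h2.to_subtype
  have : Finite H := by
    have h1 := Subgroup.card_mul_index (N.subgroupOf H)
    apply Nat.finite_of_card_ne_zero
    rw [← h1]
    exact mul_ne_zero Nat.card_pos.ne' hidx
  exact Set.toFinite _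

/-- `Fk a` is locally finite -/
theorem LFs_Fk {a : G} (c : Ctx a) (hX : (cls a).Infinite) : LFs (Fk a) := by
  intro s hs hsF
  -- torsion elements generating
  have h1 : ∃ T : Set G, T.Finite ∧ T ⊆ (Fk a : Set G) ∧ (∀ x ∈ T, IsOfFinOrder x) ∧
      s ⊆ ((closure T : Subgroup G) : Set G) := by
    induction s, hs using Set.Finite.induction_on with
    | empty => exact ⟨∅, Set.finite_empty, Set.empty_subset _, by simp, Set.empty_subset _⟩
    | @insert g s _ _ ih =>
      obtain ⟨T, h1, h2, h3, h4⟩ := ih ((Set.subset_insert _ _).trans hsF)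
      obtain ⟨k, hk, l, hl, hkt, hlt, hg⟩ := prod_tor c hX (hsF (Set.mem_insert g s))
      refine ⟨insert k (insert l T), (h1.insert l).insert k, ?_, ?_, ?_⟩
      · exact Set.insert_subset hk (Set.insert_subset hl h2)
      · intro x hx
        rcases hx with rfl | rfl | hx
        · exact hkt
        · exact hlt
        · exact h3 x hx
      · refine Set.insert_subset ?_ ?_
        · rw [hg]
          exact Subgroup.mul_mem _ (subset_closure (by simp)) (subset_closure (by simp))
        · refine h4.trans ?_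
          exact closure_mono ((Set.subset_insert l T).trans (Set.subset_insert k _))
  obtain ⟨T, h1, h2, h3, h4⟩ := h1
  have hTF : closure T ≤ Fk a := (closure_le _).2 h2
  have hfin : Finite (closure T) := by
    have h5 : ((Subtype.val : closure T → G) ⁻¹' T).Finite :=
      h1.preimage Subtype.val_injective.injOn
    obtain ⟨n, f, _, hf⟩ := h5.fin_param
    refine engel_finite n (closure T) f ?_ ?_ ?_
    · rw [hf]
      exact Subgroup.closure_closure_coe_preimage
    · intro i
      have h6 : f i ∈ (Subtype.val : closure T → G) ⁻¹' T := by rw [← hf]; exact ⟨i, rfl⟩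
      obtain ⟨m, hm, h⟩ := isOfFinOrder_iff_pow_eq_one.1 (h3 _ h6)
      exact isOfFinOrder_iff_pow_eq_one.2 ⟨m, hm, Subtype.ext (by simpa using h)⟩
    · intro i h
      have h7 := engel c hX (hTF (f i).2) (hTF h.2)
      exact Subtype.ext (by simpa using h7.eq)
  have h8 : closure s ≤ closure T := (closure_le _).2 h4
  exact (Set.toFinite ((closure T : Subgroup G) : Set G)).subset h8

/-- finite index of `Fk a` -/
theorem Fk_index {a : G} (c : Ctx a) (hX : (cls a).Infinite)
    (hC : ((centralizer ({a} : Set G) : Subgroup G) : Set G).Finite)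
    (hbad : {g : G | ¬ Good a (g⁻¹ * a * g)}.Finite) : (Fk a).relIndex ⊤ ≠ 0 := by
  have ha := self_mem a
  have key : ∀ g : G, a⁻¹ * (g⁻¹ * a * g) ∈ Fk a →
      ∃ z ∈ centralizer ({a} : Set G), ∃ f ∈ Fk a, g = z * f := by
    intro g hg
    have hev : ∀ᶠ f in cofinite, f ∈ Fk a → Good a ((g * f)⁻¹ * a * (g * f)) := by
      have h1 : ∀ᶠ g in cofinite, Good a (g⁻¹ * a * g) := by
        rw [eventually_cofinite]; exact hbad
      have h2 : Tendsto (fun f : G => g * f) cofinite cofinite :=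
        (mul_right_injective g).tendsto_cofinite
      filter_upwards [h2.eventually h1] with f hf _
      exact hf
    obtain ⟨f, hf, hG⟩ := exists_Fk c hX hev
    have hmem : a⁻¹ * ((g * f)⁻¹ * a * (g * f)) ∈ Fk a := by
      rw [← QuotientGroup.eq_one_iff (N := Fk a)] at hg hf ⊢
      simp only [QuotientGroup.mk_mul, QuotientGroup.mk_inv] at hg ⊢
      rw [hf, mul_one]
      exact hg
    obtain ⟨L, hL, hl⟩ := hG.plus c hX ha hmem
    obtain ⟨m, hm, hm1⟩ := hL.conj hl
    have hm2 : m⁻¹ * a * m = (g * f)⁻¹ * a * (g * f) := by rw [hm1]; group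
    have c1 : Commute a (g * f * m⁻¹) := by
      have h8 := congrArg (fun t => (g * f) * t * m⁻¹) hm2
      change a * (g * f * m⁻¹) = g * f * m⁻¹ * a
      have h9 : (g * f) * (m⁻¹ * a * m) * m⁻¹ = g * f * m⁻¹ * a := by group
      have h10 : (g * f) * ((g * f)⁻¹ * a * (g * f)) * m⁻¹ = a * (g * f * m⁻¹) := by group
      rw [← h9, ← h10]
      exact h8.symm
    refine ⟨g * f * m⁻¹, ?_, m * f⁻¹, (Fk a).mul_mem (hL.le_Fk ha hm) ((Fk a).inv_mem hf), ?_⟩
    · rw [mem_centralizer_singleton_iff]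
      exact c1.eq.symm
    · group
  have hfinq : Finite (G ⧸ Fk a) := by
    rw [← Set.finite_univ_iff]
    by_cases hg0 : ∃ g0 : G, a * (g0⁻¹ * a * g0) ∈ Fk a
    · obtain ⟨g0, hg0⟩ := hg0
      refine ((hC.image (fun z : G => (z : G ⧸ Fk a))).union
        (hC.image (fun z : G => ((z * g0 : G) : G ⧸ Fk a)))).subset ?_
      intro q _
      obtain ⟨g, rfl⟩ := QuotientGroup.mk_surjective q
      rcases mod_eq c hX ha (cls_conj ha g) with h | h
      · obtain ⟨z, hz, f, hf, rfl⟩ := key g h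
        left
        refine ⟨z, hz, ?_⟩
        simp only
        rw [QuotientGroup.mk_mul, (QuotientGroup.eq_one_iff f).2 hf, mul_one]
      · have h' : a⁻¹ * ((g * g0⁻¹)⁻¹ * a * (g * g0⁻¹)) ∈ Fk a := by
          rw [← QuotientGroup.eq_one_iff (N := Fk a)] at h hg0 ⊢
          simp only [QuotientGroup.mk_mul, QuotientGroup.mk_inv] at h hg0 ⊢
          generalize (a : G ⧸ Fk a) = A at *
          generalize (g : G ⧸ Fk a) = B at *
          generalize (g0 : G ⧸ Fk a) = C at *
          have e1 : B⁻¹ * A * B = A⁻¹ := eq_inv_of_mul_eq_one_right h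
          have e2 : C⁻¹ * A * C = A⁻¹ := eq_inv_of_mul_eq_one_right hg0
          have e3 : C * A⁻¹ * C⁻¹ = A := by rw [← e2]; group
          have e4 : (B * C⁻¹)⁻¹ * A * (B * C⁻¹) = C * (B⁻¹ * A * B) * C⁻¹ := by group
          rw [e4, e1, e3, inv_mul_cancel]
        obtain ⟨z, hz, f, hf, hzf⟩ := key _ h'
        right
        refine ⟨z, hz, ?_⟩
        simp only
        have e5 : g = z * f * g0 := by rw [← hzf]; group
        rw [e5, QuotientGroup.mk_mul, QuotientGroup.mk_mul, QuotientGroup.mk_mul,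
          (QuotientGroup.eq_one_iff f).2 hf, mul_one]
    · refine (hC.image (fun z : G => (z : G ⧸ Fk a))).subset ?_
      intro q _
      obtain ⟨g, rfl⟩ := QuotientGroup.mk_surjective q
      rcases mod_eq c hX ha (cls_conj ha g) with h | h
      · obtain ⟨z, hz, f, hf, rfl⟩ := key g h
        refine ⟨z, hz, ?_⟩
        simp only
        rw [QuotientGroup.mk_mul, (QuotientGroup.eq_one_iff f).2 hf, mul_one]
      · exact (hg0 ⟨g, h⟩).elim
  have hfi : (Fk a).FiniteIndex := Subgroup.finiteIndex_of_finite_quotient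
  rw [Subgroup.relIndex_top_right]
  exact hfi.index_ne_zero

theorem Good.inv_right {u y : G} (h : Good u y) : Good u y⁻¹ := by
  obtain ⟨L, hL, h | h⟩ := h
  · refine ⟨L, hL, Or.inr ?_⟩
    have h1 := hL.inv' _ (L.inv_mem h)
    have e : u * (u⁻¹ * y)⁻¹ * u⁻¹ = u * y⁻¹ := by group
    rwa [e] at h1
  · refine ⟨L, hL, Or.inl ?_⟩
    have h1 := hL.inv _ (L.inv_mem h)
    have e : u⁻¹ * (u * y)⁻¹ * u = u⁻¹ * y⁻¹ := by group
    rwa [e] at h1

theorem Good.inv_left {u y : G} (h : Good u y) : Good u⁻¹ y := by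
  obtain ⟨L, hL, h⟩ := h
  refine ⟨L, ⟨⟨hL.fin, ?_, ?_⟩, hL.com⟩, ?_⟩
  · intro l hl; rw [inv_inv]; exact hL.inv' l hl
  · intro l hl hc
    exact hL.fpf l hl (by simpa using hc.inv_left)
  · rw [inv_inv]; exact h.symm

theorem Good.conj {u y : G} (h : Good u y) (k : G) : Good (k⁻¹ * u * k) (k⁻¹ * y * k) := by
  obtain ⟨L, hL, h⟩ := h
  set φ := MulAut.conj k⁻¹ with hφ
  have hφe : ∀ x, φ x = k⁻¹ * x * k := fun x => by rw [hφ]; simp
  have hmem : ∀ x, x ∈ L → k⁻¹ * x * k ∈ L.map φ.toMonoidHom := fun x hx =>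
    ⟨x, hx, hφe x⟩
  have hmem' : ∀ z, z ∈ L.map φ.toMonoidHom → ∃ x ∈ L, z = k⁻¹ * x * k := by
    rintro _ ⟨x, hx, rfl⟩
    exact ⟨x, hx, hφe x⟩
  refine ⟨L.map φ.toMonoidHom, ⟨⟨?_, ?_, ?_⟩, ?_⟩, ?_⟩
  · rw [Subgroup.coe_map]; exact hL.fin.image _
  · intro z hz
    obtain ⟨x, hx, rfl⟩ := hmem' z hz
    have e : (k⁻¹ * u * k)⁻¹ * (k⁻¹ * x * k) * (k⁻¹ * u * k) = k⁻¹ * (u⁻¹ * x * u) * k := by group
    rw [e]; exact hmem _ (hL.inv x hx)
  · intro z hz hc
    obtain ⟨x, hx, rfl⟩ := hmem' z hz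
    have hc2 : Commute u x := by
      have h1 := hc.eq
      have h2 := congrArg (fun t => k * t * k⁻¹) h1
      change u * x = x * u
      have e1 : k * (k⁻¹ * u * k * (k⁻¹ * x * k)) * k⁻¹ = u * x := by group
      have e2 : k * (k⁻¹ * x * k * (k⁻¹ * u * k)) * k⁻¹ = x * u := by group
      rw [← e1, ← e2]; exact h2
    rw [hL.fpf x hx hc2]; simp
  · intro z hz w hw
    obtain ⟨x, hx, rfl⟩ := hmem' z hz
    obtain ⟨x', hx', rfl⟩ := hmem' w hw
    change k⁻¹ * x * k * (k⁻¹ * x' * k) = k⁻¹ * x' * k * (k⁻¹ * x * k)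
    have e1 : k⁻¹ * x * k * (k⁻¹ * x' * k) = k⁻¹ * (x * x') * k := by group
    have e2 : k⁻¹ * x' * k * (k⁻¹ * x * k) = k⁻¹ * (x' * x) * k := by group
    rw [e1, e2, (hL.com x hx x' hx').eq]
  · rcases h with h | h
    · left
      have e : (k⁻¹ * u * k)⁻¹ * (k⁻¹ * y * k) = k⁻¹ * (u⁻¹ * y) * k := by group
      rw [e]; exact hmem _ h
    · right
      have e : (k⁻¹ * u * k) * (k⁻¹ * y * k) = k⁻¹ * (u * y) * k := by group
      rw [e]; exact hmem _ h

/-- main theorem, local form -/
theorem main (a : G) (ha3 : a ^ 3 = 1) (hane : a ≠ 1)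
    (hC : ((centralizer ({a} : Set G) : Subgroup G) : Set G).Finite)
    (hbad : {g : G | ¬ ∃ L : Subgroup G, Fpf a L ∧
      (a⁻¹ * (g⁻¹ * a * g) ∈ L ∨ a * (g⁻¹ * a * g) ∈ L)}.Finite)
    (s : Set G) (hs : s.Finite) : ((closure s : Subgroup G) : Set G).Finite := by
  have hbad' : {g : G | ¬ Good a (g⁻¹ * a * g)}.Finite := by
    refine hbad.subset ?_
    intro g hg h
    apply hg
    obtain ⟨L, hL, h | h⟩ := h
    · obtain ⟨A, hA, hA'⟩ := hL.toKrn ha3 h
      exact ⟨A, hA, Or.inl hA'⟩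
    · obtain ⟨A, hA, hA'⟩ := hL.toKrn ha3 h
      exact ⟨A, hA, Or.inr hA'⟩
  have ctx : Ctx a := by
    refine ⟨ha3, hane, ?_⟩
    have base : ∀ k : G, {y | y ∈ cls a ∧ ¬ Good (k⁻¹ * a * k) y}.Finite := by
      intro k
      refine ((hbad'.image (fun h => k⁻¹ * (h⁻¹ * a * h) * k)).union
        (hbad'.image (fun h => k⁻¹ * (h⁻¹ * a * h)⁻¹ * k))).subset ?_
      rintro y ⟨⟨g, rfl | rfl⟩, hy⟩
      · left
        refine ⟨g * k⁻¹, ?_, by simp only; group⟩
        intro h
        apply hy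
        have h1 := h.conj k
        have e : k⁻¹ * ((g * k⁻¹)⁻¹ * a * (g * k⁻¹)) * k = g⁻¹ * a * g := by group
        rwa [e] at h1
      · right
        refine ⟨g * k⁻¹, ?_, by simp only; group⟩
        intro h
        apply hy
        have h1 := (h.conj k).inv_right
        have e : (k⁻¹ * ((g * k⁻¹)⁻¹ * a * (g * k⁻¹)) * k)⁻¹ = g⁻¹ * a⁻¹ * g := by group
        rwa [e] at h1
    rintro u ⟨k, rfl | rfl⟩
    · exact base k
    · refine (base k).subset ?_
      rintro y ⟨hy, h⟩
      refine ⟨hy, fun hg => h ?_⟩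
      have h1 := hg.inv_left
      have e : (k⁻¹ * a * k)⁻¹ = k⁻¹ * a⁻¹ * k := by group
      rwa [e] at h1
  by_cases hX : (cls a).Infinite
  · have h1 := LFs_Fk ctx hX
    have h2 := h1.of_relIndex (Fk_index ctx hX hC hbad')
    exact h2 s hs (fun _ _ => trivial)
  · rw [Set.not_infinite] at hX
    have huniv : (Set.univ : Set G).Finite := by
      refine Set.Finite.of_finite_fibers (fun g : G => g⁻¹ * a * g) (hX.subset ?_) ?_
      · rintro _ ⟨g, _, rfl⟩
        exact ⟨g, Or.inl rfl⟩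
      · rintro _ ⟨g, _, rfl⟩
        refine (hC.image (fun z => z * g)).subset ?_
        rintro h ⟨_, hh⟩
        have hh : h⁻¹ * a * h = g⁻¹ * a * g := hh
        refine ⟨h * g⁻¹, ?_, by simp⟩
        change h * g⁻¹ ∈ centralizer ({a} : Set G)
        rw [mem_centralizer_singleton_iff]
        have h8 := congrArg (fun t => h * t * g⁻¹) hh
        have h9 : h * (h⁻¹ * a * h) * g⁻¹ = a * (h * g⁻¹) := by group
        have h10 : h * (g⁻¹ * a * g) * g⁻¹ = h * g⁻¹ * a := by group
        rw [← h9, ← h10]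
        exact h8.symm
    exact huniv.subset (Set.subset_univ _)

end Pool.Agent.MP_904310f
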