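import Pool.Agent.Lib_MP_904310_fr.Stab2
import Pool.Agent.Lib_MP_904310_fr.AbelF

/-!
# Local finiteness from an element of prime order at least five
-/

set_option autoImplicit false

namespace Pool.Agent.MP_904310f.Lab

open Subgroup Filter

open Pool.Agent.MP_904310f (Fpf Krn LFs)

universe v

variable {G : Type v} [Group G] {p : ℕ} {a : G}

theorem Gd.pow_right {u y : G} (h : Gd u y) (k : ℕ) : Gd u (y ^ k) := by
  obtain ⟨L, hL, i, hi⟩ := h
  refine ⟨L, hL, i * k, ?_⟩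
  induction k with
  | zero => simp
  | succ k ih =>
    have e : (u ^ (i * (k + 1)))⁻¹ * y ^ (k + 1) =
        ((u ^ i)⁻¹ * ((u ^ (i * k))⁻¹ * y ^ k) * u ^ i) * ((u ^ i)⁻¹ * y) := by
      rw [mul_add, mul_one, pow_add, pow_succ]; group
    rw [e]
    exact L.mul_mem (Krn.powc hL i ih) hi

theorem Gd.pow_left (hp : p.Prime) {u y : G} (hu : u ^ p = 1) (h : Gd u y) {j : ℕ}
    (hj : (j : ZMod p) ≠ 0) : Gd (u ^ j) y := by
  obtain ⟨L, hL, i, hi⟩ := h
  obtain ⟨m, _, _, hm⟩ := root.{v} hp hj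
  refine ⟨L, Krn.pow hp hu hL hj, m * i, ?_⟩
  rw [pow_mul, hm u hu]
  exact hi

theorem Gd.conj {u y : G} (h : Gd u y) (k : G) : Gd (k⁻¹ * u * k) (k⁻¹ * y * k) := by
  obtain ⟨L, hL, i, h⟩ := h
  set φ := MulAut.conj k⁻¹ with hφ
  have hφe : ∀ x, φ x = k⁻¹ * x * k := fun x => by rw [hφ]; simp
  have hmem : ∀ x, x ∈ L → k⁻¹ * x * k ∈ L.map φ.toMonoidHom := fun x hx =>
    ⟨x, hx, hφe x⟩
  have hmem' : ∀ z, z ∈ L.map φ.toMonoidHom → ∃ x ∈ L, z = k⁻¹ * x * k := by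
    rintro _ ⟨x, hx, rfl⟩
    exact ⟨x, hx, hφe x⟩
  refine ⟨L.map φ.toMonoidHom, ⟨⟨?_, ?_, ?_⟩, ?_⟩, i, ?_⟩
  · rw [Subgroup.coe_map]; exact hL.fin.image _
  · intro z hz
    obtain ⟨x, hx, rfl⟩ := hmem' z hz
    have e : (k⁻¹ * u * k)⁻¹ * (k⁻¹ * x * k) * (k⁻¹ * u * k) = k⁻¹ * (u⁻¹ * x * u) * k := by group
    rw [e]; exact hmem _ (hL.inv x hx)
  · intro z hz hc
    obtain ⟨x, hx, rfl⟩ := hmem' z hz
    have hc2 : Commute u x := by
      have h1 := hc.eq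
      have h2 := congrArg (fun t => k * t * k⁻¹) h1
      change u * x = x * u
      have e1 : k * (k⁻¹ * u * k * (k⁻¹ * x * k)) * k⁻¹ = u * x := by group
      have e2 : k * (k⁻¹ * x * k * (k⁻¹ * u * k)) * k⁻¹ = x * u := by group
      rw [← e1, ← e2]; exact h2
    rw [hL.fpf x hx hc2]; simp
  · intro z hz w hw
    obtain ⟨x, hx, rfl⟩ := hmem' z hz
    obtain ⟨x', hx', rfl⟩ := hmem' w hw
    change k⁻¹ * x * k * (k⁻¹ * x' * k) = k⁻¹ * x' * k * (k⁻¹ * x * k)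
    have e1 : k⁻¹ * x * k * (k⁻¹ * x' * k) = k⁻¹ * (x * x') * k := by group
    have e2 : k⁻¹ * x' * k * (k⁻¹ * x * k) = k⁻¹ * (x' * x) * k := by group
    rw [e1, e2, (hL.com x hx x' hx').eq]
  · have e : ((k⁻¹ * u * k) ^ i)⁻¹ * (k⁻¹ * y * k) = k⁻¹ * ((u ^ i)⁻¹ * y) * k := by
      rw [conj_pow']; group
    rw [e]; exact hmem _ h

theorem ct_of (hp : p.Prime) (h5 : 5 ≤ p) (hap : a ^ p = 1) (ha1 : a ≠ 1)
    (hbad : {g : G | ¬ Gd a (g⁻¹ * a * g)}.Finite) : Ct p a := by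
  refine ⟨hp, h5, hap, ha1, ?_⟩
  rintro _ ⟨k, j, hj, rfl⟩
  have hfin : ((fun z : G × ℕ => k⁻¹ * (z.1⁻¹ * a ^ z.2 * z.1) * k) ''
      ({g : G | ¬ Gd a (g⁻¹ * a * g)} ×ˢ {i : ℕ | i < p})).Finite :=
    (hbad.prod (Set.finite_lt_nat p)).image _
  refine hfin.subset ?_
  rintro _ ⟨⟨h, i, hi, rfl⟩, hy⟩
  refine ⟨(h * k⁻¹, i % p), ⟨?_, Nat.mod_lt _ hp.pos⟩, ?_⟩
  · intro hg
    apply hy
    have h1 : Gd (k⁻¹ * a * k) (h⁻¹ * a * h) := by
      have h1 := Gd.conj hg k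
      have e : k⁻¹ * ((h * k⁻¹)⁻¹ * a * (h * k⁻¹)) * k = h⁻¹ * a * h := by group
      rwa [e] at h1
    have hu : (k⁻¹ * a * k) ^ p = 1 := by rw [conj_pow', hap]; simp
    have h2 := Gd.pow_left hp hu (h1.pow_right i) hj
    rwa [conj_pow', conj_pow'] at h2
  · simp only
    rw [← pow_eq_pow_mod i hap]
    group

/-- main theorem for primes at least five -/
theorem mainP (hp : p.Prime) (h5 : 5 ≤ p) (hap : a ^ p = 1) (ha1 : a ≠ 1)
    (hC : ((centralizer ({a} : Set G) : Subgroup G) : Set G).Finite)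
    (hbad : {g : G | ¬ Gd a (g⁻¹ * a * g)}.Finite)
    (s : Set G) (hs : s.Finite) : ((closure s : Subgroup G) : Set G).Finite := by
  have c := ct_of hp h5 hap ha1 hbad
  have hF := Fact.mk hp
  by_cases hX : (cl p a).Infinite
  · have hk0 : ∀ᶠ k in cofinite, k ∈ Fk p a → Ab.K0 a k := by
      filter_upwards [ev_ker c hX hbad] with k hk hkF
      obtain ⟨L, hL, h⟩ := hk hkF
      exact ⟨L, hL.toFpf, hL.com, h⟩
    have h1 : LFs (Fk p a) := Ab.LFs_F hp hap (Fk_normal p a) (infinite_Fk c hX) hk0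
    have h2 := Fk_index c hX hC hbad
    have h3 : (Fk p a).relIndex ⊤ ≠ 0 := by
      rw [Subgroup.relIndex_top_right]
      exact h2.index_ne_zero
    exact h1.of_relIndex h3 s hs (fun _ _ => trivial)
  · rw [Set.not_infinite] at hX
    have huniv : (Set.univ : Set G).Finite := by
      refine Set.Finite.of_finite_fibers (fun g : G => g⁻¹ * a * g) (hX.subset ?_) ?_
      · rintro _ ⟨g, _, rfl⟩
        exact ⟨g, 1, by simp, by simp⟩
      · rintro _ ⟨g, _, rfl⟩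
        refine (hC.image (fun z => z * g)).subset ?_
        rintro h ⟨_, hh⟩
        have hh : h⁻¹ * a * h = g⁻¹ * a * g := hh
        refine ⟨h * g⁻¹, ?_, by simp⟩
        change h * g⁻¹ ∈ centralizer ({a} : Set G)
        rw [mem_centralizer_singleton_iff]
        have h8 := congrArg (fun t => h * t * g⁻¹) hh
        have h9 : h * (h⁻¹ * a * h) * g⁻¹ = a * (h * g⁻¹) := by group
        have h10 : h * (g⁻¹ * a * g) * g⁻¹ = h * g⁻¹ * a := by group
        rw [← h9, ← h10]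
        exact h8.symm
    exact huniv.subset (Set.subset_univ _)

end Pool.Agent.MP_904310f.Lab
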