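import Pool.Agent.Lib_MP_904310_fr.Label

/-!
# Finite metabelian groups generated by two elements of prime order, one self-centralising
-/

set_option autoImplicit false

namespace Pool.Agent.MP_904310f.Lab

open Subgroup

open scoped commutatorElement

universe v

/-- the commutator subgroup has index `p` and does not contain `A` -/
theorem comm_index {K : Type v} [Group K] [Finite K] [Group.IsSolvable K] {p : ℕ} (hp : p.Prime)
    (A B : K) (hA : A ^ p = 1)
    (hA1 : A ≠ 1) (hB : B ^ p = 1) (hgen : closure ({A, B} : Set K) = ⊤)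
    (hc : ∀ x : K, x * A = A * x → x ∈ zpowers A) :
    (commutator K).index = p ∧ A ∉ commutator K := by
  have hne : Nontrivial K := ⟨A, 1, hA1⟩
  have hFp : Fact p.Prime := ⟨hp⟩
  have hordA : orderOf A = p := orderOf_eq_prime hA hA1
  -- the centraliser of `A`
  set C := centralizer ({A} : Set K) with hCdef
  have hCe : C = zpowers A := by
    apply le_antisymm
    · intro x hx
      rw [hCdef, mem_centralizer_singleton_iff] at hx
      exact hc x hx
    · rw [zpowers_le, hCdef, mem_centralizer_singleton_iff]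
  have hcardC : Nat.card C = p := by
    rw [hCe, Nat.card_zpowers, hordA]
  have hmem : ∀ k : K, A⁻¹ * (k * A * k⁻¹) ∈ commutator K := by
    intro k
    have h1 := commutator_mem_commutator (mem_top A⁻¹ : A⁻¹ ∈ (⊤ : Subgroup K))
      (mem_top k : k ∈ (⊤ : Subgroup K))
    have e : ⁅A⁻¹, k⁆ = A⁻¹ * (k * A * k⁻¹) := by
      rw [commutatorElement_def]; group
    rw [e] at h1
    exact h1
  let f : K ⧸ C → commutator K := Quotient.lift (s := QuotientGroup.leftRel C)
    (fun k => ⟨A⁻¹ * (k * A * k⁻¹), hmem k⟩) (by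
      intro x y hxy
      have h1 : x⁻¹ * y ∈ C := QuotientGroup.leftRel_apply.1 hxy
      rw [hCdef, mem_centralizer_singleton_iff] at h1
      apply Subtype.ext
      simp only
      have h2 : x * A * x⁻¹ = y * A * y⁻¹ := by
        have h3 := congrArg (fun t => x * t * y⁻¹) h1
        have e1 : x * (x⁻¹ * y * A) * y⁻¹ = y * A * y⁻¹ := by group
        have e2 : x * (A * (x⁻¹ * y)) * y⁻¹ = x * A * x⁻¹ := by group
        rw [← e1, ← e2]
        exact h3.symm
      rw [h2])
  have hf : Function.Injective f := by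
    intro p q hpq
    obtain ⟨x, rfl⟩ := QuotientGroup.mk_surjective p
    obtain ⟨y, rfl⟩ := QuotientGroup.mk_surjective q
    have h1 : A⁻¹ * (x * A * x⁻¹) = A⁻¹ * (y * A * y⁻¹) := congrArg Subtype.val hpq
    have h2 : x * A * x⁻¹ = y * A * y⁻¹ := mul_left_cancel h1
    rw [QuotientGroup.eq, hCdef, mem_centralizer_singleton_iff]
    have h3 := congrArg (fun t => x⁻¹ * t * y) h2
    have e1 : x⁻¹ * (x * A * x⁻¹) * y = A * (x⁻¹ * y) := by group
    have e2 : x⁻¹ * (y * A * y⁻¹) * y = x⁻¹ * y * A := by group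
    rw [← e1, ← e2]
    exact h3.symm
  have hle : C.index ≤ Nat.card (commutator K) := Nat.card_le_card_of_injective f hf
  have h1 := C.card_mul_index
  have h2 := (commutator K).card_mul_index
  rw [hcardC] at h1
  have hpos : 0 < Nat.card (commutator K) := Nat.card_pos
  have hidx : (commutator K).index ≤ p := by
    by_contra hcon
    push Not at hcon
    have h3 : Nat.card (commutator K) * (p + 1) ≤
        Nat.card (commutator K) * (commutator K).index :=
      Nat.mul_le_mul_left _ hcon
    rw [h2, ← h1] at h3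
    have h4 : p * C.index ≤ p * Nat.card (commutator K) := Nat.mul_le_mul_left _ hle
    have h5 : Nat.card (commutator K) * (p + 1) =
        p * Nat.card (commutator K) + Nat.card (commutator K) := by ring
    omega
  have hD : commutator K ≠ ⊤ := (Group.IsSolvable.commutator_lt_top_of_nontrivial K).ne
  have hcardq : Nat.card (K ⧸ commutator K) = (commutator K).index := rfl
  have hdvd : ∀ X : K, X ^ p = 1 → X ∉ commutator K → p ∣ (commutator K).index := by
    intro X hX hXn
    have h3 : ((X : K) : K ⧸ commutator K) ≠ 1 := fun h => hXn ((QuotientGroup.eq_one_iff X).1 h)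
    have h4 : ((X : K) : K ⧸ commutator K) ^ p = 1 := by
      rw [← QuotientGroup.mk_pow, hX]; rfl
    have h5 := orderOf_eq_prime h4 h3
    rw [← h5, ← hcardq]
    exact orderOf_dvd_natCard _
  have hidxpos : 0 < (commutator K).index := Nat.pos_of_ne_zero index_ne_zero_of_finite
  have hip : (commutator K).index = p := by
    have h3 : p ∣ (commutator K).index := by
      by_cases hAn : A ∈ commutator K
      · by_cases hBn : B ∈ commutator K
        · exfalso
          apply hD
          rw [eq_top_iff, ← hgen, closure_le]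
          intro x hx
          rcases hx with rfl | hx
          · exact hAn
          · rw [Set.mem_singleton_iff.1 hx]; exact hBn
        · exact hdvd B hB hBn
      · exact hdvd A hA hAn
    exact le_antisymm hidx (Nat.le_of_dvd hidxpos h3)
  refine ⟨hip, fun hAD => ?_⟩
  have hcard : C.index = Nat.card (commutator K) := by
    rw [hip] at h2
    have h3 : p * C.index = p * Nat.card (commutator K) := by rw [h1, ← h2]; ring
    exact Nat.eq_of_mul_eq_mul_left hp.pos h3
  have hsurj : Function.Surjective f := by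
    have : Finite (K ⧸ C) := inferInstance
    exact ((Nat.bijective_iff_injective_and_card f).2 ⟨hf, hcard⟩).2
  obtain ⟨q, hq⟩ := hsurj ⟨A⁻¹, inv_mem hAD⟩
  obtain ⟨x, rfl⟩ := QuotientGroup.mk_surjective q
  have h7 : A⁻¹ * (x * A * x⁻¹) = A⁻¹ := congrArg Subtype.val hq
  have h8 : x * A * x⁻¹ = 1 := by
    have := mul_left_cancel (h7.trans (mul_one A⁻¹).symm)
    exact this
  apply hA1
  have h9 : A = x⁻¹ * (x * A * x⁻¹) * x := by group
  rw [h9, h8]; simp

theorem metab_pair {G : Type v} [Group G] {p : ℕ} (hp : p.Prime) (a b : G)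
    (ha : a ^ p = 1) (ha1 : a ≠ 1)
    (hb : b ^ p = 1)
    (hfin : ((closure ({a, b} : Set G) : Subgroup G) : Set G).Finite)
    (hm : derivedSeries (closure ({a, b} : Set G)) 2 = ⊥)
    (hc : ∀ c ∈ closure ({a, b} : Set G), c * a = a * c → c ∈ zpowers a) : Gd a b := by
  set K := closure ({a, b} : Set G) with hK
  have hFp : Fact p.Prime := ⟨hp⟩
  have hsol : Group.IsSolvable K := ⟨⟨2, hm⟩⟩
  have haK : a ∈ K := subset_closure (by simp)
  have hbK : b ∈ K := subset_closure (by simp)
  have hfK : Finite K := hfin.to_subtype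
  set A : K := ⟨a, haK⟩ with hA
  set B : K := ⟨b, hbK⟩ with hB
  have hA3 : A ^ p = 1 := Subtype.ext ha
  have hB3 : B ^ p = 1 := Subtype.ext hb
  have hA1 : A ≠ 1 := fun h => ha1 (congrArg Subtype.val h)
  have hgen : closure ({A, B} : Set K) = ⊤ := by
    have h1 := Subgroup.closure_closure_coe_preimage (k := ({a, b} : Set G))
    have h2 : ((↑) ⁻¹' ({a, b} : Set G) : Set K) = {A, B} := by
      ext x
      simp [hA, hB, Subtype.ext_iff]
    rw [← h2]
    exact h1
  have hcK : ∀ x : K, x * A = A * x → x ∈ zpowers A := by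
    intro x hx
    obtain ⟨n, hn⟩ := hc x x.2 (congrArg Subtype.val hx)
    exact ⟨n, Subtype.ext (by simpa using hn)⟩
  obtain ⟨hi, hAD⟩ := comm_index hp A B hA3 hA1 hB3 hgen hcK
  set L := (commutator K).map K.subtype with hL
  have hLK : ∀ x ∈ L, ∃ y : K, y ∈ commutator K ∧ (y : G) = x := by
    rintro _ ⟨y, hy, rfl⟩
    exact ⟨y, hy, rfl⟩
  have hKL : ∀ y : K, y ∈ commutator K → (y : G) ∈ L := fun y hy => ⟨y, hy, rfl⟩
  have hLfin : (L : Set G).Finite := by
    refine hfin.subset ?_
    rintro _ ⟨y, _, rfl⟩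
    exact y.2
  have hn : (commutator K).Normal := inferInstance
  have hF : Krn a L := by
    refine ⟨⟨hLfin, ?_, ?_⟩, ?_⟩
    · intro l hl
      obtain ⟨y, hy, rfl⟩ := hLK l hl
      have h1 := hn.conj_mem y hy A⁻¹
      have h2 := hKL _ h1
      have e : ((A⁻¹ * y * A⁻¹⁻¹ : K) : G) = a⁻¹ * y * a := by simp [hA]
      rwa [e] at h2
    · intro l hl hcom
      obtain ⟨y, hy, rfl⟩ := hLK l hl
      have h1 : y ∈ zpowers A := hcK y (Subtype.ext hcom.eq.symm)
      by_contra hne
      apply hAD
      have hy1 : y ≠ 1 := fun h => hne (by rw [h]; rfl)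
      obtain ⟨n, hn⟩ := mem_powers_iff_mem_zpowers.2 h1
      have hn' : A ^ n = y := hn
      have hn0 : (n : ZMod p) ≠ 0 := by
        intro h0
        apply hy1
        have : (n : ZMod p) = ((0 : ℕ) : ZMod p) := by rw [h0]; simp
        rw [← hn', pow_congr hA3 this, pow_zero]
      obtain ⟨m, _, _, hm⟩ := root.{v} hp hn0
      rw [← hm A hA3, hn']
      exact (commutator K).pow_mem hy m
    · intro x hx y hy
      obtain ⟨x, hx', rfl⟩ := hLK x hx
      obtain ⟨y, hy', rfl⟩ := hLK y hy
      have h1 : ⁅x, y⁆ ∈ derivedSeries K 2 := by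
        rw [derivedSeries_succ, derivedSeries_succ, derivedSeries_zero]
        exact commutator_mem_commutator hx' hy'
      rw [hm, mem_bot, commutatorElement_eq_one_iff_mul_comm] at h1
      exact congrArg Subtype.val h1
  have hcardq : Nat.card (K ⧸ commutator K) = p := hi
  have hAq : ((A : K) : K ⧸ commutator K) ≠ 1 := fun h => hAD ((QuotientGroup.eq_one_iff A).1 h)
  have hz : ((B : K) : K ⧸ commutator K) ∈ zpowers ((A : K) : K ⧸ commutator K) :=
    mem_zpowers_of_prime_card hcardq hAq
  obtain ⟨n, hn1⟩ := mem_powers_iff_mem_zpowers.2 hz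
  have hn' : ((A : K) : K ⧸ commutator K) ^ n = ((B : K) : K ⧸ commutator K) := hn1
  refine ⟨L, hF, n, ?_⟩
  rw [← QuotientGroup.mk_pow, QuotientGroup.eq] at hn'
  exact hKL _ hn'

end Pool.Agent.MP_904310f.Lab
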