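import Pool.Agent.Lib_MP_904310_fr.MetabP

/-!
# Finite metabelian groups generated by two elements of prime order, one of which commutes with
no other subgroup of that order
-/

set_option autoImplicit false

namespace Pool.Agent.MP_904310f.Lab

open Subgroup

open scoped commutatorElement

universe v

section

variable {K : Type v} [Group K] [Finite K] {p : ℕ}

theorem zpow_act {A : K} {S : Set K} (hp : p.Prime) (hA : A ^ p = 1)
    (hS : ∀ g ∈ zpowers A, ∀ s ∈ S, g * s * g⁻¹ ∈ S) :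
    (¬ p ∣ Nat.card S → ∃ s ∈ S, s * A = A * s) ∧
    (p ∣ Nat.card S → ∀ s0 ∈ S, s0 * A = A * s0 → ∃ s ∈ S, s ≠ s0 ∧ s * A = A * s) := by
  have hFp : Fact p.Prime := ⟨hp⟩
  let _ : MulAction (zpowers A) S :=
    { smul := fun g s => ⟨(g : K) * s * (g : K)⁻¹, hS g g.2 s s.2⟩
      one_smul := by
        intro s
        apply Subtype.ext
        change (1 : K) * s * (1 : K)⁻¹ = s
        simp
      mul_smul := by
        intro g h s
        apply Subtype.ext
        change (g * h : K) * s * (g * h : K)⁻¹ = g * (h * s * (h : K)⁻¹) * (g : K)⁻¹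
        group }
  have hP : IsPGroup p (zpowers A) := by
    by_cases h1 : A = 1
    · intro g
      refine ⟨0, ?_⟩
      obtain ⟨n, hn⟩ := g.2
      have hn' : A ^ n = (g : K) := hn
      have h3 : A ^ n = 1 := by rw [h1, one_zpow]
      have h4 : (g : K) = 1 := hn'.symm.trans h3
      apply Subtype.ext
      simp [h4]
    · apply IsPGroup.of_card (n := 1)
      rw [Nat.card_zpowers, orderOf_eq_prime hA h1, pow_one]
  have hfix : ∀ s : S, s ∈ MulAction.fixedPoints (zpowers A) S ↔ (s : K) * A = A * s := by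
    intro s
    rw [MulAction.mem_fixedPoints]
    constructor
    · intro h
      have h1 := congrArg Subtype.val (h ⟨A, mem_zpowers A⟩)
      change A * s * A⁻¹ = s at h1
      rw [← mul_inv_eq_iff_eq_mul.1 h1]
    · intro h g
      apply Subtype.ext
      change (g : K) * s * (g : K)⁻¹ = s
      obtain ⟨n, hn⟩ := g.2
      have h2 : Commute (s : K) (g : K) := by
        rw [← hn]
        exact (show Commute (s : K) A from h).zpow_right n
      rw [← h2.eq]; group
  constructor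
  · intro hd
    obtain ⟨s, hs⟩ := hP.nonempty_fixed_point_of_prime_not_dvd_card S hd
    exact ⟨s, s.2, (hfix s).1 hs⟩
  · intro hd s0 hs0 hc
    obtain ⟨s, hs, hne⟩ := hP.exists_fixed_point_of_prime_dvd_card_of_fixed_point S hd
      ((hfix ⟨s0, hs0⟩).2 hc)
    exact ⟨s, s.2, fun h => hne (Subtype.ext h.symm), (hfix s).1 hs⟩

theorem gen_of_ne_one (hp : p.Prime) {A b : K} (hA : A ^ p = 1) (hb : b ∈ zpowers A)
    (hb1 : b ≠ 1) : ∃ m : ℕ, b ^ m = A := by
  have hFp : Fact p.Prime := ⟨hp⟩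
  obtain ⟨n, hn⟩ := mem_powers_iff_mem_zpowers.2 hb
  have hn' : A ^ n = b := hn
  have hn0 : (n : ZMod p) ≠ 0 := by
    intro h0
    apply hb1
    have : (n : ZMod p) = ((0 : ℕ) : ZMod p) := by rw [h0]; simp
    rw [← hn', pow_congr hA this, pow_zero]
  obtain ⟨m, _, _, hm⟩ := root.{v} hp hn0
  exact ⟨m, by rw [← hn', hm A hA]⟩

theorem self_cent (hp : p.Prime) (A B : K) (hA : A ^ p = 1) (hA1 : A ≠ 1) (hB : B ^ p = 1)
    (hgen : closure ({A, B} : Set K) = ⊤) (hm : derivedSeries K 2 = ⊥)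
    (hc : ∀ x : K, x ^ p = 1 → x * A = A * x → x ∈ zpowers A) :
    ∀ x : K, x * A = A * x → x ∈ zpowers A := by
  have hFp : Fact p.Prime := ⟨hp⟩
  set M := commutator K with hM
  have hMn : M.Normal := inferInstance
  have hMc : ∀ x ∈ M, ∀ y ∈ M, x * y = y * x := by
    intro x hx y hy
    have h1 : ⁅x, y⁆ ∈ derivedSeries K 2 := by
      rw [derivedSeries_succ, derivedSeries_succ, derivedSeries_zero]
      exact commutator_mem_commutator hx hy
    rw [hm, mem_bot, commutatorElement_eq_one_iff_mul_comm] at h1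
    exact h1
  have hcomM : ∀ g x : K, x⁻¹ * (g * x * g⁻¹) ∈ M := by
    intro g x
    have h1 := commutator_mem_commutator (mem_top x⁻¹ : x⁻¹ ∈ (⊤ : Subgroup K))
      (mem_top g : g ∈ (⊤ : Subgroup K))
    have e : ⁅x⁻¹, g⁆ = x⁻¹ * (g * x * g⁻¹) := by
      rw [commutatorElement_def]; group
    rw [e] at h1
    exact h1
  -- step one
  have noP : ∀ x ∈ M, x ^ p = 1 → x = 1 := by
    intro x0 hx0 hx0p
    by_contra hne
    let Ω : Subgroup K :=
      { carrier := {x | x ∈ M ∧ x ^ p = 1}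
        one_mem' := ⟨M.one_mem, one_pow p⟩
        mul_mem' := by
          rintro x y ⟨hx, hxp⟩ ⟨hy, hyp⟩
          refine ⟨M.mul_mem hx hy, ?_⟩
          rw [(show Commute x y from hMc x hx y hy).mul_pow, hxp, hyp, one_mul]
        inv_mem' := by
          rintro x ⟨hx, hxp⟩
          exact ⟨M.inv_mem hx, by rw [inv_pow, hxp, inv_one]⟩ }
    have hΩ : ∀ x, x ∈ Ω ↔ x ∈ M ∧ x ^ p = 1 := fun x => Iff.rfl
    have hΩc : ∀ g : K, ∀ s ∈ (Ω : Set K), g * s * g⁻¹ ∈ (Ω : Set K) := by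
      rintro g s ⟨hs1, hs2⟩
      refine ⟨hMn.conj_mem s hs1 g, ?_⟩
      rw [conj_pow, hs2]; group
    have hd : p ∣ Nat.card (Ω : Set K) := by
      have h1 : orderOf (⟨x0, hx0, hx0p⟩ : Ω) = p := by
        apply orderOf_eq_prime
        · exact Subtype.ext hx0p
        · intro h; exact hne (congrArg Subtype.val h)
      have h2 := orderOf_dvd_natCard (⟨x0, hx0, hx0p⟩ : Ω)
      rw [h1] at h2
      exact h2
    obtain ⟨b, hbΩ, hb1, hbA⟩ := (zpow_act hp hA (fun g _ => hΩc g)).2 hd 1 Ω.one_mem (by simp)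
    have hbz := hc b hbΩ.2 hbA
    obtain ⟨m, hm'⟩ := gen_of_ne_one hp hA hbz hb1
    have hAM : A ∈ M := by rw [← hm']; exact M.pow_mem hbΩ.1 m
    have hΩz : ∀ x ∈ Ω, x ∈ zpowers A := fun x hx => hc x hx.2 (hMc x hx.1 A hAM)
    have hAΩ : A ∈ Ω := ⟨hAM, hA⟩
    -- `B` commutes with `A`
    have hBA : B * A = A * B := by
      have hz : ∀ g : K, ∀ s ∈ zpowers A, g * s * g⁻¹ ∈ zpowers A := by
        rintro g _ ⟨n, rfl⟩
        have h1 := hΩz _ (hΩc g A hAΩ)
        have e : g * A ^ n * g⁻¹ = (g * A * g⁻¹) ^ n := by rw [conj_zpow]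
        simp only
        rw [e]
        exact (zpowers A).zpow_mem h1 n
      have hS : ∀ g ∈ zpowers B, ∀ s ∈ ((zpowers A : Set K) \ {1}),
          g * s * g⁻¹ ∈ ((zpowers A : Set K) \ {1}) := by
        rintro g _ s ⟨hs1, hs2⟩
        refine ⟨hz g s hs1, ?_⟩
        intro h1
        apply hs2
        rw [Set.mem_singleton_iff] at h1 ⊢
        have : s = g⁻¹ * (g * s * g⁻¹) * g := by group
        rw [this, h1]; group
      have hcard : Nat.card ((zpowers A : Set K) \ {1} : Set K) = p - 1 := by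
        have h1 : Nat.card (zpowers A : Set K) = p := by
          have : Nat.card (zpowers A) = p := by
            rw [Nat.card_zpowers, orderOf_eq_prime hA hA1]
          exact this
        rw [Nat.card_coe_set_eq] at h1 ⊢
        rw [Set.ncard_sdiff_singleton_of_mem (zpowers A).one_mem, h1]
      have hnd : ¬ p ∣ Nat.card ((zpowers A : Set K) \ {1} : Set K) := by
        rw [hcard]
        intro h
        have := Nat.le_of_dvd (by have := hp.two_le; omega) h
        have := hp.two_le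
        omega
      obtain ⟨s, ⟨hs1, hs2⟩, hs3⟩ := (zpow_act hp hB hS).1 hnd
      obtain ⟨m, hm1⟩ := gen_of_ne_one hp hA hs1 hs2
      have h4 : Commute s B := hs3
      have h5 := h4.pow_left m
      rw [hm1] at h5
      exact h5.symm
    have hBz := hc B hB hBA
    have htop : ∀ x : K, x ∈ zpowers A := by
      intro x
      have h1 : closure ({A, B} : Set K) ≤ zpowers A := by
        rw [closure_le]
        intro y hy
        rcases hy with rfl | hy
        · exact mem_zpowers _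
        · rw [Set.mem_singleton_iff.1 hy]; exact hBz
      rw [hgen] at h1
      exact h1 (mem_top x)
    have hcomm : ∀ x y : K, x * y = y * x := by
      intro x y
      obtain ⟨i, hi⟩ := htop x
      obtain ⟨j, hj⟩ := htop y
      rw [← hi, ← hj]
      exact ((Commute.refl A).zpow_zpow i j).eq
    have hbot : M ≤ ⊥ := by
      rw [hM, commutator_def, Subgroup.commutator_le]
      intro g _ h _
      rw [mem_bot, commutatorElement_eq_one_iff_mul_comm]
      exact hcomm g h
    exact hne (mem_bot.1 (hbot hx0))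
  -- step two
  have hcopM : ¬ p ∣ Nat.card M := by
    intro hd
    obtain ⟨x, hx⟩ := exists_prime_orderOf_dvd_card' p hd
    have h1 : (x : K) ^ p = 1 := by
      have := pow_orderOf_eq_one x
      rw [hx] at this
      exact congrArg Subtype.val this
    have h2 := noP x x.2 h1
    have h3 : x = 1 := Subtype.ext h2
    rw [h3, orderOf_one] at hx
    exact hp.one_lt.ne hx
  have hsup : ∀ x : K, ∃ z ∈ zpowers A, ∃ m ∈ M, z * m = x := by
    have hS : ∀ g ∈ zpowers A, ∀ s ∈ {x : K | B⁻¹ * x ∈ M}, g * s * g⁻¹ ∈ {x : K | B⁻¹ * x ∈ M} := by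
      intro g _ s hs
      have hs : B⁻¹ * s ∈ M := hs
      change B⁻¹ * (g * s * g⁻¹) ∈ M
      have e : B⁻¹ * (g * s * g⁻¹) = (B⁻¹ * s) * (s⁻¹ * (g * s * g⁻¹)) := by group
      rw [e]
      exact M.mul_mem hs (hcomM g s)
    have hcard : Nat.card {x : K | B⁻¹ * x ∈ M} = Nat.card M := by
      refine Nat.card_congr ⟨fun x => ⟨B⁻¹ * x.1, x.2⟩, fun m => ⟨B * m.1, ?_⟩, ?_, ?_⟩
      · change B⁻¹ * (B * m.1) ∈ M
        rw [inv_mul_cancel_left]; exact m.2
      · intro x; apply Subtype.ext; simp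
      · intro x; apply Subtype.ext; simp
    obtain ⟨c, hcM, hcA⟩ := (zpow_act hp hA hS).1 (by rw [hcard]; exact hcopM)
    have hcM : B⁻¹ * c ∈ M := hcM
    set n := Nat.card M with hn
    have hq : (c : K ⧸ M) = (B : K ⧸ M) := (QuotientGroup.eq.2 hcM).symm
    have hcp : c ^ p ∈ M := by
      rw [← QuotientGroup.eq_one_iff (N := M), QuotientGroup.mk_pow, hq, ← QuotientGroup.mk_pow,
        hB]
      rfl
    have hcn : (c ^ n) ^ p = 1 := by
      rw [← pow_mul, mul_comm, pow_mul]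
      have h1 : (⟨c ^ p, hcp⟩ : M) ^ n = 1 := pow_card_eq_one'
      exact congrArg Subtype.val h1
    have hcz := hc (c ^ n) hcn ((show Commute c A from hcA).pow_left n).eq
    have hn0 : (n : ZMod p) ≠ 0 := by
      rw [Ne, ZMod.natCast_eq_zero_iff]
      exact hcopM
    obtain ⟨m, _, _, hmr⟩ := root.{v} hp hn0
    have hBq : (B : K ⧸ M) = (((c ^ n) ^ m : K) : K ⧸ M) := by
      rw [QuotientGroup.mk_pow, QuotientGroup.mk_pow, hq]
      rw [hmr (B : K ⧸ M) (by rw [← QuotientGroup.mk_pow, hB]; rfl)]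
    have hBs : B ∈ zpowers A ⊔ M := by
      have h1 : ((c ^ n) ^ m)⁻¹ * B ∈ M := QuotientGroup.eq.1 hBq.symm
      have e : B = (c ^ n) ^ m * (((c ^ n) ^ m)⁻¹ * B) := by group
      rw [e]
      exact mul_mem_sup ((zpowers A).pow_mem hcz m) h1
    have htop : zpowers A ⊔ M = ⊤ := by
      rw [eq_top_iff, ← hgen, closure_le]
      intro y hy
      rcases hy with rfl | hy
      · exact mem_sup_left (mem_zpowers _)
      · rw [Set.mem_singleton_iff.1 hy]; exact hBs
    intro x
    have h1 : x ∈ zpowers A ⊔ M := by rw [htop]; trivial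
    rw [Subgroup.mem_sup_of_normal_right] at h1
    exact h1
  -- step three
  let I : Subgroup K :=
    { carrier := {y | ∃ x ∈ M, y = x * (A * x * A⁻¹)⁻¹}
      one_mem' := ⟨1, M.one_mem, by simp⟩
      mul_mem' := by
        rintro _ _ ⟨x, hx, rfl⟩ ⟨y, hy, rfl⟩
        refine ⟨x * y, M.mul_mem hx hy, ?_⟩
        have h1 := hMc (A * x * A⁻¹)⁻¹ (M.inv_mem (hMn.conj_mem x hx A)) (y * (A * y * A⁻¹)⁻¹)
          (M.mul_mem hy (M.inv_mem (hMn.conj_mem y hy A)))
        calc x * (A * x * A⁻¹)⁻¹ * (y * (A * y * A⁻¹)⁻¹)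
            = x * ((A * x * A⁻¹)⁻¹ * (y * (A * y * A⁻¹)⁻¹)) := by group
          _ = x * ((y * (A * y * A⁻¹)⁻¹) * (A * x * A⁻¹)⁻¹) := by rw [h1]
          _ = x * y * (A * (x * y) * A⁻¹)⁻¹ := by group
      inv_mem' := by
        rintro _ ⟨x, hx, rfl⟩
        refine ⟨x⁻¹, M.inv_mem hx, ?_⟩
        have h1 := hMc (A * x * A⁻¹) (hMn.conj_mem x hx A) x⁻¹ (M.inv_mem hx)
        calc (x * (A * x * A⁻¹)⁻¹)⁻¹ = (A * x * A⁻¹) * x⁻¹ := by group
          _ = x⁻¹ * (A * x * A⁻¹) := h1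
          _ = x⁻¹ * (A * x⁻¹ * A⁻¹)⁻¹ := by group }
  have hI : ∀ x ∈ M, x * (A * x * A⁻¹)⁻¹ ∈ I := fun x hx => ⟨x, hx, rfl⟩
  have hIM : ∀ y ∈ I, ∃ x ∈ M, y = x * (A * x * A⁻¹)⁻¹ := fun y hy => hy
  have hIz : ∀ z ∈ zpowers A, ∀ x ∈ M, x * (z * x * z⁻¹)⁻¹ ∈ I := by
    intro z hz x hx
    obtain ⟨i, hi⟩ := mem_powers_iff_mem_zpowers.2 hz
    have hi' : A ^ i = z := hi
    rw [← hi']
    clear hi hi'
    induction i with
    | zero => simp
    | succ i ih =>
      have h1 := hI _ (hMn.conj_mem x hx (A ^ i))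
      have e : x * (A ^ (i + 1) * x * (A ^ (i + 1))⁻¹)⁻¹ =
          (x * (A ^ i * x * (A ^ i)⁻¹)⁻¹) *
          ((A ^ i * x * (A ^ i)⁻¹) * (A * (A ^ i * x * (A ^ i)⁻¹) * A⁻¹)⁻¹) := by
        rw [pow_succ']; group
      rw [e]
      exact I.mul_mem ih h1
  have hMI : M ≤ I := by
    rw [hM, commutator_def, Subgroup.commutator_le]
    intro g _ h _
    obtain ⟨z, hz, m, hmM, rfl⟩ := hsup g
    obtain ⟨w, hw, n, hnM, rfl⟩ := hsup h
    have hzw : z * w = w * z := by
      obtain ⟨i, hi⟩ := hz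
      obtain ⟨j, hj⟩ := hw
      rw [← hi, ← hj]
      exact ((Commute.refl A).zpow_zpow i j).eq
    have hx := hMn.conj_mem m hmM z
    have hy := hMn.conj_mem n hnM w
    have k1 := hIz w hw _ hx
    have k2 := I.inv_mem (hIz z hz _ hy)
    have e : ⁅z * m, w * n⁆ = ((z * m * z⁻¹) * (w * (z * m * z⁻¹) * w⁻¹)⁻¹) *
        ((w * n * w⁻¹) * (z * (w * n * w⁻¹) * z⁻¹)⁻¹)⁻¹ := by
      have hx' := hMn.conj_mem m hmM (w * z)
      have hy' := hMn.conj_mem n hnM (w * z)
      have h3 := hMc (w * z * m⁻¹ * (w * z)⁻¹)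
        (by
          have := M.inv_mem hx'
          have e3 : (w * z * m * (w * z)⁻¹)⁻¹ = w * z * m⁻¹ * (w * z)⁻¹ := by group
          rwa [e3] at this) _ hy'
      have h4 : (z * m) * (w * n) * (z * m)⁻¹ * (w * n)⁻¹ =
          (z * m * z⁻¹) * ((w * z * n * (w * z)⁻¹) * (w * z * m⁻¹ * (w * z)⁻¹)) *
            (w * n * w⁻¹)⁻¹ := by
        have h5 : (z * m) * (w * n) * (z * m)⁻¹ * (w * n)⁻¹ =
            (z * m * z⁻¹) * ((z * w) * n * m⁻¹ * z⁻¹ * w⁻¹) * (w * n * w⁻¹)⁻¹ := by group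
        rw [h5, hzw]
        have h6 : z⁻¹ * w⁻¹ = (w * z)⁻¹ := by group
        have h7 : w * z * n * m⁻¹ * z⁻¹ * w⁻¹ = w * z * n * m⁻¹ * (z⁻¹ * w⁻¹) := by group
        rw [h7, h6]; group
      rw [commutatorElement_def, h4, ← h3]
      have h8 : z * (w * n * w⁻¹) * z⁻¹ = w * z * n * (w * z)⁻¹ := by
        have : z * (w * n * w⁻¹) * z⁻¹ = (z * w) * n * (z * w)⁻¹ := by group
        rw [this, hzw]
      rw [h8]
      group
    rw [e]
    exact I.mul_mem k1 k2
  have hfix : ∀ x ∈ M, x * A = A * x → x = 1 := by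
    have hfM : Finite M := inferInstance
    let f : M → M := fun x => ⟨x * (A * x * A⁻¹)⁻¹,
      M.mul_mem x.2 (M.inv_mem (hMn.conj_mem x x.2 A))⟩
    have hs : Function.Surjective f := by
      intro y
      obtain ⟨x, hx, hxy⟩ := hIM y (hMI y.2)
      exact ⟨⟨x, hx⟩, Subtype.ext hxy.symm⟩
    have hi := Finite.injective_iff_surjective.2 hs
    intro x hx hxA
    have h1 : f ⟨x, hx⟩ = f 1 := by
      apply Subtype.ext
      simp only [f]
      rw [← hxA]; simp
    exact congrArg Subtype.val (hi h1)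
  intro x hx
  obtain ⟨z, hz, m, hmM, rfl⟩ := hsup x
  have hzA : Commute z A := by
    obtain ⟨i, hi⟩ := hz
    rw [← hi]
    exact (Commute.refl A).zpow_left i
  have hmA : Commute m A := by
    have h1 : m = z⁻¹ * (z * m) := by group
    rw [h1]
    exact hzA.inv_left.mul_left hx
  have := hfix m hmM hmA.eq
  rw [this, mul_one]
  exact hz

end

/-- the form used below -/
theorem metab_weak {G : Type v} [Group G] {p : ℕ} (hp : p.Prime) (a b : G)
    (ha : a ^ p = 1) (ha1 : a ≠ 1) (hb : b ^ p = 1)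
    (hfin : ((closure ({a, b} : Set G) : Subgroup G) : Set G).Finite)
    (hm : derivedSeries (closure ({a, b} : Set G)) 2 = ⊥)
    (hc : ∀ c ∈ closure ({a, b} : Set G), c ^ p = 1 → c * a = a * c → c ∈ zpowers a) :
    Gd a b := by
  refine metab_pair hp a b ha ha1 hb hfin hm ?_
  set K := closure ({a, b} : Set G) with hK
  have haK : a ∈ K := subset_closure (by simp)
  have hbK : b ∈ K := subset_closure (by simp)
  have hfK : Finite K := hfin.to_subtype
  set A : K := ⟨a, haK⟩ with hA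
  set B : K := ⟨b, hbK⟩ with hB
  have hA3 : A ^ p = 1 := Subtype.ext ha
  have hB3 : B ^ p = 1 := Subtype.ext hb
  have hA1 : A ≠ 1 := fun h => ha1 (congrArg Subtype.val h)
  have hgen : closure ({A, B} : Set K) = ⊤ := by
    have h1 := Subgroup.closure_closure_coe_preimage (k := ({a, b} : Set G))
    have h2 : ((↑) ⁻¹' ({a, b} : Set G) : Set K) = {A, B} := by
      ext x
      simp [hA, hB, Subtype.ext_iff]
    rw [← h2]
    exact h1
  have hcK : ∀ x : K, x ^ p = 1 → x * A = A * x → x ∈ zpowers A := by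
    intro x hxp hx
    obtain ⟨n, hn⟩ := hc x x.2 (congrArg Subtype.val hxp) (congrArg Subtype.val hx)
    exact ⟨n, Subtype.ext (by simpa using hn)⟩
  have h := self_cent hp A B hA3 hA1 hB3 hgen hm hcK
  intro c hcK' hca
  obtain ⟨n, hn⟩ := h ⟨c, hcK'⟩ (Subtype.ext hca)
  have h2 := congrArg Subtype.val hn
  exact ⟨n, by simpa [hA] using h2⟩

end Pool.Agent.MP_904310f.Lab
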