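import Pool.Agent.Lib_MP_904310_fr.Basic

/-!
# Signs of pairs of conjugates of an element of order three, generic elements
-/

set_option autoImplicit false

namespace Pool.Agent.MP_904310f

open Subgroup Filter

variable {G : Type*} [Group G]

/-- the conjugates of `a` and of its inverse -/
def cls (a : G) : Set G := {y | ∃ g : G, y = g⁻¹ * a * g ∨ y = g⁻¹ * a⁻¹ * g}

/-- `y` is, up to a kernel of `u`, equal to `u` or to its inverse -/
def Good (u y : G) : Prop := ∃ L : Subgroup G, Krn u L ∧ (u⁻¹ * y ∈ L ∨ u * y ∈ L)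

/-- `g` lies in a kernel -/
def NK (a g : G) : Prop := ∃ u ∈ cls a, ∃ L : Subgroup G, Krn u L ∧ g ∈ L

/-- the standing hypotheses -/
structure Ctx (a : G) : Prop where
  cube : a ^ 3 = 1
  ne : a ≠ 1
  good : ∀ u ∈ cls a, {y | y ∈ cls a ∧ ¬ Good u y}.Finite

theorem self_mem (a : G) : a ∈ cls a := ⟨1, Or.inl (by simp)⟩

theorem cls_conj {a y : G} (h : y ∈ cls a) (g : G) : g⁻¹ * y * g ∈ cls a := by
  obtain ⟨k, rfl | rfl⟩ := h
  · exact ⟨k * g, Or.inl (by group)⟩
  · exact ⟨k * g, Or.inr (by group)⟩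

theorem cls_inv {a y : G} (h : y ∈ cls a) : y⁻¹ ∈ cls a := by
  obtain ⟨k, rfl | rfl⟩ := h
  · exact ⟨k, Or.inr (by group)⟩
  · exact ⟨k, Or.inl (by group)⟩

theorem Ctx.cube_mem {a : G} (c : Ctx a) {y : G} (h : y ∈ cls a) : y ^ 3 = 1 := by
  have ha := c.cube
  have hai : a⁻¹ ^ 3 = 1 := by rw [inv_pow, ha, inv_one]
  obtain ⟨k, rfl | rfl⟩ := h
  · have : (k⁻¹ * a * k) ^ 3 = k⁻¹ * a ^ 3 * k := by simp [pow_succ, mul_assoc]
    rw [this, ha]; simp
  · have : (k⁻¹ * a⁻¹ * k) ^ 3 = k⁻¹ * a⁻¹ ^ 3 * k := by simp [pow_succ, mul_assoc]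
    rw [this, hai]; simp

theorem Ctx.ne_one {a : G} (c : Ctx a) {y : G} (h : y ∈ cls a) : y ≠ 1 := by
  rintro rfl
  obtain ⟨k, hk | hk⟩ := h
  · apply c.ne
    have := congrArg (fun t => k * t * k⁻¹) hk
    simpa [mul_assoc] using this.symm
  · apply c.ne
    have := congrArg (fun t => k * t * k⁻¹) hk
    simpa [mul_assoc] using this.symm

theorem Krn.mul_mem_cls {a u : G} {L : Subgroup G} (h : Krn u L) (hu : u ∈ cls a) {l : G}
    (hl : l ∈ L) : u * l ∈ cls a := by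
  obtain ⟨m, _, hm⟩ := h.conj hl
  rw [← hm]; exact cls_conj hu m

theorem Krn.inv_mul_mem_cls {a u : G} {L : Subgroup G} (h : Krn u L) (hu : u ∈ cls a) {l : G}
    (hl : l ∈ L) : u⁻¹ * l ∈ cls a := by
  have h1 := cls_inv (h.mul_mem_cls hu (h.inv _ (L.inv_mem hl)))
  have h2 : (u * (u⁻¹ * l⁻¹ * u))⁻¹ = u⁻¹ * l := by group
  rwa [h2] at h1

theorem Krn.not_mem_cls {a u : G} {L : Subgroup G} (c : Ctx a) (h : Krn u L) (hu : u ∈ cls a)
    {l : G} (hl : l ∈ L) : l ∉ cls a := fun hla =>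
  c.ne_one hla (h.no3 (c.cube_mem hu) hl (c.cube_mem hla))

/-- the sign of a good pair -/
theorem sgn {a : G} (c : Ctx a) {w y : G} (hw : w ∈ cls a) (h : Good w y) :
    (y * w ∈ cls a ∧ y * w⁻¹ ∉ cls a ∧ NK a (y * w⁻¹)) ∨
      (y * w ∉ cls a ∧ NK a (y * w) ∧ y * w⁻¹ ∈ cls a) := by
  obtain ⟨L, hL, h | h⟩ := h
  · left
    have hww := mul_self_eq (c.cube_mem hw)
    have e1 : y * w = w⁻¹ * (w⁻¹ * (w⁻¹ * y) * w) := by
      have : w⁻¹ * (w⁻¹ * (w⁻¹ * y) * w) = (w * w)⁻¹ * (w⁻¹ * (y * w)) := by group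
      rw [this, hww]; group
    have e2 : y * w⁻¹ = w * (w⁻¹ * y) * w⁻¹ := by group
    have m2 : y * w⁻¹ ∈ L := by rw [e2]; exact hL.inv' _ h
    refine ⟨?_, hL.not_mem_cls c hw m2, ⟨w, hw, L, hL, m2⟩⟩
    rw [e1]
    exact hL.inv_mul_mem_cls hw (hL.inv _ h)
  · right
    have hww := mul_self_eq (c.cube_mem hw)
    have e1 : y * w = w⁻¹ * (w * y) * w := by group
    have m1 : y * w ∈ L := by rw [e1]; exact hL.inv _ h
    refine ⟨hL.not_mem_cls c hw m1, ⟨w, hw, L, hL, m1⟩, ?_⟩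
    have e2 : y * w⁻¹ = w * (w * (w * y) * w⁻¹) := by
      have : w * (w * (w * y) * w⁻¹) = (w * w) * (w * (y * w⁻¹)) := by group
      rw [this, hww]; group
    rw [e2]
    exact hL.mul_mem_cls hw (hL.inv' _ h)

theorem tendsto_mul_right (h : G) : Tendsto (fun y : G => y * h) cofinite cofinite :=
  (mul_left_injective h).tendsto_cofinite

theorem tendsto_conj (h : G) : Tendsto (fun y : G => h⁻¹ * y * h) cofinite cofinite := by
  apply Function.Injective.tendsto_cofinite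
  intro x y hxy
  simpa using hxy

theorem Ctx.ev {a : G} (c : Ctx a) {u : G} (hu : u ∈ cls a) :
    ∀ᶠ y in cofinite, y ∈ cls a → Good u y := by
  have h := c.good u hu
  rw [eventually_cofinite]
  refine h.subset ?_
  intro y hy
  simp only [Set.mem_ofPred_eq, Classical.not_imp] at hy
  exact hy

/-- generic elements: the two rules -/
theorem rules {a : G} (c : Ctx a) {u : G} (hu : u ∈ cls a) {L : Subgroup G} (hL : Krn u L) :
    ∀ᶠ y in cofinite, y ∈ cls a → ∀ m ∈ L, ∀ n ∈ L,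
      (y * (u * m) ∈ cls a → (y * (u⁻¹ * n * u) ∈ cls a ↔ y * (u * (m * n)) ∈ cls a)) ∧
      (y * (u * m) ∉ cls a → (y * (u⁻¹ * n * u) ∈ cls a ↔ y * (u * (m * n⁻¹)) ∉ cls a)) ∧
      (y * (u⁻¹ * n * u) ∉ cls a → NK a (y * (u⁻¹ * n * u))) := by
  have hu3 := c.cube_mem hu
  have huu := mul_self_eq hu3
  have g1 : ∀ᶠ y in cofinite, ∀ m ∈ (L : Set G), y ∈ cls a → Good (u * m) y := by
    rw [Filter.eventually_all_finite hL.fin]
    intro m hm
    exact c.ev (hL.mul_mem_cls hu hm)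
  have g2 : ∀ᶠ y in cofinite, ∀ m ∈ (L : Set G), ∀ m' ∈ (L : Set G),
      y * (u * m) ∈ cls a → Good (u * m') (y * (u * m)) := by
    rw [Filter.eventually_all_finite hL.fin]
    intro m hm
    rw [Filter.eventually_all_finite hL.fin]
    intro m' hm'
    exact (tendsto_mul_right (u * m)).eventually (c.ev (hL.mul_mem_cls hu hm'))
  have g3 : ∀ᶠ y in cofinite, ∀ m ∈ (L : Set G), ∀ m' ∈ (L : Set G),
      y * (u * m)⁻¹ ∈ cls a → Good (u * m') (y * (u * m)⁻¹) := by
    rw [Filter.eventually_all_finite hL.fin]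
    intro m hm
    rw [Filter.eventually_all_finite hL.fin]
    intro m' hm'
    exact (tendsto_mul_right (u * m)⁻¹).eventually (c.ev (hL.mul_mem_cls hu hm'))
  filter_upwards [g1, g2, g3] with y h1 h2 h3 hy m hm n hn
  have hn' : u * n⁻¹ * u⁻¹ ∈ L := hL.inv' _ (L.inv_mem hn)
  have hl : u⁻¹ * n * u ∈ L := hL.inv _ hn
  have hmn : m * n ∈ L := L.mul_mem hm hn
  have hmn' : m * n⁻¹ ∈ L := L.mul_mem hm (L.inv_mem hn)
  have nrm := hL.norm hu3 hm
  -- case plus
  have plus : y * (u * m) ∈ cls a →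
      ((y * (u⁻¹ * n * u) ∈ cls a ↔ y * (u * (m * n)) ∈ cls a) ∧
      (y * (u⁻¹ * n * u) ∉ cls a → NK a (y * (u⁻¹ * n * u)))) := by
    intro hS
    set m2 := u * n⁻¹ * u⁻¹ * m with hm2
    have hm2L : m2 ∈ L := L.mul_mem hn' hm
    have hG := h2 m hm m2 hm2L hS
    have hs := sgn c (hL.mul_mem_cls hu hm2L) hG
    have e1 : y * (u * m) * (u * m2)⁻¹ = y * (u⁻¹ * n * u) := by
      have : (u * m) * (u * m2)⁻¹ = (u * u) * n * (u * u)⁻¹ := by rw [hm2]; group
      have h4 : (u * u)⁻¹ = u := by rw [huu, inv_inv]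
      rw [mul_assoc, this, h4, huu]
    have e2 : y * (u * m) * (u * m2) = y * (u * (m * n))⁻¹ := by
      have h5 : (u * m) * (u * m2) * (u * (m * n)) = 1 := by
        have h6 : (u * m) * (u * m2) * (u * (m * n))
            = (u * m * u⁻¹) * (u * u * u) * n⁻¹ * (u⁻¹ * m * u) * m * n := by
          rw [hm2]; group
        have h7 : u * u * u = 1 := by rw [huu]; group
        rw [h6, h7, mul_one]
        have h8 : Commute n⁻¹ ((u⁻¹ * m * u) * m) :=
          hL.com _ (L.inv_mem hn) _ (L.mul_mem (hL.inv m hm) hm)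
        calc (u * m * u⁻¹) * n⁻¹ * (u⁻¹ * m * u) * m * n
            = (u * m * u⁻¹) * (n⁻¹ * ((u⁻¹ * m * u) * m)) * n := by group
          _ = (u * m * u⁻¹) * (((u⁻¹ * m * u) * m) * n⁻¹) * n := by rw [h8.eq]
          _ = (u * m * u⁻¹) * (u⁻¹ * m * u) * m := by group
          _ = 1 := nrm
      rw [mul_assoc, eq_inv_of_mul_eq_one_left h5]
    rw [e1, e2] at hs
    have hs2 := sgn c (hL.mul_mem_cls hu hmn) (h1 _ hmn hy)
    constructor
    · constructor
      · intro h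
        rcases hs with ⟨_, h', _⟩ | ⟨h', _, _⟩
        · exact absurd h h'
        · rcases hs2 with ⟨h'', _, _⟩ | ⟨_, _, h''⟩
          · exact h''
          · exact absurd h'' h'
      · intro h
        rcases hs with ⟨h', _, _⟩ | ⟨_, _, h'⟩
        · rcases hs2 with ⟨_, h'', _⟩ | ⟨h'', _, _⟩
          · exact absurd h' h''
          · exact absurd h h''
        · exact h'
    · intro h
      rcases hs with ⟨_, _, h'⟩ | ⟨_, _, h'⟩
      · exact h'
      · exact absurd h' h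
  have minus : y * (u * m) ∉ cls a →
      ((y * (u⁻¹ * n * u) ∈ cls a ↔ y * (u * (m * n⁻¹)) ∉ cls a) ∧
      (y * (u⁻¹ * n * u) ∉ cls a → NK a (y * (u⁻¹ * n * u)))) := by
    intro hS
    have hS' : y * (u * m)⁻¹ ∈ cls a := by
      rcases sgn c (hL.mul_mem_cls hu hm) (h1 _ hm hy) with ⟨h', _, _⟩ | ⟨_, _, h'⟩
      · exact absurd h' hS
      · exact h'
    set m2 := m * (u⁻¹ * n * u) with hm2
    have hm2L : m2 ∈ L := L.mul_mem hm hl
    have hG := h3 m hm m2 hm2L hS'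
    have hs := sgn c (hL.mul_mem_cls hu hm2L) hG
    have e1 : y * (u * m)⁻¹ * (u * m2) = y * (u⁻¹ * n * u) := by
      rw [hm2]; group
    have e2 : y * (u * m)⁻¹ * (u * m2)⁻¹ = y * (u * (m * n⁻¹)) := by
      have h5 : (u * m2) * (u * m) * (u * (m * n⁻¹)) = 1 := by
        have h6 : (u * m2) * (u * m) * (u * (m * n⁻¹))
            = (u * m * u⁻¹) * n * ((u * u) * m * (u * u)⁻¹) * (u * u * u) * m * n⁻¹ := by
          rw [hm2]; group
        have h7 : u * u * u = 1 := by rw [huu]; group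
        have h4 : (u * u)⁻¹ = u := by rw [huu, inv_inv]
        rw [h6, h7, mul_one, h4, huu]
        have h8 : Commute n ((u⁻¹ * m * u) * m) :=
          hL.com _ hn _ (L.mul_mem (hL.inv m hm) hm)
        calc (u * m * u⁻¹) * n * (u⁻¹ * m * u) * m * n⁻¹
            = (u * m * u⁻¹) * (n * ((u⁻¹ * m * u) * m)) * n⁻¹ := by group
          _ = (u * m * u⁻¹) * (((u⁻¹ * m * u) * m) * n) * n⁻¹ := by rw [h8.eq]
          _ = (u * m * u⁻¹) * (u⁻¹ * m * u) * m := by group
          _ = 1 := nrm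
      have h9 : (u * m)⁻¹ * (u * m2)⁻¹ = u * (m * n⁻¹) := by
        rw [← mul_inv_rev]
        exact inv_eq_of_mul_eq_one_right h5
      rw [mul_assoc, h9]
    rw [e1, e2] at hs
    constructor
    · constructor
      · intro h
        rcases hs with ⟨_, h', _⟩ | ⟨h', _, _⟩
        · exact h'
        · exact absurd h h'
      · intro h
        rcases hs with ⟨h', _, _⟩ | ⟨_, _, h'⟩
        · exact h'
        · exact absurd h' h
    · intro h
      rcases hs with ⟨h', _, _⟩ | ⟨_, h', _⟩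
      · exact absurd h' h
      · exact h'
  refine ⟨fun h => (plus h).1, fun h => (minus h).1, fun h => ?_⟩
  by_cases hS : y * (u * m) ∈ cls a
  · exact (plus hS).2 h
  · exact (minus hS).2 h

/-- for generic `y`, the `t` in a kernel with `y t` in the class form a subgroup of index at
most two -/
theorem gen {a : G} (c : Ctx a) {u : G} (hu : u ∈ cls a) {L : Subgroup G} (hL : Krn u L) :
    ∀ᶠ y in cofinite, y ∈ cls a →
      (∀ t ∈ L, y * t⁻¹ ∈ cls a → y * t ∈ cls a) ∧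
      (∀ s ∈ L, ∀ t ∈ L, y * s ∈ cls a → y * t ∈ cls a → y * (s * t) ∈ cls a) ∧
      (∀ s ∈ L, ∀ t ∈ L, y * s ∉ cls a → y * t ∉ cls a → y * (s * t) ∈ cls a) ∧
      (∀ t ∈ L, y * t ∉ cls a → NK a (y * t)) := by
  filter_upwards [rules c hu hL] with y hr hy
  have hr := hr hy
  -- work with `n` in place of `t = u⁻¹ n u`
  have neg : ∀ n ∈ L, y * (u⁻¹ * n⁻¹ * u) ∈ cls a → y * (u⁻¹ * n * u) ∈ cls a := by
    intro n hn h
    have hn' := L.inv_mem hn
    by_cases S1 : y * (u * 1) ∈ cls a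
    · have h1 := ((hr 1 L.one_mem n⁻¹ hn').1 S1).1 h
      rw [one_mul] at h1
      have h2 := (hr n⁻¹ hn' n hn).1 h1
      rw [inv_mul_cancel] at h2
      exact h2.2 S1
    · have h1 := ((hr 1 L.one_mem n⁻¹ hn').2.1 S1).1 h
      rw [inv_inv, one_mul] at h1
      have h2 := (hr n hn n hn).2.1 h1
      rw [mul_inv_cancel] at h2
      exact h2.2 S1
  have mul : ∀ m ∈ L, ∀ n ∈ L, y * (u⁻¹ * m * u) ∈ cls a → y * (u⁻¹ * n * u) ∈ cls a →
      y * (u⁻¹ * (m * n) * u) ∈ cls a := by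
    intro m hm n hn h h'
    have hm' := L.inv_mem hm
    by_cases S1 : y * (u * 1) ∈ cls a
    · have h1 := ((hr 1 L.one_mem m hm).1 S1).1 h
      rw [one_mul] at h1
      have h2 := ((hr m hm n hn).1 h1).1 h'
      have h3 := (hr 1 L.one_mem (m * n) (L.mul_mem hm hn)).1 S1
      rw [one_mul] at h3
      exact h3.2 h2
    · have h1 := ((hr 1 L.one_mem m hm).2.1 S1).1 h
      rw [one_mul] at h1
      have h2 := ((hr m⁻¹ hm' n hn).2.1 h1).1 h'
      have h3 := (hr 1 L.one_mem (m * n) (L.mul_mem hm hn)).2.1 S1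
      rw [one_mul] at h3
      have e : (m * n)⁻¹ = m⁻¹ * n⁻¹ := by rw [(hL.com m hm n hn).eq, mul_inv_rev]
      rw [e] at h3
      exact h3.2 h2
  have bb : ∀ m ∈ L, ∀ n ∈ L, y * (u⁻¹ * m * u) ∉ cls a → y * (u⁻¹ * n * u) ∉ cls a →
      y * (u⁻¹ * (m * n) * u) ∈ cls a := by
    intro m hm n hn h h'
    have hm' := L.inv_mem hm
    have hn' := L.inv_mem hn
    have h'' : y * (u⁻¹ * n⁻¹ * u) ∉ cls a := fun hh => h' (neg n hn hh)
    by_cases S1 : y * (u * 1) ∈ cls a
    · have h1 : y * (u * m) ∉ cls a := by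
        intro hh
        apply h
        have := (hr 1 L.one_mem m hm).1 S1
        rw [one_mul] at this
        exact this.2 hh
      have h2 := (hr m hm n⁻¹ hn').2.1 h1
      rw [inv_inv] at h2
      have h3 : y * (u * (m * n)) ∈ cls a := by
        by_contra hh
        exact h'' (h2.2 hh)
      have h4 := (hr 1 L.one_mem (m * n) (L.mul_mem hm hn)).1 S1
      rw [one_mul] at h4
      exact h4.2 h3
    · have h1 : y * (u * m⁻¹) ∈ cls a := by
        by_contra hh
        apply h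
        have := (hr 1 L.one_mem m hm).2.1 S1
        rw [one_mul] at this
        exact this.2 hh
      have h2 := (hr m⁻¹ hm' n⁻¹ hn').1 h1
      have h3 : y * (u * (m⁻¹ * n⁻¹)) ∉ cls a := fun hh => h'' (h2.2 hh)
      have h4 := (hr 1 L.one_mem (m * n) (L.mul_mem hm hn)).2.1 S1
      rw [one_mul] at h4
      have e : (m * n)⁻¹ = m⁻¹ * n⁻¹ := by rw [(hL.com m hm n hn).eq, mul_inv_rev]
      rw [e] at h4
      exact h4.2 h3
  have back : ∀ t : G, u⁻¹ * (u * t * u⁻¹) * u = t := fun t => by group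
  refine ⟨?_, ?_, ?_, ?_⟩
  · intro t ht h
    have := neg _ (hL.inv' t ht)
    have e : u⁻¹ * (u * t * u⁻¹)⁻¹ * u = t⁻¹ := by group
    rw [e, back] at this
    exact this h
  · intro s hs t ht h h'
    have := mul _ (hL.inv' s hs) _ (hL.inv' t ht)
    have e : u⁻¹ * (u * s * u⁻¹ * (u * t * u⁻¹)) * u = s * t := by group
    rw [e, back, back] at this
    exact this h h'
  · intro s hs t ht h h'
    have := bb _ (hL.inv' s hs) _ (hL.inv' t ht)
    have e : u⁻¹ * (u * s * u⁻¹ * (u * t * u⁻¹)) * u = s * t := by group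
    rw [e, back, back] at this
    exact this h h'
  · intro t ht h
    have := (hr 1 L.one_mem _ (hL.inv' t ht)).2.2
    rw [back] at this
    exact this h

end Pool.Agent.MP_904310f
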