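import Pool.Agent.Lib_MP_904310_fr.Basic

/-!
# Finite soluble groups generated by two elements of order three, one self-centralising
-/

set_option autoImplicit false

namespace Pool.Agent.MP_904310f

open Subgroup

open scoped commutatorElement

/-- the commutator subgroup has index three and does not contain `A` -/
theorem comm_index {K : Type*} [Group K] [Finite K] [Group.IsSolvable K] (A B : K) (hA : A ^ 3 = 1)
    (hA1 : A ≠ 1) (hB : B ^ 3 = 1) (hgen : closure ({A, B} : Set K) = ⊤)
    (hc : ∀ x : K, x * A = A * x → x ∈ zpowers A) :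
    (commutator K).index = 3 ∧ A ∉ commutator K := by
  have hne : Nontrivial K := ⟨A, 1, hA1⟩
  have hordA : orderOf A = 3 := by
    have : Fact (Nat.Prime 3) := ⟨Nat.prime_three⟩
    exact orderOf_eq_prime hA hA1
  -- the centraliser of `A`
  set C := centralizer ({A} : Set K) with hCdef
  have hCe : C = zpowers A := by
    apply le_antisymm
    · intro x hx
      rw [hCdef, mem_centralizer_singleton_iff] at hx
      exact hc x hx
    · rw [zpowers_le, hCdef, mem_centralizer_singleton_iff]
  have hcardC : Nat.card C = 3 := by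
    rw [hCe, Nat.card_zpowers, hordA]
  have hmem : ∀ k : K, A⁻¹ * (k * A * k⁻¹) ∈ commutator K := by
    intro k
    have h1 := commutator_mem_commutator (mem_top A⁻¹ : A⁻¹ ∈ (⊤ : Subgroup K))
      (mem_top k : k ∈ (⊤ : Subgroup K))
    have e : ⁅A⁻¹, k⁆ = A⁻¹ * (k * A * k⁻¹) := by
      rw [commutatorElement_def]; group
    rw [e] at h1
    exact h1
  let f : K ⧸ C → commutator K := Quotient.lift (s := QuotientGroup.leftRel C)
    (fun k => ⟨A⁻¹ * (k * A * k⁻¹), hmem k⟩) (by
      intro x y hxy
      have h1 : x⁻¹ * y ∈ C := QuotientGroup.leftRel_apply.1 hxy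
      rw [hCdef, mem_centralizer_singleton_iff] at h1
      apply Subtype.ext
      simp only
      have h2 : x * A * x⁻¹ = y * A * y⁻¹ := by
        have h3 := congrArg (fun t => x * t * y⁻¹) h1
        have e1 : x * (x⁻¹ * y * A) * y⁻¹ = y * A * y⁻¹ := by group
        have e2 : x * (A * (x⁻¹ * y)) * y⁻¹ = x * A * x⁻¹ := by group
        rw [← e1, ← e2]
        exact h3.symm
      rw [h2])
  have hf : Function.Injective f := by
    intro p q hpq
    obtain ⟨x, rfl⟩ := QuotientGroup.mk_surjective p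
    obtain ⟨y, rfl⟩ := QuotientGroup.mk_surjective q
    have h1 : A⁻¹ * (x * A * x⁻¹) = A⁻¹ * (y * A * y⁻¹) := congrArg Subtype.val hpq
    have h2 : x * A * x⁻¹ = y * A * y⁻¹ := mul_left_cancel h1
    rw [QuotientGroup.eq, hCdef, mem_centralizer_singleton_iff]
    have h3 := congrArg (fun t => x⁻¹ * t * y) h2
    have e1 : x⁻¹ * (x * A * x⁻¹) * y = A * (x⁻¹ * y) := by group
    have e2 : x⁻¹ * (y * A * y⁻¹) * y = x⁻¹ * y * A := by group
    rw [← e1, ← e2]
    exact h3.symm
  have hle : C.index ≤ Nat.card (commutator K) := Nat.card_le_card_of_injective f hf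
  have h1 := C.card_mul_index
  have h2 := (commutator K).card_mul_index
  rw [hcardC] at h1
  have hpos : 0 < Nat.card (commutator K) := Nat.card_pos
  have hidx : (commutator K).index ≤ 3 := by
    by_contra hcon
    push Not at hcon
    have h3 : Nat.card (commutator K) * 4 ≤ Nat.card (commutator K) * (commutator K).index :=
      Nat.mul_le_mul_left _ hcon
    rw [h2, ← h1] at h3
    omega
  have hD : commutator K ≠ ⊤ := (Group.IsSolvable.commutator_lt_top_of_nontrivial K).ne
  have hi1 : (commutator K).index ≠ 1 := fun h => hD (index_eq_one.1 h)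
  have hi0 : (commutator K).index ≠ 0 := index_ne_zero_of_finite
  have hi2 : (commutator K).index ≠ 2 := by
    intro h
    apply hD
    rw [eq_top_iff, ← hgen, closure_le]
    have h4 : ∀ x : K, x ^ 3 = 1 → x ∈ commutator K := by
      intro x hx
      have h5 : x ^ 2 ∈ commutator K := by
        have := Subgroup.sq_mem_of_index_two h x
        exact this
      have h6 : x = (x ^ 2)⁻¹ := by
        have : x ^ 2 * x = 1 := by rw [← pow_succ]; exact hx
        exact eq_inv_of_mul_eq_one_right this
      rw [h6]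
      exact inv_mem h5
    intro x hx
    rcases hx with rfl | hx
    · exact h4 _ hA
    · rw [Set.mem_singleton_iff.1 hx]; exact h4 _ hB
  have hi3 : (commutator K).index = 3 := by omega
  refine ⟨hi3, fun hAD => ?_⟩
  have hcard : C.index = Nat.card (commutator K) := by
    rw [hi3] at h2
    omega
  have hsurj : Function.Surjective f := by
    have : Finite (K ⧸ C) := inferInstance
    exact ((Nat.bijective_iff_injective_and_card f).2 ⟨hf, hcard⟩).2
  obtain ⟨p, hp⟩ := hsurj ⟨A⁻¹, inv_mem hAD⟩
  obtain ⟨x, rfl⟩ := QuotientGroup.mk_surjective p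
  have h7 : A⁻¹ * (x * A * x⁻¹) = A⁻¹ := congrArg Subtype.val hp
  have h8 : x * A * x⁻¹ = 1 := by
    have := mul_left_cancel (h7.trans (mul_one A⁻¹).symm)
    exact this
  apply hA1
  have h9 : A = x⁻¹ * (x * A * x⁻¹) * x := by group
  rw [h9, h8]; simp

theorem soluble_pair {G : Type*} [Group G] (a b : G) (ha : a ^ 3 = 1) (ha1 : a ≠ 1)
    (hb : b ^ 3 = 1) (hb1 : b ≠ 1)
    (hfin : ((closure ({a, b} : Set G) : Subgroup G) : Set G).Finite)
    (hsol : Group.IsSolvable (closure ({a, b} : Set G)))
    (hc : ∀ c ∈ closure ({a, b} : Set G), c * a = a * c → c ∈ zpowers a) :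
    ∃ L : Subgroup G, Fpf a L ∧ (a⁻¹ * b ∈ L ∨ a * b ∈ L) := by
  set K := closure ({a, b} : Set G) with hK
  have haK : a ∈ K := subset_closure (by simp)
  have hbK : b ∈ K := subset_closure (by simp)
  have hfK : Finite K := hfin.to_subtype
  set A : K := ⟨a, haK⟩ with hA
  set B : K := ⟨b, hbK⟩ with hB
  have hA3 : A ^ 3 = 1 := Subtype.ext ha
  have hB3 : B ^ 3 = 1 := Subtype.ext hb
  have hA1 : A ≠ 1 := fun h => ha1 (congrArg Subtype.val h)
  have hgen : closure ({A, B} : Set K) = ⊤ := by
    have h1 := Subgroup.closure_closure_coe_preimage (k := ({a, b} : Set G))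
    have h2 : ((↑) ⁻¹' ({a, b} : Set G) : Set K) = {A, B} := by
      ext x
      simp [hA, hB, Subtype.ext_iff]
    rw [← h2]
    exact h1
  have hcK : ∀ x : K, x * A = A * x → x ∈ zpowers A := by
    intro x hx
    obtain ⟨n, hn⟩ := hc x x.2 (congrArg Subtype.val hx)
    exact ⟨n, Subtype.ext (by simpa using hn)⟩
  obtain ⟨hi, hAD⟩ := comm_index A B hA3 hA1 hB3 hgen hcK
  set L := (commutator K).map K.subtype with hL
  have hLK : ∀ x ∈ L, ∃ y : K, y ∈ commutator K ∧ (y : G) = x := by
    rintro _ ⟨y, hy, rfl⟩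
    exact ⟨y, hy, rfl⟩
  have hKL : ∀ y : K, y ∈ commutator K → (y : G) ∈ L := fun y hy => ⟨y, hy, rfl⟩
  have hLfin : (L : Set G).Finite := by
    refine hfin.subset ?_
    rintro _ ⟨y, _, rfl⟩
    exact y.2
  have hn : (commutator K).Normal := inferInstance
  have hF : Fpf a L := by
    refine ⟨hLfin, ?_, ?_⟩
    · intro l hl
      obtain ⟨y, hy, rfl⟩ := hLK l hl
      have h1 := hn.conj_mem y hy A⁻¹
      have h2 := hKL _ h1
      have e : ((A⁻¹ * y * A⁻¹⁻¹ : K) : G) = a⁻¹ * y * a := by simp [hA]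
      rwa [e] at h2
    · intro l hl hcom
      obtain ⟨y, hy, rfl⟩ := hLK l hl
      have h1 : y ∈ zpowers A := hcK y (Subtype.ext hcom.eq.symm)
      by_contra hne
      apply hAD
      have hy1 : y ≠ 1 := fun h => hne (by rw [h]; rfl)
      -- `y` generates `zpowers A`
      obtain ⟨n, hn⟩ := h1
      have hn3 : ¬ (3 : ℤ) ∣ n := by
        rintro ⟨k, rfl⟩
        apply hy1
        rw [← hn]
        simp only
        rw [zpow_mul]
        have : A ^ (3 : ℤ) = 1 := by exact_mod_cast hA3
        rw [this, one_zpow]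
      have hA3z : A ^ (3 : ℤ) = 1 := by exact_mod_cast hA3
      have hn' : A ^ n = y := hn
      rcases (by omega : n % 3 = 1 ∨ n % 3 = 2) with h | h
      · have h5 : A = y * (A ^ (3 : ℤ)) ^ (-(n / 3)) := by
          rw [← hn', ← zpow_mul, ← zpow_add]
          have : n + 3 * -(n / 3) = 1 := by omega
          rw [this, zpow_one]
        rw [hA3z, one_zpow, mul_one] at h5
        rw [h5]; exact hy
      · have h5 : A = y * y * (A ^ (3 : ℤ)) ^ (-(2 * (n / 3) + 1)) := by
          rw [← hn', ← zpow_mul, ← zpow_add, ← zpow_add]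
          have : n + n + 3 * -(2 * (n / 3) + 1) = 1 := by omega
          rw [this, zpow_one]
        rw [hA3z, one_zpow, mul_one] at h5
        rw [h5]; exact mul_mem hy hy
  refine ⟨L, hF, ?_⟩
  have hBD : B ∉ commutator K := fun h => hb1 (hF.no3 ha (hKL B h) hb)
  have hcardq : Nat.card (K ⧸ commutator K) = 3 := hi
  have : Fact (Nat.Prime 3) := ⟨Nat.prime_three⟩
  have hAq : ((A : K) : K ⧸ commutator K) ≠ 1 := fun h => hAD ((QuotientGroup.eq_one_iff A).1 h)
  have hBq : ((B : K) : K ⧸ commutator K) ≠ 1 := fun h => hBD ((QuotientGroup.eq_one_iff B).1 h)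
  have hz : ((B : K) : K ⧸ commutator K) ∈ zpowers ((A : K) : K ⧸ commutator K) :=
    mem_zpowers_of_prime_card hcardq hAq
  obtain ⟨n, hn1⟩ := hz
  have hn' : ((A : K) : K ⧸ commutator K) ^ n = ((B : K) : K ⧸ commutator K) := hn1
  have hq3 : ((A : K) : K ⧸ commutator K) ^ (3 : ℤ) = 1 := by
    have h5 : (((A ^ 3 : K)) : K ⧸ commutator K) = 1 := by rw [hA3]; rfl
    rw [QuotientGroup.mk_pow] at h5
    exact_mod_cast h5
  rcases (by omega : n % 3 = 0 ∨ n % 3 = 1 ∨ n % 3 = 2) with h | h | h
  · exfalso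
    apply hBq
    rw [← hn']
    have : n = 3 * (n / 3) := by omega
    rw [this, zpow_mul, hq3, one_zpow]
  · left
    have h5 : ((A⁻¹ * B : K) : K ⧸ commutator K) = 1 := by
      rw [QuotientGroup.mk_mul, QuotientGroup.mk_inv, ← hn']
      have : n = 3 * (n / 3) + 1 := by omega
      rw [this, zpow_add, zpow_mul, hq3, one_zpow, zpow_one, one_mul, inv_mul_cancel]
    exact hKL _ ((QuotientGroup.eq_one_iff _).1 h5)
  · right
    have h5 : ((A * B : K) : K ⧸ commutator K) = 1 := by
      rw [QuotientGroup.mk_mul, ← hn', ← zpow_one_add]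
      have : 1 + n = 3 * (n / 3 + 1) := by omega
      rw [this, zpow_mul, hq3, one_zpow]
    exact hKL _ ((QuotientGroup.eq_one_iff _).1 h5)

end Pool.Agent.MP_904310f
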