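import Pool.Agent.Lib_MP_904310_fr.Sign

/-!
# The almost stabiliser of the class contains all kernels
-/

set_option autoImplicit false

namespace Pool.Agent.MP_904310f

open Subgroup Filter

variable {G : Type*} [Group G]

/-- the elements `h` with `X h = X` up to finite sets, `X = cls a` -/
def Dst (a : G) : Subgroup G where
  carrier := {h | (∀ᶠ y in cofinite, y ∈ cls a → y * h ∈ cls a) ∧
    (∀ᶠ y in cofinite, y ∈ cls a → y * h⁻¹ ∈ cls a)}
  one_mem' := by
    constructor
    · exact Eventually.of_forall fun y hy => by simpa using hy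
    · exact Eventually.of_forall fun y hy => by simpa using hy
  mul_mem' := by
    intro h k hh hk
    constructor
    · filter_upwards [hh.1, (tendsto_mul_right h).eventually hk.1] with y h1 h2 hy
      rw [← mul_assoc]; exact h2 (h1 hy)
    · filter_upwards [hk.2, (tendsto_mul_right k⁻¹).eventually hh.2] with y h1 h2 hy
      rw [mul_inv_rev, ← mul_assoc]; exact h2 (h1 hy)
  inv_mem' := by
    intro h hh
    refine ⟨hh.2, ?_⟩
    simpa using hh.1

theorem mem_Dst {a h : G} : h ∈ Dst a ↔ (∀ᶠ y in cofinite, y ∈ cls a → y * h ∈ cls a) ∧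
    (∀ᶠ y in cofinite, y ∈ cls a → y * h⁻¹ ∈ cls a) := Iff.rfl

instance Dst_normal (a : G) : (Dst a).Normal := by
  constructor
  intro h hh g
  have key : ∀ k : G, (∀ᶠ y in cofinite, y ∈ cls a → y * k ∈ cls a) →
      (∀ᶠ y in cofinite, y ∈ cls a → y * (g * k * g⁻¹) ∈ cls a) := by
    intro k hk
    filter_upwards [(tendsto_conj g).eventually hk] with y h1 hy
    have h2 := cls_conj (h1 (cls_conj hy g)) g⁻¹
    have e : (g⁻¹)⁻¹ * (g⁻¹ * y * g * k) * g⁻¹ = y * (g * k * g⁻¹) := by group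
    rwa [e] at h2
  refine ⟨key h hh.1, ?_⟩
  have e : (g * h * g⁻¹)⁻¹ = g * h⁻¹ * g⁻¹ := by group
  rw [e]
  exact key h⁻¹ hh.2

theorem sq_mem_Dst {a : G} (c : Ctx a) {g : G} (h : NK a g) : g * g ∈ Dst a := by
  obtain ⟨u, hu, L, hL, hg⟩ := h
  have key : ∀ t ∈ L, ∀ᶠ y in cofinite, y ∈ cls a → y * (t * t) ∈ cls a := by
    intro t ht
    filter_upwards [gen c hu hL] with y h1 hy
    obtain ⟨_, h2, h3, _⟩ := h1 hy
    by_cases hh : y * t ∈ cls a
    · exact h2 t ht t ht hh hh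
    · exact h3 t ht t ht hh hh
  refine ⟨key g hg, ?_⟩
  rw [mul_inv_rev]
  exact key g⁻¹ (L.inv_mem hg)

/-- the computation modulo the almost stabiliser -/
theorem quot_calc {Q : Type*} [Group Q] {Y P K R : Q} (hY : Y ^ 3 = 1) (h1 : Y * P * (Y * P) = 1)
    (hP : P * P = 1) (h2 : Y * K * (Y * K) = 1) (hK : K * K = 1) (hR : R * R = 1)
    (hPKR : P * K * R = 1) (hYR : (Y * R) ^ 3 = 1) : R = 1 := by
  have hPi : P⁻¹ = P := inv_eq_of_mul_eq_one_left hP
  have hKi : K⁻¹ = K := inv_eq_of_mul_eq_one_left hK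
  have hRe : R = K * P := by
    have : R = (P * K)⁻¹ := eq_inv_of_mul_eq_one_right hPKR
    rw [this, mul_inv_rev, hPi, hKi]
  have a1 : Y * K = K * Y⁻¹ := by
    have : Y * K = (Y * K)⁻¹ := eq_inv_of_mul_eq_one_left h2
    rw [mul_inv_rev, hKi] at this
    exact this
  have a2 : P * Y = Y⁻¹ * P := by
    have h3 : Y * P = (Y * P)⁻¹ := eq_inv_of_mul_eq_one_left h1
    rw [mul_inv_rev, hPi] at h3
    have h4 := congrArg (fun t => Y⁻¹ * t * Y) h3
    have h5 : Y⁻¹ * (Y * P) * Y = P * Y := by group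
    have h6 : Y⁻¹ * (P * Y⁻¹) * Y = Y⁻¹ * P := by group
    rw [h5, h6] at h4
    exact h4
  have hc : Commute Y R := by
    change Y * R = R * Y
    rw [hRe]
    calc Y * (K * P) = (Y * K) * P := by group
      _ = K * (Y⁻¹ * P) := by rw [a1]; group
      _ = K * (P * Y) := by rw [a2]
      _ = K * P * Y := by group
  rw [hc.mul_pow, hY, one_mul] at hYR
  have : R ^ 3 = R * R * R := by simp [pow_succ, mul_assoc]
  rw [this, hR, one_mul] at hYR
  exact hYR

/-- every kernel is contained in the almost stabiliser -/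
theorem NK_le_Dst {a : G} (c : Ctx a) {g : G} (h : NK a g) : g ∈ Dst a := by
  obtain ⟨u, hu, L, hL, hg⟩ := h
  have hu3 := c.cube_mem hu
  -- the main step
  have main : ∀ t ∈ L, (¬ ∀ᶠ y in cofinite, y ∈ cls a → y * t ∈ cls a) → t ∈ Dst a := by
    intro t ht hn
    have hfr : ∃ᶠ y in cofinite, y ∈ cls a ∧ y * t ∉ cls a := by
      rw [Filter.not_eventually] at hn
      refine hn.mono ?_
      intro y hy
      push Not at hy
      exact hy
    obtain ⟨y, ⟨hy, hyt⟩, hg1⟩ := (hfr.and_eventually (gen c hu hL)).exists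
    obtain ⟨neg, mul, bb, nk⟩ := hg1 hy
    set t1 := u⁻¹ * t * u with ht1
    set t2 := u * t * u⁻¹ with ht2
    have m1 : t1 ∈ L := hL.inv t ht
    have m2 : t2 ∈ L := hL.inv' t ht
    have nrm : t2 * t1 * t = 1 := hL.norm hu3 ht
    have hinv : t2 * t1 = t⁻¹ := eq_inv_of_mul_eq_one_left nrm
    have finish : ∀ q ∈ L, ∀ r ∈ L, y * q ∉ cls a → y * r ∈ cls a → t * q * r = 1 →
        r ∈ Dst a := by
      intro q hq r hr hyq hyr hprod
      have s1 := sq_mem_Dst c (nk t ht hyt)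
      have s2 := sq_mem_Dst c (nk q hq hyq)
      have s3 := sq_mem_Dst c ⟨u, hu, L, hL, ht⟩
      have s4 := sq_mem_Dst c ⟨u, hu, L, hL, hq⟩
      have s5 := sq_mem_Dst c ⟨u, hu, L, hL, hr⟩
      have s6 : y ^ 3 = 1 := c.cube_mem hy
      have s7 : (y * r) ^ 3 = 1 := c.cube_mem hyr
      let π := QuotientGroup.mk' (Dst a)
      have hπ : ∀ x, π x = 1 ↔ x ∈ Dst a := fun x => QuotientGroup.eq_one_iff x
      rw [← hπ] at s1 s2 s3 s4 s5 ⊢
      have s6' := congrArg π s6
      have s7' := congrArg π s7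
      have s8' := congrArg π hprod
      simp only [map_mul, map_pow, map_one] at s1 s2 s3 s4 s5 s6' s7' s8'
      exact quot_calc s6' s1 s3 s2 s4 s5 s8' s7'
    by_cases c1 : y * t1 ∈ cls a
    · have c2 : y * t2 ∉ cls a := by
        intro c2
        apply hyt
        apply neg t ht
        rw [← hinv]
        exact mul t2 m2 t1 m1 c2 c1
      have hp : t * t2 * t1 = 1 := by
        rw [mul_assoc, hinv, mul_inv_cancel]
      have h3 := finish t2 m2 t1 m1 c2 c1 hp
      have h4 := (Dst_normal a).conj_mem _ h3 u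
      have e : u * t1 * u⁻¹ = t := by rw [ht1]; group
      rwa [e] at h4
    · have c2 : y * t2 ∈ cls a := by
        by_contra c2
        apply hyt
        apply neg t ht
        rw [← hinv]
        exact bb t2 m2 t1 m1 c2 c1
      have hp : t * t1 * t2 = 1 := by
        have h5 : t1 * t2 = t2 * t1 := (hL.com _ m1 _ m2).eq
        rw [mul_assoc, h5, hinv, mul_inv_cancel]
      have h3 := finish t1 m1 t2 m2 c1 c2 hp
      have h4 := (Dst_normal a).conj_mem _ h3 u⁻¹
      have e : u⁻¹ * t2 * u⁻¹⁻¹ = t := by rw [ht2]; group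
      rwa [e] at h4
  by_contra hcon
  have hcon2 : ¬ ((∀ᶠ y in cofinite, y ∈ cls a → y * g ∈ cls a) ∧
    (∀ᶠ y in cofinite, y ∈ cls a → y * g⁻¹ ∈ cls a)) := hcon
  by_cases h1 : ∀ᶠ y in cofinite, y ∈ cls a → y * g ∈ cls a
  · have h2 : ¬ ∀ᶠ y in cofinite, y ∈ cls a → y * g⁻¹ ∈ cls a := fun h => hcon2 ⟨h1, h⟩
    have h3 := main g⁻¹ (L.inv_mem hg) h2
    exact hcon (by simpa using (Dst a).inv_mem h3)
  · exact hcon (main g hg h1)

/-- the subgroup generated by all kernels -/
def Fk (a : G) : Subgroup G := normalClosure {g | NK a g}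

instance Fk_normal (a : G) : (Fk a).Normal := normalClosure_normal

theorem Fk_le {a : G} (c : Ctx a) : Fk a ≤ Dst a :=
  normalClosure_le_normal fun _ hg => NK_le_Dst c hg

theorem NK.mem {a g : G} (h : NK a g) : g ∈ Fk a := subset_normalClosure h

theorem Krn.le_Fk {a u : G} {L : Subgroup G} (h : Krn u L) (hu : u ∈ cls a) : L ≤ Fk a :=
  fun _ hl => NK.mem ⟨u, hu, L, h, hl⟩

end Pool.Agent.MP_904310f
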