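import Pool.Agent.Lib_MP_904310_fr.Label2

/-!
# The subgroup generated by the kernels, prime at least five
-/

set_option autoImplicit false

namespace Pool.Agent.MP_904310f.Lab

open Subgroup Filter

open Pool.Agent.MP_904310f (Fpf Krn)

universe v

variable {G : Type v} [Group G] {p : ℕ} {a : G}

/-- the almost stabiliser of the class -/
def Ds (p : ℕ) (a : G) : Subgroup G where
  carrier := {h | (∀ᶠ y in cofinite, y ∈ cl p a → y * h ∈ cl p a) ∧
    (∀ᶠ y in cofinite, y ∈ cl p a → y * h⁻¹ ∈ cl p a)}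
  one_mem' := by
    constructor
    · exact Eventually.of_forall fun y hy => by simpa using hy
    · exact Eventually.of_forall fun y hy => by simpa using hy
  mul_mem' := by
    intro h k hh hk
    constructor
    · filter_upwards [hh.1, (tendsto_mul_right h).eventually hk.1] with y h1 h2 hy
      rw [← mul_assoc]; exact h2 (h1 hy)
    · filter_upwards [hk.2, (tendsto_mul_right k⁻¹).eventually hh.2] with y h1 h2 hy
      rw [mul_inv_rev, ← mul_assoc]; exact h2 (h1 hy)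
  inv_mem' := by
    intro h hh
    refine ⟨hh.2, ?_⟩
    simpa using hh.1

instance Ds_normal (p : ℕ) (a : G) : (Ds p a).Normal := by
  constructor
  intro h hh g
  have key : ∀ k : G, (∀ᶠ y in cofinite, y ∈ cl p a → y * k ∈ cl p a) →
      (∀ᶠ y in cofinite, y ∈ cl p a → y * (g * k * g⁻¹) ∈ cl p a) := by
    intro k hk
    filter_upwards [(tendsto_conj g).eventually hk] with y h1 hy
    have h2 := cl_conj (h1 (cl_conj hy g)) g⁻¹
    have e : (g⁻¹)⁻¹ * (g⁻¹ * y * g * k) * g⁻¹ = y * (g * k * g⁻¹) := by group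
    rwa [e] at h2
  refine ⟨key h hh.1, ?_⟩
  have e : (g * h * g⁻¹)⁻¹ = g * h⁻¹ * g⁻¹ := by group
  rw [e]
  exact key h⁻¹ hh.2

theorem NK_le (c : Ct p a) {g : G} (h : NK p a g) : g ∈ Ds p a := by
  obtain ⟨u, hu, L, hL, hg⟩ := h
  exact ⟨kernel_cl c hu hL hg, kernel_cl c hu hL (L.inv_mem hg)⟩

/-- the subgroup generated by all kernels -/
def Fk (p : ℕ) (a : G) : Subgroup G := normalClosure {g | NK p a g}

instance Fk_normal (p : ℕ) (a : G) : (Fk p a).Normal := normalClosure_normal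

theorem Fk_le (c : Ct p a) : Fk p a ≤ Ds p a :=
  normalClosure_le_normal fun _ hg => NK_le c hg

theorem NK.mem {g : G} (h : NK p a g) : g ∈ Fk p a := subset_normalClosure h

theorem Krn.le_Fk {u : G} {L : Subgroup G} (h : Krn u L) (hu : u ∈ cl p a) : L ≤ Fk p a :=
  fun _ hl => NK.mem ⟨u, hu, L, h, hl⟩

theorem exists_gen (hX : (cl p a).Infinite) {P : G → Prop}
    (h : ∀ᶠ y in cofinite, y ∈ cl p a → P y) : ∃ y ∈ cl p a, P y := by
  have h1 : ∃ᶠ y in cofinite, y ∈ cl p a := by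
    rw [frequently_cofinite_iff_infinite]
    exact hX
  obtain ⟨y, h2, h3⟩ := (h1.and_eventually h).exists
  exact ⟨y, h2, h3 h2⟩

theorem not_mem_Fk (c : Ct p a) (hX : (cl p a).Infinite) {x : G} (hx : x ∈ cl p a) :
    x ∉ Fk p a := by
  have hF := Fact.mk c.prime
  intro h
  have h2 : ∀ᶠ y in cofinite, ∀ j ∈ {j : ℕ | j < p}, y ∈ cl p a → y * x ^ j ∈ cl p a := by
    rw [Filter.eventually_all_finite (Set.finite_lt_nat p)]
    intro j _
    exact ((Ds p a).pow_mem (Fk_le c h) j).1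
  have h3 : ∀ᶠ y in cofinite, y ∈ cl p a →
      (Gd x y ∧ ∀ j ∈ {j : ℕ | j < p}, y * x ^ j ∈ cl p a) := by
    filter_upwards [h2, c.ev hx] with y a1 a2 hy
    exact ⟨a2 hy, fun j hj => a1 j hj hy⟩
  obtain ⟨y, hy, b1, b2⟩ := exists_gen hX h3
  obtain ⟨t, ht⟩ := crit c hx hy b1
  have h4 := (ht 1 (by simp) (t : ZMod p).val).1
    (by rw [pow_one]; exact b2 _ (ZMod.val_lt _))
  apply h4
  rw [ZMod.natCast_zmod_val]
  simp

theorem Gd.mod {x y : G} (hx : x ∈ cl p a) (h : Gd x y) : ∃ i : ℕ, (x ^ i)⁻¹ * y ∈ Fk p a := by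
  obtain ⟨L, hL, i, hi⟩ := h
  exact ⟨i, Krn.le_Fk hL hx hi⟩

theorem mod_iff {x y : G} : x⁻¹ * y ∈ Fk p a ↔ (x : G ⧸ Fk p a) = y := QuotientGroup.eq.symm

/-- any two elements of the class are powers of each other modulo `Fk` -/
theorem mod_eq (c : Ct p a) (hX : (cl p a).Infinite) {x y : G} (hx : x ∈ cl p a)
    (hy : y ∈ cl p a) : ∃ k : ℕ, (k : ZMod p) ≠ 0 ∧ (x ^ k)⁻¹ * y ∈ Fk p a := by
  have hF := Fact.mk c.prime
  have h2 : ∀ᶠ r in cofinite, r ∈ cl p a → Gd x r ∧ Gd y r := by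
    filter_upwards [c.ev hx, c.ev hy] with r a1 a2 hr
    exact ⟨a1 hr, a2 hr⟩
  obtain ⟨r, hr, b1, b2⟩ := exists_gen hX h2
  obtain ⟨i, hi⟩ := Gd.mod hx b1
  obtain ⟨j, hj⟩ := Gd.mod hy b2
  have hj0 : (j : ZMod p) ≠ 0 := by
    intro h0
    apply not_mem_Fk c hX hr
    have h1 : y ^ j = 1 := by
      have : (j : ZMod p) = ((0 : ℕ) : ZMod p) := by rw [h0]; simp
      rw [pow_congr (c.pow_mem hy) this, pow_zero]
    rwa [h1, inv_one, one_mul] at hj
  obtain ⟨m, hm0, hm1, hm⟩ := root.{v} c.prime hj0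
  rw [mod_iff] at hi hj
  have e : ((x ^ (i * m) : G) : G ⧸ Fk p a) = y := by
    have h1 : ((y : G) : G ⧸ Fk p a) = (((y ^ j) ^ m : G) : G ⧸ Fk p a) := by
      rw [hm y (c.pow_mem hy)]
    rw [h1, pow_mul, QuotientGroup.mk_pow, hi, QuotientGroup.mk_pow, hj]
  refine ⟨i * m, ?_, mod_iff.2 e⟩
  intro h0
  apply not_mem_Fk c hX hy
  have h1 : x ^ (i * m) = 1 := by
    have : ((i * m : ℕ) : ZMod p) = ((0 : ℕ) : ZMod p) := by rw [h0]; simp
    rw [pow_congr (c.pow_mem hx) this, pow_zero]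
  rw [h1] at e
  exact (QuotientGroup.eq_one_iff y).1 e.symm

/-- in the coset `x Fk` good pairs have label one -/
theorem Gd.one (c : Ct p a) (hX : (cl p a).Infinite) {x y : G} (hx : x ∈ cl p a)
    (h : Gd x y) (hy : x⁻¹ * y ∈ Fk p a) : ∃ L : Subgroup G, Krn x L ∧ x⁻¹ * y ∈ L := by
  have hF := Fact.mk c.prime
  obtain ⟨L, hL, i, hi⟩ := h
  have hiF := Krn.le_Fk hL hx hi
  have hi1 : (i : ZMod p) = 1 := by
    by_contra hne
    set n := ((i : ZMod p) - 1).val with hn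
    have hn1 : (n : ZMod p) = (i : ZMod p) - 1 := ZMod.natCast_zmod_val _
    have hn0 : (n : ZMod p) ≠ 0 := by rw [hn1]; exact sub_ne_zero.2 hne
    apply not_mem_Fk c hX (c.cl_pow hx hn0)
    have h1 : x ^ i = x ^ n * x := by
      rw [← pow_succ]
      apply pow_congr (c.pow_mem hx)
      push_cast
      rw [hn1]; ring
    rw [mod_iff] at hiF hy
    rw [← QuotientGroup.eq_one_iff (N := Fk p a)]
    have h2 : ((x ^ n * x : G) : G ⧸ Fk p a) = (x : G ⧸ Fk p a) := by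
      rw [← h1, hiF, hy]
    rw [QuotientGroup.mk_mul] at h2
    exact mul_eq_right.1 h2
  have h1 : x ^ i = x := by
    have : (i : ZMod p) = ((1 : ℕ) : ZMod p) := by rw [hi1]; simp
    rw [pow_congr (c.pow_mem hx) this, pow_one]
  rw [h1] at hi
  exact ⟨L, hL, hi⟩

theorem infinite_coset (c : Ct p a) (hX : (cl p a).Infinite) {x : G} (hx : x ∈ cl p a) :
    {y | y ∈ cl p a ∧ x⁻¹ * y ∈ Fk p a}.Infinite := by
  have hF := Fact.mk c.prime
  intro hfin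
  apply hX
  have h1 : ((fun z : G × ℕ => z.1 ^ z.2) ''
      ({y | y ∈ cl p a ∧ x⁻¹ * y ∈ Fk p a} ×ˢ {j : ℕ | j < p})).Finite :=
    (hfin.prod (Set.finite_lt_nat p)).image _
  refine h1.subset ?_
  intro y hy
  obtain ⟨k, hk0, hk⟩ := mod_eq c hX hx hy
  obtain ⟨m, hm0, hm1, hm⟩ := root.{v} c.prime hk0
  refine ⟨(y ^ m, k % p), ⟨⟨c.cl_pow hy hm0, ?_⟩, Nat.mod_lt _ c.prime.pos⟩, ?_⟩
  · rw [mod_iff] at hk ⊢
    have : ((x : G) : G ⧸ Fk p a) = (((x ^ k) ^ m : G) : G ⧸ Fk p a) := by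
      rw [hm x (c.pow_mem hx)]
    rw [this, QuotientGroup.mk_pow, hk, QuotientGroup.mk_pow]
  · simp only
    have hyp : (y ^ m) ^ p = 1 := c.pow_mem (c.cl_pow hy hm0)
    rw [← pow_eq_pow_mod k hyp, ← pow_mul]
    have : ((m * k : ℕ) : ZMod p) = ((1 : ℕ) : ZMod p) := by
      push_cast; rw [mul_comm]; exact hm1
    rw [pow_congr (c.pow_mem hy) this, pow_one]

theorem infinite_Fk (c : Ct p a) (hX : (cl p a).Infinite) :
    ((Fk p a : Subgroup G) : Set G).Infinite := by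
  intro hfin
  apply infinite_coset c hX c.self_mem
  refine (hfin.image (fun f => a * f)).subset ?_
  intro y hy
  exact ⟨a⁻¹ * y, hy.2, by simp⟩

theorem exists_Fk (c : Ct p a) (hX : (cl p a).Infinite) {P : G → Prop}
    (h : ∀ᶠ f in cofinite, f ∈ Fk p a → P f) : ∃ f ∈ Fk p a, P f := by
  have h1 : ∃ᶠ y in cofinite, y ∈ (Fk p a : Set G) := by
    rw [frequently_cofinite_iff_infinite]
    exact infinite_Fk c hX
  obtain ⟨y, h2, h3⟩ := (h1.and_eventually h).exists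
  exact ⟨y, h2, h3 h2⟩

theorem commute_of_conj_eq {x f m : G} (h : m⁻¹ * x * m = f⁻¹ * x * f) :
    Commute x (f * m⁻¹) := by
  have h8 := congrArg (fun t => f * t * m⁻¹) h
  change x * (f * m⁻¹) = f * m⁻¹ * x
  have h9 : f * (m⁻¹ * x * m) * m⁻¹ = f * m⁻¹ * x := by group
  have h10 : f * (f⁻¹ * x * f) * m⁻¹ = x * (f * m⁻¹) := by group
  rw [← h9, ← h10]
  exact h8.symm

/-- elements of the class act without fixed points on `Fk` -/
theorem fpf_Fk (c : Ct p a) (hX : (cl p a).Infinite) {x : G} (hx : x ∈ cl p a) {e : G}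
    (he : e ∈ Fk p a) (hc : Commute x e) : e = 1 := by
  have hD := Fk_le c he
  have hleft : ∀ᶠ y in cofinite, y ∈ cl p a → e⁻¹ * y ∈ cl p a := by
    filter_upwards [(tendsto_conj e).eventually hD.2] with y h1 hy
    have h2 := h1 (cl_conj hy e)
    have h3 : e⁻¹ * y * e * e⁻¹ = e⁻¹ * y := by group
    rwa [h3] at h2
  have htl : Tendsto (fun y : G => e⁻¹ * y) cofinite cofinite :=
    (mul_right_injective e⁻¹).tendsto_cofinite
  have hall : ∀ᶠ y in cofinite, y ∈ cl p a →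
      (e⁻¹ * y ∈ cl p a ∧ Gd x y ∧ Gd x (e⁻¹ * y)) := by
    filter_upwards [hleft, c.ev hx, htl.eventually (c.ev hx)] with y h1 h2 h3 hy
    exact ⟨h1 hy, h2 hy, h3 (h1 hy)⟩
  have hfr : ∃ᶠ y in cofinite, y ∈ {y | y ∈ cl p a ∧ x⁻¹ * y ∈ Fk p a} := by
    rw [frequently_cofinite_iff_infinite]
    exact infinite_coset c hX hx
  obtain ⟨y, ⟨hy, hyF⟩, h1⟩ := (hfr.and_eventually hall).exists
  obtain ⟨h1, h2, h3⟩ := h1 hy
  have hxe : x⁻¹ * (e⁻¹ * y) = e⁻¹ * (x⁻¹ * y) := by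
    have : x⁻¹ * e⁻¹ = e⁻¹ * x⁻¹ := (hc.inv_inv).eq
    rw [← mul_assoc, this, mul_assoc]
  have hyF' : x⁻¹ * (e⁻¹ * y) ∈ Fk p a := by
    rw [hxe]; exact (Fk p a).mul_mem ((Fk p a).inv_mem he) hyF
  obtain ⟨L, hL, hl⟩ := Gd.one c hX hx h2 hyF
  obtain ⟨L', hL', hl'⟩ := Gd.one c hX hx h3 hyF'
  rw [hxe] at hl'
  set l := x⁻¹ * y with hldef
  have hd : x⁻¹ * (l⁻¹ * x * l) ∈ L := by
    have : x⁻¹ * (l⁻¹ * x * l) = (x⁻¹ * l⁻¹ * x) * l := by group
    rw [this]; exact L.mul_mem (hL.inv _ (L.inv_mem hl)) hl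
  have hd' : x⁻¹ * (l⁻¹ * x * l) ∈ L' := by
    have h5 : x⁻¹ * (l⁻¹ * x * l) = (x⁻¹ * (e⁻¹ * l)⁻¹ * x) * (e⁻¹ * l) := by
      have h6 : (x⁻¹ * (e⁻¹ * l)⁻¹ * x) * (e⁻¹ * l) = x⁻¹ * l⁻¹ * (e * x * e⁻¹) * l := by group
      have h7 : e * x * e⁻¹ = x := by rw [← hc.eq]; group
      rw [h6, h7]; group
    rw [h5]; exact L'.mul_mem (hL'.inv _ (L'.inv_mem hl')) hl'
  have hI : Fpf x (L ⊓ L') := ⟨hL.fin.subset inf_le_left,
    fun z hz => ⟨hL.inv z hz.1, hL'.inv z hz.2⟩, fun z hz => hL.fpf z hz.1⟩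
  obtain ⟨m, hm, hm1⟩ := hI.conj ⟨hd, hd'⟩
  have hm2 : m⁻¹ * x * m = l⁻¹ * x * l := by rw [hm1]; group
  have c1 := commute_of_conj_eq hm2
  have e1 : l * m⁻¹ = 1 := hL.fpf _ (L.mul_mem hl (L.inv_mem hm.1)) c1
  have c2 : Commute x (e⁻¹ * l * m⁻¹) := by
    rw [mul_assoc]; exact hc.inv_right.mul_right c1
  have e2 : e⁻¹ * l * m⁻¹ = 1 := hL'.fpf _ (L'.mul_mem hl' (L'.inv_mem hm.2)) c2
  rw [mul_assoc, e1, mul_one] at e2
  exact inv_eq_one.1 e2

/-- almost all elements of `Fk` lie in kernels of `a` -/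
theorem ev_ker (c : Ct p a) (hX : (cl p a).Infinite)
    (hbad : {g : G | ¬ Gd a (g⁻¹ * a * g)}.Finite) :
    ∀ᶠ f in cofinite, f ∈ Fk p a → ∃ L : Subgroup G, Krn a L ∧ f ∈ L := by
  have ha := c.self_mem
  have h1 : ∀ᶠ g in cofinite, Gd a (g⁻¹ * a * g) := by
    rw [eventually_cofinite]; exact hbad
  filter_upwards [h1] with f hf hfF
  have hF : a⁻¹ * (f⁻¹ * a * f) ∈ Fk p a := by
    have h2 := (Fk_normal p a).conj_mem _ ((Fk p a).inv_mem hfF) a⁻¹
    have e : a⁻¹ * (f⁻¹ * a * f) = (a⁻¹ * f⁻¹ * a⁻¹⁻¹) * f := by group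
    rw [e]; exact (Fk p a).mul_mem h2 hfF
  obtain ⟨L, hL, hl⟩ := Gd.one c hX ha hf hF
  obtain ⟨m, hm, hm1⟩ := hL.conj hl
  have hm2 : m⁻¹ * a * m = f⁻¹ * a * f := by rw [hm1]; group
  have e1 := fpf_Fk c hX ha
    ((Fk p a).mul_mem hfF ((Fk p a).inv_mem (Krn.le_Fk hL ha hm))) (commute_of_conj_eq hm2)
  have e2 : f = m := mul_inv_eq_one.1 e1
  exact ⟨L, hL, e2 ▸ hm⟩

/-- finite index -/
theorem Fk_index (c : Ct p a) (hX : (cl p a).Infinite)
    (hC : ((centralizer ({a} : Set G) : Subgroup G) : Set G).Finite)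
    (hbad : {g : G | ¬ Gd a (g⁻¹ * a * g)}.Finite) : (Fk p a).FiniteIndex := by
  have hF := Fact.mk c.prime
  have ha := c.self_mem
  have key : ∀ g : G, a⁻¹ * (g⁻¹ * a * g) ∈ Fk p a →
      ∃ z ∈ centralizer ({a} : Set G), ∃ f ∈ Fk p a, g = z * f := by
    intro g hg
    have hev : ∀ᶠ f in cofinite, f ∈ Fk p a → Gd a ((g * f)⁻¹ * a * (g * f)) := by
      have h1 : ∀ᶠ g in cofinite, Gd a (g⁻¹ * a * g) := by
        rw [eventually_cofinite]; exact hbad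
      have h2 : Tendsto (fun f : G => g * f) cofinite cofinite :=
        (mul_right_injective g).tendsto_cofinite
      filter_upwards [h2.eventually h1] with f hf _
      exact hf
    obtain ⟨f, hf, hG⟩ := exists_Fk c hX hev
    have hmem : a⁻¹ * ((g * f)⁻¹ * a * (g * f)) ∈ Fk p a := by
      rw [← QuotientGroup.eq_one_iff (N := Fk p a)] at hg hf ⊢
      simp only [QuotientGroup.mk_mul, QuotientGroup.mk_inv] at hg ⊢
      rw [hf, mul_one]
      exact hg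
    obtain ⟨L, hL, hl⟩ := Gd.one c hX ha hG hmem
    obtain ⟨m, hm, hm1⟩ := hL.conj hl
    have hm2 : m⁻¹ * a * m = (g * f)⁻¹ * a * (g * f) := by rw [hm1]; group
    have c1 := commute_of_conj_eq hm2
    refine ⟨g * f * m⁻¹, ?_, m * f⁻¹,
      (Fk p a).mul_mem (Krn.le_Fk hL ha hm) ((Fk p a).inv_mem hf), ?_⟩
    · rw [mem_centralizer_singleton_iff]
      exact c1.eq.symm
    · group
  have hfinq : Finite (G ⧸ Fk p a) := by
    rw [← Set.finite_univ_iff]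
    -- representatives of the labels
    have hrep : ∀ k : ℕ, ∃ g0 : G, (∃ g : G, (a ^ k)⁻¹ * (g⁻¹ * a * g) ∈ Fk p a) →
        (a ^ k)⁻¹ * (g0⁻¹ * a * g0) ∈ Fk p a := by
      intro k
      by_cases h : ∃ g : G, (a ^ k)⁻¹ * (g⁻¹ * a * g) ∈ Fk p a
      · obtain ⟨g, hg⟩ := h
        exact ⟨g, fun _ => hg⟩
      · exact ⟨1, fun h' => absurd h' h⟩
    choose r hr using hrep
    have hfin : ((fun z : G × ℕ => ((z.1 * r z.2 : G) : G ⧸ Fk p a)) ''
        (((centralizer ({a} : Set G) : Subgroup G) : Set G) ×ˢ {j : ℕ | j < p})).Finite :=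
      (hC.prod (Set.finite_lt_nat p)).image _
    refine hfin.subset ?_
    intro q _
    obtain ⟨g, rfl⟩ := QuotientGroup.mk_surjective q
    obtain ⟨k0, hk0, hk⟩ := mod_eq c hX ha (cl_conj ha g)
    set k := k0 % p with hkdef
    have hk' : (a ^ k)⁻¹ * (g⁻¹ * a * g) ∈ Fk p a := by
      rw [hkdef, ← pow_eq_pow_mod k0 c.pow]; exact hk
    have hrk := hr k ⟨g, hk'⟩
    have h' : a⁻¹ * ((g * (r k)⁻¹)⁻¹ * a * (g * (r k)⁻¹)) ∈ Fk p a := by
      rw [mod_iff] at hk' hrk ⊢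
      simp only [QuotientGroup.mk_mul, QuotientGroup.mk_inv] at hk' hrk ⊢
      rw [hk'] at hrk
      generalize (a : G ⧸ Fk p a) = A at *
      generalize (g : G ⧸ Fk p a) = B at *
      generalize ((r k : G) : G ⧸ Fk p a) = C at *
      have e4 : (B * C⁻¹)⁻¹ * A * (B * C⁻¹) = C * (B⁻¹ * A * B) * C⁻¹ := by group
      rw [e4, hrk]; group
    obtain ⟨z, hz, f, hf, hzf⟩ := key _ h'
    refine ⟨(z, k), ⟨hz, Nat.mod_lt _ c.prime.pos⟩, ?_⟩
    simp only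
    have e5 : g = z * f * r k := by rw [← hzf]; group
    rw [e5, QuotientGroup.mk_mul, QuotientGroup.mk_mul, QuotientGroup.mk_mul,
      (QuotientGroup.eq_one_iff f).2 hf, mul_one]
  exact Subgroup.finiteIndex_of_finite_quotient

end Pool.Agent.MP_904310f.Lab
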